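import Pool.Agent.Lib.SkH.Defs

/-!
# Module Cas: the Casimir element

`κ = killingForm k K` is symmetric and nondegenerate, `2 ≠ 0`, `k` algebraically closed: there is a basis with `κ (x i) (x j) = δ_ij`
(`LinearMap.BilinForm.exists_orthogonal_basis`, then divide by square roots of `κ (x i) (x i) ≠ 0`).
`⁅x i, y⁆ = Σ_j κ ⁅x i, y⁆ (x j) • x j` and `κ ⁅x i, y⁆ (x j) = κ (x i) ⁅y, x j⁆ = - κ ⁅x j, y⁆ (x i)`, so
`[C, ψ y] = Σ_i (ψ (x i) ψ ⁅x i, y⁆ + ψ ⁅x i, y⁆ ψ (x i)) = Σ_ij κ ⁅x i, y⁆ (x j) (ψ (x i) ψ (x j) + ψ (x j) ψ (x i)) = 0` (antisymmetric times symmetric; swap `i`, `j`: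
the sum `S` satisfies `S = -S`, so `S = 0` as `2 ≠ 0` in `k`; or split into two sums that cancel after swapping).
-/

namespace Pool.Agent.SkH

open Module

variable {k K : Type} [Field k] [LieRing K] [LieAlgebra k K] [FiniteDimensional k K]

private lemma cas_basis [IsAlgClosed k] (h2 : (2 : k) ≠ 0) (hK : LieAlgebra.IsKilling k K) :
    ∃ x : Basis (Fin (finrank k K)) k K, ∀ i j,
      killingForm k K (x i) (x j) = if i = j then 1 else 0 := by
  have hnd : (killingForm k K).Nondegenerate := LieAlgebra.IsKilling.killingForm_nondegenerate k K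
  have hsymm : LinearMap.IsSymm (killingForm k K) := LieModule.traceForm_isSymm k K K
  haveI : Invertible (2 : k) := invertibleOfNonzero h2
  obtain ⟨v, hv⟩ := LinearMap.BilinForm.exists_orthogonal_basis hsymm
  have hv0 : ∀ i j, i ≠ j → killingForm k K (v i) (v j) = 0 := fun i j hij => hv hij
  have hvi : ∀ i, killingForm k K (v i) (v i) ≠ 0 := by
    intro i h
    have h3 : killingForm k K (v i) = 0 := by
      apply v.ext
      intro j
      by_cases hij : i = j
      · rw [← hij, h, LinearMap.zero_apply]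
      · rw [hv0 i j hij, LinearMap.zero_apply]
    have h4 : v i ∈ LinearMap.ker (killingForm k K) := h3
    rw [LieAlgebra.IsKilling.ker_killingForm_eq_bot, Submodule.mem_bot] at h4
    exact v.ne_zero i h4
  have hsq : ∀ i, ∃ c : k, c * c = killingForm k K (v i) (v i) := fun i =>
    (IsAlgClosed.exists_eq_mul_self (killingForm k K (v i) (v i))).imp fun c hc => hc.symm
  choose c hc using hsq
  have hc0 : ∀ i, c i ≠ 0 := by
    intro i h
    apply hvi i
    rw [← hc, h, mul_zero]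
  refine ⟨v.unitsSMul fun i => (Units.mk0 (c i) (hc0 i))⁻¹, fun i j => ?_⟩
  rw [Basis.unitsSMul_apply, Basis.unitsSMul_apply]
  change killingForm k K ((c i)⁻¹ • v i) ((c j)⁻¹ • v j) = _
  rw [map_smul, map_smul, LinearMap.smul_apply, smul_eq_mul, smul_eq_mul]
  by_cases hij : i = j
  · rw [if_pos hij, ← hij, ← hc]
    have := hc0 i
    field_simp
  · rw [if_neg hij, hv0 i j hij, mul_zero, mul_zero]

theorem exists_casimir [IsAlgClosed k] (h2 : (2 : k) ≠ 0) (hK : LieAlgebra.IsKilling k K) :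
    ∃ x : Basis (Fin (finrank k K)) k K, ∀ (A : Type) [Ring A] [Algebra k A] (ψ : K →ₗ[k] A),
      (∀ a b : K, ψ ⁅a, b⁆ = ψ a * ψ b - ψ b * ψ a) →
      ∀ y : K, (∑ i, ψ (x i) * ψ (x i)) * ψ y = ψ y * ∑ i, ψ (x i) * ψ (x i) := by
  obtain ⟨x, hx⟩ := cas_basis h2 hK
  refine ⟨x, fun A _ _ ψ hψ y => ?_⟩
  have hrepr : ∀ z : K, z = ∑ j, killingForm k K z (x j) • x j := by
    intro z
    have h1 : ∀ j, killingForm k K z (x j) = x.repr z j := by
      intro j
      conv_lhs => rw [← x.sum_repr z]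
      rw [map_sum, LinearMap.sum_apply, Finset.sum_eq_single j]
      · rw [map_smul, LinearMap.smul_apply, hx, if_pos rfl, smul_eq_mul, mul_one]
      · intro l _ hl
        rw [map_smul, LinearMap.smul_apply, hx, if_neg hl, smul_zero]
      · intro h
        exact absurd (Finset.mem_univ j) h
    simp only [h1]
    exact (x.sum_repr z).symm
  have hanti : ∀ i j, killingForm k K ⁅x i, y⁆ (x j) = -killingForm k K ⁅x j, y⁆ (x i) := by
    intro i j
    have h1 : killingForm k K ⁅x i, y⁆ (x j) = killingForm k K (x i) ⁅y, x j⁆ :=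
      LieModule.traceForm_apply_lie_apply k K K (x i) y (x j)
    have h3 : killingForm k K (x i) ⁅y, x j⁆ = killingForm k K ⁅y, x j⁆ (x i) :=
      LieModule.traceForm_comm k K K _ _
    rw [h1, h3, ← lie_skew, map_neg, LinearMap.neg_apply]
  have hψb : ∀ i, ψ ⁅x i, y⁆ = ∑ j, killingForm k K ⁅x i, y⁆ (x j) • ψ (x j) := by
    intro i
    conv_lhs => rw [hrepr ⁅x i, y⁆]
    rw [map_sum]
    exact Finset.sum_congr rfl fun j _ => map_smul _ _ _
  have hcomm : ∀ i, ψ (x i) * ψ (x i) * ψ y - ψ y * (ψ (x i) * ψ (x i)) =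
      ψ (x i) * ψ ⁅x i, y⁆ + ψ ⁅x i, y⁆ * ψ (x i) := by
    intro i
    rw [hψ]
    noncomm_ring
  rw [← sub_eq_zero, Finset.sum_mul, Finset.mul_sum, ← Finset.sum_sub_distrib]
  have h4 : ∀ i, ψ (x i) * ψ (x i) * ψ y - ψ y * (ψ (x i) * ψ (x i)) =
      ∑ j, killingForm k K ⁅x i, y⁆ (x j) • (ψ (x i) * ψ (x j)) +
        ∑ j, killingForm k K ⁅x i, y⁆ (x j) • (ψ (x j) * ψ (x i)) := by
    intro i
    rw [hcomm, hψb, Finset.mul_sum, Finset.sum_mul]
    congr 1
    · exact Finset.sum_congr rfl fun j _ => mul_smul_comm _ _ _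
    · exact Finset.sum_congr rfl fun j _ => smul_mul_assoc _ _ _
  rw [Finset.sum_congr rfl fun i _ => h4 i, Finset.sum_add_distrib]
  have h5 : ∑ i, ∑ j, killingForm k K ⁅x i, y⁆ (x j) • (ψ (x j) * ψ (x i)) =
      -∑ i, ∑ j, killingForm k K ⁅x i, y⁆ (x j) • (ψ (x i) * ψ (x j)) := by
    rw [Finset.sum_comm, ← Finset.sum_neg_distrib]
    refine Finset.sum_congr rfl fun i _ => ?_
    rw [← Finset.sum_neg_distrib]
    refine Finset.sum_congr rfl fun j _ => ?_
    rw [hanti j i, neg_smul]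
  rw [h5, add_neg_cancel]

end Pool.Agent.SkH
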