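import Pool.Agent.Lib.SkG.Cnt

/-!
# Module Indep: no quadratic relation (a consequence of the dimension count `cnt`)

Let `B = adjoin (θ '' D)`.  As in the proof of `Pool.Agent.SkG.cnt` (with a basis of `D` followed by the family `y`, which is a basis of a complement of `D`
by `hspan`, `hN`): the linear map `Φ : ((Fin N → Fin p) → B) →ₗ A`, `(b_ε) ↦ Σ_ε b_ε * E (θ ∘ y) ε` has range containing `adjoin (range θ)` (`span_E` and
`E (append) = E * E`).  Its source has dimension `p^N * finrank B ≤ finrank (adjoin (range θ)) ≤ finrank (range Φ)` (`hdim`), so `Φ` is injective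
(`LinearMap.ker_eq_bot` by rank-nullity).  The relation `h0` says `Φ u = 0` for `u (2 δ_i) = c_i • 1`, `u (δ_i) = a_i`, `u 0 = b` and `u = 0` elsewhere (`p ≥ 3`;
`E (θ ∘ y) (2 δ_i) = θ (y i) ^ 2`, `E (θ ∘ y) (δ_i) = θ (y i)`, `E _ 0 = 1`: the other factors of the list product are `x^0 = 1`;
e.g. `Pi.single i m`, induction on `N` with `List.ofFn_succ`, or `List.prod_ofFn`-type lemmas).  So `c_i • 1 = 0` in `B`, and `1 ≠ 0` by `hpos`.
-/

namespace Pool.Agent.SkH

open Module Pool.Agent.SkG
open Pool.Agent.SkS (Irr Nondeg rs fs InR NoTor AbOne RedData)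

private lemma E_succ' {A : Type} [Ring A] {p n : ℕ} (x : Fin (n + 1) → A)
    (ε : Fin (n + 1) → Fin p) :
    E x ε = x 0 ^ (ε 0 : ℕ) * E (fun i => x i.succ) (fun i => ε i.succ) := by
  unfold E
  rw [List.ofFn_succ, List.prod_cons]

private lemma E_zero {A : Type} [Ring A] {p : ℕ} (z : Fin p) (hz : (z : ℕ) = 0) :
    ∀ (n : ℕ) (x : Fin n → A), E x (fun _ => z) = 1 := by
  intro n
  induction n with
  | zero => intro x; simp [E]
  | succ n ih => intro x; rw [E_succ', ih, hz, pow_zero, mul_one]

private lemma E_one {A : Type} [Ring A] {p : ℕ} (z m : Fin p) (hz : (z : ℕ) = 0) :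
    ∀ (n : ℕ) (x : Fin n → A) (i : Fin n),
      E x (fun j => if j = i then m else z) = x i ^ (m : ℕ) := by
  intro n
  induction n with
  | zero => intro x i; exact i.elim0
  | succ n ih =>
    intro x i
    rw [E_succ']
    refine Fin.cases ?_ (fun i' => ?_) i
    · have h1 : (fun j : Fin n => if j.succ = 0 then m else z) = fun _ => z := by
        funext j
        rw [if_neg (Fin.succ_ne_zero j)]
      rw [h1, E_zero z hz, if_pos rfl, mul_one]
    · have h1 : (fun j : Fin n => if j.succ = i'.succ then m else z) =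
          fun j => if j = i' then m else z := by
        funext j
        simp only [Fin.succ_inj]
      rw [h1, ih, if_neg (Fin.succ_ne_zero i').symm, hz, pow_zero, one_mul]

private lemma E_add' {A : Type} [Ring A] {p d s : ℕ} (x : Fin (d + s) → A)
    (ε : Fin (d + s) → Fin p) :
    E x ε = E (fun i => x (Fin.castAdd s i)) (fun i => ε (Fin.castAdd s i)) *
      E (fun i => x (Fin.natAdd d i)) (fun i => ε (Fin.natAdd d i)) := by
  unfold E
  rw [List.ofFn_add, List.prod_append]
  rfl

private lemma E_mem' {k A : Type} [Field k] [Ring A] [Algebra k A] {p n : ℕ} (x : Fin n → A)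
    (ε : Fin n → Fin p) (S : Subalgebra k A) (hx : ∀ i, x i ∈ S) : E x ε ∈ S := by
  unfold E
  apply Subalgebra.list_prod_mem
  intro a ha
  rw [List.mem_ofFn] at ha
  obtain ⟨i, rfl⟩ := ha
  exact S.pow_mem (hx i) _

variable {k L : Type} [Field k] {p : ℕ} [Fact p.Prime] [LieRing L] [LieAlgebra k L]
  [FiniteDimensional k L]

theorem no_quad (hp2 : p ≠ 2) {A : Type} [Ring A] [Algebra k A] [FiniteDimensional k A]
    {f : L → L} {χ : Dual k L} (θ : L →ₗ[k] A) (hθ : Rep p f χ θ) (D : Submodule k L) (N : ℕ)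
    (y : Fin N → L) (hspan : D ⊔ Submodule.span k (Set.range y) = ⊤)
    (hN : finrank k D + N = finrank k L)
    (hdim : finrank k (Algebra.adjoin k (θ '' (D : Set L))) * p ^ N ≤
      finrank k (Algebra.adjoin k (Set.range θ)))
    (hpos : Nontrivial A) (c : Fin N → k) (a : Fin N → A) (b : A)
    (ha : ∀ i, a i ∈ Algebra.adjoin k (θ '' (D : Set L)))
    (hb : b ∈ Algebra.adjoin k (θ '' (D : Set L)))
    (h0 : ∑ i, c i • (θ (y i) * θ (y i)) + ∑ i, a i * θ (y i) + b = 0) (i : Fin N) : c i = 0 := by
  classical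
  have hp3 : 3 ≤ p := by
    have := (Fact.out : p.Prime).two_le
    omega
  set B := Algebra.adjoin k (θ '' (D : Set L)) with hB
  let x := Module.finBasis k D
  have hsp : Submodule.span k (Set.range (Fin.append (fun i => (x i : L)) y)) = ⊤ := by
    rw [eq_top_iff, ← hspan]
    apply sup_le
    · intro v hv
      have h1 := x.mem_span ⟨v, hv⟩
      have h2 := Submodule.mem_map_of_mem (f := D.subtype) h1
      rw [Submodule.map_span] at h2
      refine Submodule.span_mono ?_ h2
      rintro _ ⟨_, ⟨i, rfl⟩, rfl⟩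
      exact ⟨Fin.castAdd N i, by simp⟩
    · apply Submodule.span_mono
      rintro _ ⟨i, rfl⟩
      exact ⟨Fin.natAdd _ i, by simp⟩
  have h1 := span_E θ hθ _ hsp
  let Φ : ((Fin N → Fin p) → B) →ₗ[k] A :=
    ∑ δ : Fin N → Fin p,
      (LinearMap.mulRight k (E (fun j => θ (y j)) δ)) ∘ₗ
        ((Subalgebra.toSubmodule B).subtype ∘ₗ (LinearMap.proj δ))
  have hΦ : ∀ (δ : Fin N → Fin p) (u : B), Φ (Pi.single δ u) = (u : A) * E (fun j => θ (y j)) δ := by
    intro δ u
    simp only [Φ, LinearMap.coe_sum, Finset.sum_apply, LinearMap.comp_apply, LinearMap.proj_apply]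
    rw [Finset.sum_eq_single δ]
    · simp
    · intro b _ hb
      rw [Pi.single_eq_of_ne hb]
      simp
    · intro h
      exact absurd (Finset.mem_univ _) h
  have h2 : Subalgebra.toSubmodule (Algebra.adjoin k (Set.range θ)) ≤ LinearMap.range Φ := by
    refine h1.trans ?_
    rw [Submodule.span_le]
    rintro _ ⟨ε, rfl⟩
    have hmem : E (fun i => θ ((Fin.append (fun i => (x i : L)) y)
        (Fin.castAdd N i))) (fun i => ε (Fin.castAdd N i)) ∈ B := by
      apply E_mem'
      intro i
      apply Algebra.subset_adjoin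
      refine ⟨x i, (x i).2, ?_⟩
      simp
    refine ⟨Pi.single (fun j => ε (Fin.natAdd (finrank k D) j)) ⟨_, hmem⟩, ?_⟩
    rw [hΦ, E_add']
    simp
  have h3 : finrank k (Algebra.adjoin k (Set.range θ)) ≤ finrank k (LinearMap.range Φ) :=
    Submodule.finrank_mono h2
  have h5 : finrank k ((Fin N → Fin p) → B) = p ^ N * finrank k B := by
    rw [Module.finrank_pi_fintype]
    simp
  have h6 := LinearMap.finrank_range_add_finrank_ker Φ
  have h7 : finrank k (LinearMap.ker Φ) = 0 := by
    rw [h5, mul_comm] at h6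
    omega
  have hinj : ∀ u, Φ u = 0 → u = 0 := by
    intro u hu
    have h8 : LinearMap.ker Φ = ⊥ := Submodule.finrank_eq_zero.mp h7
    have h9 : u ∈ LinearMap.ker Φ := hu
    rw [h8] at h9
    exact h9
  -- the exponents
  let m0 : Fin p := ⟨0, by omega⟩
  let m1 : Fin p := ⟨1, by omega⟩
  let m2 : Fin p := ⟨2, by omega⟩
  have m01 : m0 ≠ m1 := by
    intro h
    have := congrArg Fin.val h
    simp only [m0, m1] at this
    omega
  have m02 : m0 ≠ m2 := by
    intro h
    have := congrArg Fin.val h
    simp only [m0, m2] at this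
    omega
  have m12 : m1 ≠ m2 := by
    intro h
    have := congrArg Fin.val h
    simp only [m1, m2] at this
    omega
  let δ (m : Fin p) (i : Fin N) : Fin N → Fin p := fun j => if j = i then m else m0
  let u : (Fin N → Fin p) → B :=
    ∑ i, Pi.single (δ m2 i) (c i • (1 : B)) + ∑ i, Pi.single (δ m1 i) (⟨a i, ha i⟩ : B) +
      Pi.single (fun _ => m0) (⟨b, hb⟩ : B)
  have hu : Φ u = 0 := by
    rw [← h0]
    simp only [u, map_add, map_sum, hΦ]
    rw [E_zero m0 rfl, mul_one]
    refine congrArg₂ (· + ·) (congrArg₂ (· + ·) ?_ ?_) rfl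
    · refine Finset.sum_congr rfl (fun i _ => ?_)
      rw [E_one m0 m2 rfl]
      simp only [m2, pow_two]
      simp
    · refine Finset.sum_congr rfl (fun i _ => ?_)
      rw [E_one m0 m1 rfl]
      simp only [m1, pow_one]
  have hu0 := congrFun (hinj u hu) (δ m2 i)
  have e1 : ∀ j, (Pi.single (δ m2 j) (c j • (1 : B)) : (Fin N → Fin p) → B) (δ m2 i) =
      if j = i then c i • (1 : B) else 0 := by
    intro j
    by_cases hji : j = i
    · subst hji
      rw [if_pos rfl, Pi.single_eq_same]
    · rw [if_neg hji, Pi.single_eq_of_ne]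
      intro h
      have := congrFun h i
      simp only [δ, if_pos rfl] at this
      rw [if_neg (fun h => hji h.symm)] at this
      exact m02 this.symm
  have e2 : ∀ j, (Pi.single (δ m1 j) (⟨a j, ha j⟩ : B) : (Fin N → Fin p) → B) (δ m2 i) = 0 := by
    intro j
    rw [Pi.single_eq_of_ne]
    intro h
    have := congrFun h i
    simp only [δ, if_pos rfl] at this
    by_cases hji : i = j
    · rw [if_pos hji] at this
      exact m12 this.symm
    · rw [if_neg hji] at this
      exact m02 this.symm
  have e3 : (Pi.single (fun _ => m0) (⟨b, hb⟩ : B) : (Fin N → Fin p) → B) (δ m2 i) = 0 := by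
    rw [Pi.single_eq_of_ne]
    intro h
    have := congrFun h i
    simp only [δ, if_pos rfl] at this
    exact m02 this.symm
  simp only [u, Pi.add_apply, Finset.sum_apply, e1, e2, e3] at hu0
  rw [Finset.sum_ite_eq' Finset.univ i, if_pos (Finset.mem_univ _), Finset.sum_const_zero,
    add_zero, add_zero] at hu0
  have hBn : Nontrivial B := inferInstance
  have h10 : c i • (1 : B) = 0 := hu0
  rcases smul_eq_zero.mp h10 with h | h
  · exact h
  · exact absurd h one_ne_zero

end Pool.Agent.SkH
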