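import Pool.Agent.Lib.SkH.Cas
import Pool.Agent.Lib.SkH.Indep
import Pool.Agent.Lib.SkG.BC
import Pool.Agent.Lib.SkS.Burn

/-!
# Module CaseA: Lie algebras with nondegenerate Killing form

`caseA_nondeg`: `χ = κ (x, ·)` for some `x` (`κ` nondegenerate); `χ ⁅x, y⁆ = κ x ⁅x, y⁆ = κ ⁅x, x⁆ y = 0`, so `x = 0` by `Nondeg`, so `χ = 0`, so every `y` is `0`.
`caseA_irr`: suppose `n = finrank k L > 0`.  `x` from `exists_casimir`, `ψ = ρ`: `C = Σ ρ(x_i) ρ(x_i)` commutes with `ρ L`, so `C = λ` is a scalar (`SkS.schur`).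
`adjoin (range ρ) = ⊤` (`SkS.burnside`), `finrank (End V) = (finrank V)^2 ≥ p^n`.  `no_quad` with `D = ⊥` (`adjoin (ρ '' {0}) = ⊥` has dimension one), `N = n`, `y = x`, `c = 1`, `a = 0`,
`b = -λ`: contradiction `1 = 0`.  `(2 : k) ≠ 0` from `p ≠ 2` (`CharP k p`, `CharP.cast_eq_zero_iff`).
-/

namespace Pool.Agent.SkH

open Module Pool.Agent.SkG
open Pool.Agent.SkS (Irr Nondeg rs fs InR NoTor AbOne RedData)

variable {k L V : Type} [Field k] {p : ℕ} [Fact p.Prime] [CharP k p] [LieRing L] [LieAlgebra k L]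
  [AddCommGroup V] [Module k V] [FiniteDimensional k V] [FiniteDimensional k L]

omit [Fact p.Prime] [CharP k p] in
theorem caseA_nondeg (hK : LieAlgebra.IsKilling k L) {χ : Dual k L} (h : Nondeg χ) :
    finrank k L = 0 := by
  have hnd := LieAlgebra.IsKilling.killingForm_nondegenerate k L
  obtain ⟨x, hx⟩ : ∃ x : L, ∀ y, killingForm k L x y = χ y := by
    refine ⟨((killingForm k L).toDual hnd).symm χ, fun y => ?_⟩
    rw [← LinearMap.BilinForm.toDual_def hnd, LinearEquiv.apply_symm_apply]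
  have hx0 : x = 0 := h x (fun y => by
    rw [← hx, ← LieModule.traceForm_apply_lie_apply, lie_self, map_zero, LinearMap.zero_apply])
  have hχ : ∀ y, χ y = 0 := by
    intro y
    rw [← hx, hx0, map_zero, LinearMap.zero_apply]
  rw [Module.finrank_zero_iff]
  refine ⟨fun a b => ?_⟩
  rw [h a (fun y => hχ _), h b (fun y => hχ _)]

theorem caseA_irr [IsAlgClosed k] (hp2 : p ≠ 2) (hK : LieAlgebra.IsKilling k L) {f : L → L}
    {χ : Dual k L} (ρ : L →ₗ[k] End k V) (hρ : Rep p f χ ρ) (h : Irr ρ)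
    (hd : p ^ finrank k L ≤ finrank k V ^ 2) : finrank k L = 0 := by
  have hp : p.Prime := Fact.out
  have h2 : (2 : k) ≠ 0 := by
    intro h0
    have h1 : ((2 : ℕ) : k) = 0 := by exact_mod_cast h0
    rw [CharP.cast_eq_zero_iff k p] at h1
    exact hp2 ((Nat.prime_dvd_prime_iff_eq hp Nat.prime_two).mp h1)
  by_contra hn
  have hVnt : Nontrivial V := h.1
  obtain ⟨x, hx⟩ := exists_casimir h2 hK
  obtain ⟨c, hc⟩ := Pool.Agent.SkS.schur ρ h (∑ i, ρ (x i) * ρ (x i))
    (hx (End k V) ρ hρ.lie)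
  have hfin : finrank k (Algebra.adjoin k (ρ '' ((⊥ : Submodule k L) : Set L))) = 1 := by
    have h1 : Algebra.adjoin k (ρ '' ((⊥ : Submodule k L) : Set L)) = ⊥ := by
      rw [eq_bot_iff, Algebra.adjoin_le_iff]
      rintro _ ⟨y, hy, rfl⟩
      rw [SetLike.mem_coe, Submodule.mem_bot] at hy
      rw [hy, map_zero]
      exact Subalgebra.zero_mem _
    rw [h1]
    exact Subalgebra.finrank_bot
  have hfull : finrank k (Algebra.adjoin k (Set.range ρ)) = finrank k V ^ 2 := by
    rw [Pool.Agent.SkS.burnside ρ h, subalgebra_top_finrank_eq_submodule_top_finrank,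
      finrank_top, sq]
    exact Module.finrank_linearMap k k V V
  have h3 := no_quad hp2 ρ hρ ⊥ (finrank k L) x
    (by rw [x.span_eq, bot_sup_eq]) (by rw [finrank_bot, Nat.zero_add])
    (by rw [hfin, one_mul, hfull]; exact hd) inferInstance (fun _ => 1) (fun _ => 0)
    (-algebraMap k (End k V) c) (fun _ => Subalgebra.zero_mem _)
    (Subalgebra.neg_mem _ (Subalgebra.algebraMap_mem _ _))
    (by simp only [one_smul, zero_mul, Finset.sum_const_zero, add_zero]
        rw [hc, add_neg_cancel]) ⟨0, Nat.pos_of_ne_zero hn⟩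
  exact one_ne_zero h3

end Pool.Agent.SkH
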