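import Pool.Agent.Lib.SkG.Defs

/-!
# Part 3: the sections condition and the class of Lie algebras

`HG p k L`: for every section `P` of `L` (a quotient `π : M ↠ P` of a subalgebra `M`) and every ideal `N` of `P` that contains no nonzero abelian ideal of `P`:
`N` is zero, or odd dimensional, or `p ≠ 2` and the Killing form of `N` is nondegenerate.
-/

namespace Pool.Agent.SkH

open Module Pool.Agent.SkG
open Pool.Agent.SkS (Irr Nondeg rs fs InR NoTor AbOne RedData)

/-- `N` contains no nonzero abelian ideal of `P` -/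
def NoAb (k : Type) {P : Type} [Field k] [LieRing P] [LieAlgebra k P] (N : LieIdeal k P) : Prop :=
  ∀ A : LieIdeal k P, A ≤ N → (∀ x ∈ A, ∀ y ∈ A, ⁅x, y⁆ = 0) → A = ⊥

/-- the condition on sections -/
def HG (p : ℕ) (k L : Type) [Field k] [LieRing L] [LieAlgebra k L] : Prop :=
  ∀ (M : LieSubalgebra k L) (P : Type) [LieRing P] [LieAlgebra k P] (π : M →ₗ⁅k⁆ P),
    Function.Surjective π → ∀ N : LieIdeal k P, NoAb k N →
      N = ⊥ ∨ Odd (finrank k N) ∨ (p ≠ 2 ∧ LieAlgebra.IsKilling k N)

/-- the factors of the class: dimension at most three (`p` odd) or small dimension -/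
def SmallAlg (p : ℕ) (k S : Type) [Field k] [LieRing S] [LieAlgebra k S] : Prop :=
  FiniteDimensional k S ∧ ((p ≠ 2 ∧ finrank k S ≤ 3) ∨ 6 ^ finrank k S < p)

/-- every subalgebra has a solvable ideal modulo which the Killing form is nondegenerate -/
def HR (k L : Type) [Field k] [LieRing L] [LieAlgebra k L] : Prop :=
  ∀ (M : LieSubalgebra k L), ∃ (Q : Type) (_ : LieRing Q) (_ : LieAlgebra k Q)
    (π : M →ₗ⁅k⁆ Q), Function.Surjective π ∧ LieAlgebra.IsSolvable π.ker ∧
      FiniteDimensional k Q ∧ LieAlgebra.IsKilling k Q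

section

variable {k L : Type} [Field k] [LieRing L] [LieAlgebra k L]

/-- the centraliser of `z` as a Lie subalgebra -/
def cz (z : L) : LieSubalgebra k L where
  carrier := {x | ⁅x, z⁆ = 0}
  add_mem' := by
    intro a b ha hb
    have ha' : ⁅a, z⁆ = 0 := ha
    have hb' : ⁅b, z⁆ = 0 := hb
    change ⁅a + b, z⁆ = 0
    rw [add_lie, ha', hb', add_zero]
  zero_mem' := by simp
  smul_mem' := by
    intro c a ha
    have ha' : ⁅a, z⁆ = 0 := ha
    change ⁅c • a, z⁆ = 0
    rw [smul_lie, ha', smul_zero]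
  lie_mem' := by
    intro x y hx hy
    have hx' : ⁅x, z⁆ = 0 := hx
    have hy' : ⁅y, z⁆ = 0 := hy
    change ⁅⁅x, y⁆, z⁆ = 0
    rw [lie_lie, hx', hy', lie_zero, lie_zero, sub_zero]

theorem mem_cz (z x : L) : x ∈ (cz z : LieSubalgebra k L) ↔ ⁅x, z⁆ = 0 := Iff.rfl

/-- the Killing quotient datum of the Heisenberg configuration: `K` is (isomorphic to) `C(z) / H` -/
structure KQ (z : L) (H : LieIdeal k L) (K : Type) [LieRing K] [LieAlgebra k K] where
  π : (cz z : LieSubalgebra k L) →ₗ⁅k⁆ K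
  surj : Function.Surjective π
  ker : ∀ x, π x = 0 ↔ (x : L) ∈ H

end

end Pool.Agent.SkH
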