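import Pool.Agent.Lib.SkG.BC
import Pool.Agent.Lib.SkH.Defs

/-!
# Module Zsp: an irreducible `C(z)`-submodule of `{v : ρ z v = v}` (from SkG/TorII)
-/

namespace Pool.Agent.SkH

open Module Pool.Agent.SkG
open Pool.Agent.SkS (Irr Nondeg rs fs InR NoTor AbOne RedData rs_apply exists_irr)

section

variable {k L : Type} [Field k] [LieRing L] [LieAlgebra k L] [FiniteDimensional k L]

theorem finrank_cz {f : L → L} {χ : Dual k L} {z : L} {H : LieIdeal k L}
    (hc : Cfg f χ z H) : finrank k (cz z : LieSubalgebra k L) + 1 = finrank k L := by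
  let μ : L →ₗ[k] k :=
    { toFun := fun y => χ ⁅y, z⁆
      map_add' := by intro x y; rw [add_lie, map_add]
      map_smul' := by intro c x; rw [smul_lie, map_smul, RingHom.id_apply] }
  have hker : LinearMap.ker μ = (cz z : LieSubalgebra k L).toSubmodule := by
    ext y
    rw [LinearMap.mem_ker]
    change χ ⁅y, z⁆ = 0 ↔ ⁅y, z⁆ = 0
    constructor
    · intro h
      obtain ⟨c, hcz⟩ := hc.eig y
      rw [hcz, map_smul, hc.χz, smul_eq_mul, mul_one] at h
      rw [hcz, h, zero_smul]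
    · intro h
      rw [h, map_zero]
  have hrange : LinearMap.range μ = ⊤ := by
    rw [LinearMap.range_eq_top]
    obtain ⟨T, hT⟩ := hc.ex_T
    intro c
    refine ⟨c • T, ?_⟩
    change χ ⁅c • T, z⁆ = c
    rw [smul_lie, hT, map_smul, hc.χz, smul_eq_mul, mul_one]
  have h1 := LinearMap.finrank_range_add_finrank_ker μ
  rw [hrange, finrank_top, finrank_self, hker] at h1
  have h2 : finrank k (cz z : LieSubalgebra k L).toSubmodule =
    finrank k (cz z : LieSubalgebra k L) := rfl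
  omega

end

section

variable {k L V : Type} [Field k] {p : ℕ} [Fact p.Prime] [LieRing L] [LieAlgebra k L]
  [AddCommGroup V] [Module k V] [FiniteDimensional k V] [FiniteDimensional k L]

omit [FiniteDimensional k L] in
theorem cz_f {f : L → L} (hf : Rst p k f) (z : L) : ∀ x ∈ (cz z : LieSubalgebra k L),
    f x ∈ (cz z : LieSubalgebra k L) := by
  intro x hx
  have hx' : ⁅x, z⁆ = 0 := hx
  change ⁅f x, z⁆ = 0
  obtain ⟨q, hq⟩ : ∃ q, p = q + 1 := ⟨p - 1, by have := (Fact.out : p.Prime).pos; omega⟩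
  rw [hf.ad, hq, Function.iterate_succ_apply]
  simp only [hx']
  exact Function.iterate_fixed (lie_zero x) q

/-- the ideal `H` as a Lie subalgebra of `L` -/
private def HL (H : LieIdeal k L) : LieSubalgebra k L where
  carrier := {x | x ∈ H}
  add_mem' := fun ha hb => H.add_mem ha hb
  zero_mem' := H.zero_mem
  smul_mem' := fun c _ ha => H.smul_mem c ha
  lie_mem' := fun {x y} _ hy => lie_mem_right k L H x y hy

/-- `finrank (adjoin (σ H)) ≤ p^{dim H - 1}` if `z` acts as `1` -/
theorem finrank_adjoin_H {f : L → L} {χ : Dual k L} {z : L} {H : LieIdeal k L}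
    (hc : Cfg f χ z H) (ρ : L →ₗ[k] End k V) (hρ : Rep p f χ ρ) (W : Submodule k V)
    (hW : ∀ x ∈ (cz z : LieSubalgebra k L), ∀ w ∈ W, ρ x w ∈ W) (hWz : ∀ w ∈ W, ρ z w = w) :
    finrank k (Algebra.adjoin k (rs ρ (cz z) W hW ''
      {x : (cz z : LieSubalgebra k L) | (x : L) ∈ H})) ≤ p ^ (finrank k H - 1) := by
  classical
  have hHL : ∀ x ∈ (HL H : LieSubalgebra k L), x ∈ (cz z : LieSubalgebra k L) :=
    fun x hx => hc.H_cent x hx
  have hW' : ∀ x ∈ (HL H : LieSubalgebra k L), ∀ w ∈ W, ρ x w ∈ W :=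
    fun x hx => hW x (hHL x hx)
  have hfH : ∀ x ∈ (HL H : LieSubalgebra k L), f x ∈ (HL H : LieSubalgebra k L) := by
    intro x hx
    obtain ⟨c, hcc⟩ := hc.f_mem x hx
    rw [hcc]
    exact H.smul_mem c hc.z_mem
  have hrep := rep_rs ρ hρ (HL H) hfH W hW'
  let D : Submodule k (HL H : LieSubalgebra k L) := Submodule.span k {⟨z, hc.z_mem⟩}
  have h1 := cnt (rs ρ (HL H) W hW') hrep D
  have hset : rs ρ (cz z) W hW '' {x : (cz z : LieSubalgebra k L) | (x : L) ∈ H} =
      Set.range (rs ρ (HL H) W hW') := by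
    ext a
    constructor
    · rintro ⟨x, hx, rfl⟩
      exact ⟨⟨x, hx⟩, rfl⟩
    · rintro ⟨x, rfl⟩
      exact ⟨⟨x, hHL x x.2⟩, x.2, rfl⟩
  rw [hset]
  have hD1 : finrank k D = 1 := by
    apply finrank_span_singleton
    intro h0
    exact hc.z_ne (congrArg Subtype.val h0)
  have hbot : Algebra.adjoin k ((rs ρ (HL H) W hW') '' (D : Set _)) ≤ ⊥ := by
    apply Algebra.adjoin_le
    rintro _ ⟨x, hx, rfl⟩
    have hx' : x ∈ Submodule.span k {(⟨z, hc.z_mem⟩ : (HL H : LieSubalgebra k L))} := hx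
    obtain ⟨c, rfl⟩ := Submodule.mem_span_singleton.mp hx'
    rw [map_smul]
    have h2 : rs ρ (HL H) W hW' ⟨z, hc.z_mem⟩ = 1 := by
      ext w
      rw [rs_apply]
      exact hWz w w.2
    rw [h2]
    exact (⊥ : Subalgebra k (End k W)).smul_mem (Subalgebra.one_mem _) c
  have h3 : finrank k (Algebra.adjoin k ((rs ρ (HL H) W hW') '' (D : Set _))) ≤ 1 := by
    rw [le_bot_iff.mp hbot]
    by_cases hW0 : Nontrivial W
    · rw [Subalgebra.finrank_bot]
    · rw [not_nontrivial_iff_subsingleton] at hW0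
      have : finrank k (⊥ : Subalgebra k (End k W)) = 0 := finrank_zero_of_subsingleton
      omega
  rw [hD1] at h1
  have h4 : finrank k (HL H : LieSubalgebra k L) = finrank k H := rfl
  rw [h4] at h1
  calc _ ≤ _ := h1
    _ ≤ 1 * p ^ (finrank k H - 1) := Nat.mul_le_mul_right _ h3
    _ = _ := one_mul _

end

variable {k L V : Type} [Field k] {p : ℕ} [Fact p.Prime] [CharP k p] [LieRing L]
  [LieAlgebra k L] [AddCommGroup V] [Module k V] [FiniteDimensional k V] [FiniteDimensional k L]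

theorem zspace {f : L → L} {χ : Dual k L} (ρ : L →ₗ[k] End k V)
    (hρ : Rep p f χ ρ) (h : Irr ρ) (hd : p ^ finrank k L ≤ finrank k V ^ 2) {z : L}
    {H : LieIdeal k L} (hc : Cfg f χ z H) :
    ∃ (W : Submodule k V) (hW : ∀ x ∈ (cz z : LieSubalgebra k L), ∀ w ∈ W, ρ x w ∈ W),
      Irr (rs ρ (cz z) W hW) ∧ (∀ w ∈ W, ρ z w = w) ∧
        p ^ (finrank k (cz z : LieSubalgebra k L) - 1) ≤ finrank k W ^ 2 := by
  have hVnt : Nontrivial V := h.1
  have hp : p.Prime := Fact.out
  -- the subspace `Vz`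
  let Vz : Submodule k V := LinearMap.ker (ρ z - 1)
  have hVzmem : ∀ v, v ∈ Vz ↔ ρ z v = v := by
    intro v
    rw [LinearMap.mem_ker, LinearMap.sub_apply, Module.End.one_apply, sub_eq_zero]
  have hVz : ∀ x ∈ (cz z : LieSubalgebra k L), ∀ v ∈ Vz, ρ x v ∈ Vz := by
    intro x hx v hv
    rw [hVzmem] at hv ⊢
    have h1 := hρ.lie x z
    have hx' : ⁅x, z⁆ = 0 := hx
    rw [hx', map_zero] at h1
    have h3 := congrArg (fun a : End k V => a v) h1
    simp only [LinearMap.zero_apply, LinearMap.sub_apply, Module.End.mul_apply] at h3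
    rw [hv] at h3
    exact (sub_eq_zero.mp h3.symm).symm
  have hchar : CharP (End k V) p :=
    charP_of_injective_algebraMap (algebraMap k (End k V)).injective p
  have hzz : (ρ z - 1) ^ p = 0 := by
    have h1 := hρ.pow z
    rw [hc.fz, map_zero, hc.χz, one_pow, map_one, zero_add] at h1
    rw [sub_pow_char_of_commute p (Commute.one_right (ρ z)), h1, one_pow, sub_self]
  have hVz0 : Vz ≠ ⊥ := by
    intro hbot
    have hinj : Function.Injective ⇑((ρ z - 1 : End k V)) := LinearMap.ker_eq_bot.mp hbot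
    obtain ⟨v, hv⟩ := exists_ne (0 : V)
    have h1 : ∀ n : ℕ, Function.Injective ⇑((ρ z - 1 : End k V) ^ n) := by
      intro n
      rw [Module.End.coe_pow]
      exact hinj.iterate n
    apply hv
    apply h1 p
    rw [hzz, map_zero]
    rfl
  obtain ⟨W, hW, hWVz, hW0, hirr⟩ := exists_irr ρ (cz z) Vz hVz0 hVz
  refine ⟨W, hW, hirr, fun w hw => (hVzmem w).mp (hWVz hw), ?_⟩
  have h1 := gen_irr ρ hρ h (cz z : LieSubalgebra k L).toSubmodule W hW0 hW
  have h2 := finrank_cz hc
  have h3 : finrank k (cz z : LieSubalgebra k L).toSubmodule =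
    finrank k (cz z : LieSubalgebra k L) := rfl
  rw [h3, show finrank k L - finrank k (cz z : LieSubalgebra k L) = 1 by omega, pow_one] at h1
  have h4 : 1 ≤ finrank k (cz z : LieSubalgebra k L) := by
    have : Nontrivial (cz z : LieSubalgebra k L) :=
      ⟨⟨⟨z, hc.H_cent z hc.z_mem⟩, 0, fun h0 => hc.z_ne (congrArg Subtype.val h0)⟩⟩
    exact finrank_pos
  have h5 : p ^ 2 * p ^ (finrank k (cz z : LieSubalgebra k L) - 1) ≤ p ^ 2 * finrank k W ^ 2 := by
    calc p ^ 2 * p ^ (finrank k (cz z : LieSubalgebra k L) - 1) = p ^ finrank k L := by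
          rw [← pow_add]
          congr 1
          omega
      _ ≤ finrank k V ^ 2 := hd
      _ ≤ (p * finrank k W) ^ 2 := Nat.pow_le_pow_left h1 2
      _ = p ^ 2 * finrank k W ^ 2 := mul_pow _ _ _
  exact Nat.le_of_mul_le_mul_left h5 (by have := hp.pos; positivity)

end Pool.Agent.SkH
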