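import Pool.Agent.Lib.SkH.Psi
import Pool.Agent.Lib.SkH.Cas
import Pool.Agent.Lib.SkH.Indep
import Pool.Agent.Lib.SkH.Zsp
import Pool.Agent.Lib.SkS.Burn

/-!
# Module CaseBi: `C(z)/H` with nondegenerate Killing form, irreducible representation of dimension `≥ p^{n/2}`

`W` from `zspace`, `σ = rs ρ (cz z) W hW` (`rep_rs` gives `Rep p (fs f (cz z) _) _ σ`), `σ z = 1` (`rs_apply`).  `s, a` from `exists_psi`, `ψ x = σ (s x) + a x`, `x_i` from `exists_casimir`,
`C = Σ ψ(x_i) ψ(x_i)` commutes with `ψ K` and with `σ H`, hence with `adjoin (σ '' H)` and with every `σ w = ψ (π w) - a (π w) + σ (w - s (π w))`, `w - s (π w) ∈ H`.  So `C = λ` is a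
scalar (`schur σ hirr`).  With `B = adjoin (σ '' H)`: `ψ(x_i)^2 = σ(s x_i)^2 + 2 a_i σ(s x_i) + (σ(s x_i) a_i - a_i σ(s x_i)) + a_i^2`, and `[σ y, B] ⊆ B` (as `⁅y, H⁆ ⊆ H`; see `hyA` in SkG/TorII).
`no_quad` for `θ = σ`, `D = {w : (w : L) ∈ H}` (a submodule of `cz z`), `N = finrank K`, `y_i = s x_i`: `hspan` (`w - s (π w) ∈ D`), `hN` (rank-nullity for `D.π`: the kernel is `D`),
`hdim`: `finrank B ≤ p^{finrank H - 1}` (`finrank_adjoin_H`), `adjoin (range σ) = ⊤` (`burnside`), `finrank (End W) = (finrank W)^2 ≥ p^{finrank (cz z) - 1}`, `finrank (cz z) = finrank H + N`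
(`finrank D = finrank H`), `finrank H ≥ 1`.  `c = 1` gives `1 = 0` if `N > 0`.  So `N = 0`, `K = 0`, `π w = 0`, `w ∈ H`.
-/

namespace Pool.Agent.SkH

open Module Pool.Agent.SkG
open Pool.Agent.SkS (Irr Nondeg rs fs InR NoTor AbOne RedData rs_apply burnside schur)

variable {k L K V : Type} [Field k] {p : ℕ} [Fact p.Prime] [CharP k p] [LieRing L]
  [LieAlgebra k L] [FiniteDimensional k L] [LieRing K] [LieAlgebra k K] [FiniteDimensional k K]
  [AddCommGroup V] [Module k V] [FiniteDimensional k V]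

theorem caseB_irr [IsAlgClosed k] (hp2 : p ≠ 2) {f : L → L} (hf : Rst p k f) {χ : Dual k L}
    (ρ : L →ₗ[k] End k V) (hρ : Rep p f χ ρ) (h : Irr ρ)
    (hd : p ^ finrank k L ≤ finrank k V ^ 2) {z : L} {H : LieIdeal k L} (hc : Cfg f χ z H)
    (D : KQ z H K) (hK : LieAlgebra.IsKilling k K) (x : L) (hx : ⁅x, z⁆ = 0) : x ∈ H := by
  classical
  have hp : p.Prime := Fact.out
  have h2 : (2 : k) ≠ 0 := by
    intro h0
    have h1 : ((2 : ℕ) : k) = 0 := by exact_mod_cast h0
    rw [CharP.cast_eq_zero_iff k p] at h1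
    exact hp2 ((Nat.prime_dvd_prime_iff_eq hp Nat.prime_two).mp h1)
  obtain ⟨W, hW, hirr, hWz, hdW⟩ := zspace ρ hρ h hd hc
  have hWnt : Nontrivial W := hirr.1
  set σ := rs ρ (cz z) W hW with hσdef
  have hrep := rep_rs ρ hρ (cz z) (cz_f hf z) W hW
  have hσz : ∀ x : (cz z : LieSubalgebra k L), (x : L) = z → σ x = 1 := by
    intro x hx
    ext v
    rw [hσdef, rs_apply, hx]
    exact hWz v v.2
  obtain ⟨s, a, hs, ha, hbr, hcomm⟩ := exists_psi h2 hc D hK σ hrep.lie hσz
  obtain ⟨xb, hxb⟩ := exists_casimir h2 hK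
  let ψ : K →ₗ[k] End k W := σ ∘ₗ s + a
  have hψ : ∀ x, ψ x = σ (s x) + a x := fun _ => rfl
  set C : End k W := ∑ i, ψ (xb i) * ψ (xb i) with hC
  have hCψ : ∀ y, C * ψ y = ψ y * C := hxb (End k W) ψ hbr
  set B := Algebra.adjoin k (σ '' {w : (cz z : LieSubalgebra k L) | (w : L) ∈ H}) with hB
  have hψB : ∀ (x : K), ∀ b ∈ B, ψ x * b = b * ψ x := by
    intro x b hb
    induction hb using Algebra.adjoin_induction with
    | mem b hb =>
      obtain ⟨w, hw, rfl⟩ := hb
      exact hcomm x w hw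
    | algebraMap c => exact (Algebra.commutes c _).symm
    | add a b _ _ ha hb => rw [add_mul, mul_add, ha, hb]
    | mul a b _ _ ha hb => rw [mul_assoc, ← hb, ← mul_assoc, ha, mul_assoc]
  have hCB : ∀ b ∈ B, C * b = b * C := by
    intro b hb
    rw [hC, Finset.sum_mul, Finset.mul_sum]
    refine Finset.sum_congr rfl fun i _ => ?_
    rw [mul_assoc, hψB _ b hb, ← mul_assoc, hψB _ b hb, mul_assoc]
  have hH0 : ∀ w : (cz z : LieSubalgebra k L), ((w - s (D.π w) : (cz z : LieSubalgebra k L)) : L) ∈ H := by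
    intro w
    rw [← D.ker, map_sub, hs, sub_self]
  have hCσ : ∀ w, C * σ w = σ w * C := by
    intro w
    have e1 : σ w = ψ (D.π w) - a (D.π w) + σ (w - s (D.π w)) := by
      rw [hψ, map_sub]
      abel
    have e2 := hCB _ (ha (D.π w))
    have e3 := hCB _ (Algebra.subset_adjoin ⟨_, hH0 w, rfl⟩)
    rw [e1, mul_add, mul_sub, add_mul, sub_mul, hCψ, e2, e3]
  obtain ⟨lam, hlam⟩ := schur σ hirr C hCσ
  -- commutators with `B`
  have hyA : ∀ (y : (cz z : LieSubalgebra k L)), ∀ b ∈ B, σ y * b - b * σ y ∈ B := by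
    intro y b hb
    induction hb using Algebra.adjoin_induction with
    | mem b hb =>
      obtain ⟨w, hw, rfl⟩ := hb
      rw [← hrep.lie]
      exact Algebra.subset_adjoin ⟨⁅y, w⁆, lie_mem_right k L H y w hw, rfl⟩
    | algebraMap c =>
      rw [Algebra.commutes c (σ y), sub_self]
      exact B.zero_mem
    | add a b _ _ ha hb =>
      have : σ y * (a + b) - (a + b) * σ y = (σ y * a - a * σ y) + (σ y * b - b * σ y) := by
        rw [mul_add, add_mul]
        abel
      rw [this]
      exact B.add_mem ha hb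
    | mul a b ha' hb' ha hb =>
      have : σ y * (a * b) - a * b * σ y = (σ y * a - a * σ y) * b + a * (σ y * b - b * σ y) := by
        simp only [mul_sub, sub_mul, mul_assoc]
        abel
      rw [this]
      exact B.add_mem (B.mul_mem ha hb') (B.mul_mem ha' hb)
  -- the subspace `D0`
  let D0 : Submodule k (cz z : LieSubalgebra k L) :=
    { carrier := {w | (w : L) ∈ H}
      add_mem' := fun ha hb => H.add_mem ha hb
      zero_mem' := H.zero_mem
      smul_mem' := fun c _ ha => H.smul_mem c ha }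
  have hD0 : (D0 : Set (cz z : LieSubalgebra k L)) =
      {w : (cz z : LieSubalgebra k L) | (w : L) ∈ H} := rfl
  have hD0mem : ∀ w, w ∈ D0 ↔ (w : L) ∈ H := fun _ => Iff.rfl
  have hspan : D0 ⊔ Submodule.span k (Set.range (fun i => s (xb i))) = ⊤ := by
    rw [eq_top_iff]
    intro w _
    have e1 : w = (w - s (D.π w)) + s (D.π w) := by abel
    rw [e1]
    refine Submodule.add_mem_sup (hH0 w) ?_
    have e2 : D.π w ∈ Submodule.span k (Set.range xb) := xb.mem_span _
    have e3 := Submodule.mem_map_of_mem (f := s) e2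
    rw [Submodule.map_span, ← Set.range_comp] at e3
    exact e3
  have hD0dim : finrank k D0 = finrank k H := by
    have hle : (H : Submodule k L) ≤ (cz z : LieSubalgebra k L).toSubmodule :=
      fun x hx => hc.H_cent x hx
    exact LinearEquiv.finrank_eq (Submodule.comapSubtypeEquivOfLe hle)
  have hNdim : finrank k D0 + finrank k K = finrank k (cz z : LieSubalgebra k L) := by
    have e1 := LinearMap.finrank_range_add_finrank_ker
      (D.π : (cz z : LieSubalgebra k L) →ₗ[k] K)
    have e2 : LinearMap.range (D.π : (cz z : LieSubalgebra k L) →ₗ[k] K) = ⊤ :=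
      LinearMap.range_eq_top.mpr D.surj
    have e3 : LinearMap.ker (D.π : (cz z : LieSubalgebra k L) →ₗ[k] K) = D0 := by
      ext w
      rw [LinearMap.mem_ker]
      exact D.ker w
    rw [e2, finrank_top, e3] at e1
    omega
  have hH1 : 1 ≤ finrank k H := by
    have : Nontrivial H := ⟨⟨⟨z, hc.z_mem⟩, 0, fun h0 => hc.z_ne (congrArg Subtype.val h0)⟩⟩
    exact finrank_pos
  have hEnd : finrank k (End k W) = finrank k W ^ 2 := by
    rw [Module.finrank_linearMap, sq]
  have hdim : finrank k (Algebra.adjoin k (σ '' (D0 : Set (cz z : LieSubalgebra k L)))) *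
      p ^ finrank k K ≤ finrank k (Algebra.adjoin k (Set.range σ)) := by
    rw [burnside σ hirr, subalgebra_top_finrank_eq_submodule_top_finrank, finrank_top, hEnd]
    have e1 := finrank_adjoin_H hc ρ hρ W hW hWz
    calc _ ≤ p ^ (finrank k H - 1) * p ^ finrank k K := Nat.mul_le_mul_right _ e1
      _ = p ^ (finrank k (cz z : LieSubalgebra k L) - 1) := by
        rw [← pow_add]
        congr 1
        omega
      _ ≤ _ := hdW
  by_cases hN0 : finrank k K = 0
  · -- `K = 0`
    have : Subsingleton K := finrank_zero_iff.mp hN0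
    have e1 : D.π ⟨x, hx⟩ = 0 := Subsingleton.elim _ _
    exact (D.ker ⟨x, hx⟩).mp e1
  · exfalso
    have hpos : 0 < finrank k K := Nat.pos_of_ne_zero hN0
    let bb : Fin (finrank k K) → End k W := fun i =>
      (σ (s (xb i)) * a (xb i) - a (xb i) * σ (s (xb i))) + a (xb i) * a (xb i)
    have hbb : ∀ i, bb i ∈ B := fun i =>
      B.add_mem (hyA _ _ (ha _)) (B.mul_mem (ha _) (ha _))
    have key := no_quad hp2 σ hrep D0 (finrank k K) (fun i => s (xb i)) hspan hNdim hdim
      inferInstance (fun _ => 1) (fun i => (2 : k) • a (xb i))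
      (∑ i, bb i - algebraMap k (End k W) lam) (fun i => B.smul_mem (ha _) _)
      (B.sub_mem (Subalgebra.sum_mem _ fun i _ => hbb i) (B.algebraMap_mem _))
      (by
        have e1 : ∀ i, ψ (xb i) * ψ (xb i) = (1 : k) • (σ (s (xb i)) * σ (s (xb i))) +
            ((2 : k) • a (xb i)) * σ (s (xb i)) + bb i := by
          intro i
          simp only [hψ, bb, one_smul, two_smul]
          noncomm_ring
        have e2 : C = ∑ i, (1 : k) • (σ (s (xb i)) * σ (s (xb i))) +
            ∑ i, ((2 : k) • a (xb i)) * σ (s (xb i)) + ∑ i, bb i := by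
          rw [hC, ← Finset.sum_add_distrib, ← Finset.sum_add_distrib]
          exact Finset.sum_congr rfl fun i _ => e1 i
        rw [← add_sub_assoc, ← e2, hlam, sub_self])
      ⟨0, hpos⟩
    exact one_ne_zero key

end Pool.Agent.SkH
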