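import Pool.Agent.Lib.SkH.Defs

/-!
# Module H2: `H^2(K, k) = 0` if the Killing form is nondegenerate

`κ = killingForm k K` nondegenerate (`LieAlgebra.IsKilling.killingForm_nondegenerate`), so there is a linear `d : K → K` with `κ (d x) y = β x y`
(`LinearMap.BilinForm.toDual` / `dualBasis`).  `d` is a derivation: `κ (⁅d x, y⁆ + ⁅x, d y⁆) w = κ (d x) ⁅y, w⁆ - κ (d y) ⁅x, w⁆ = β x ⁅y,w⁆ - β y ⁅x,w⁆ = β ⁅x,y⁆ w = κ (d ⁅x,y⁆) w`
(invariance: `LieModule.traceForm_apply_lie_apply`; `β` skew by `halt`).  So `d = ad u` (`LieDerivation.IsKilling.exists_eq_ad`) and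
`β x y = κ ⁅u, x⁆ y = κ u ⁅x, y⁆`.
-/

namespace Pool.Agent.SkH

open Module

variable {k K : Type} [Field k] [LieRing K] [LieAlgebra k K] [FiniteDimensional k K]

theorem h2 (hK : LieAlgebra.IsKilling k K) (β : K →ₗ[k] K →ₗ[k] k) (halt : ∀ x, β x x = 0)
    (hcoc : ∀ x y w : K, β ⁅x, y⁆ w + β ⁅y, w⁆ x + β ⁅w, x⁆ y = 0) :
    ∃ u : K, ∀ x y : K, β x y = killingForm k K u ⁅x, y⁆ := by
  have hskew : ∀ x y, β x y = -β y x := by
    intro x y
    have h1 := halt (x + y)
    simp only [map_add, LinearMap.add_apply, halt, zero_add, add_zero] at h1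
    linear_combination h1
  have hnd : (killingForm k K).Nondegenerate := LieAlgebra.IsKilling.killingForm_nondegenerate k K
  let e := LinearMap.BilinForm.toDual (killingForm k K) hnd
  let d : K →ₗ[k] K := e.symm.toLinearMap ∘ₗ β
  have hd : ∀ x y, killingForm k K (d x) y = β x y := by
    intro x y
    exact LinearMap.BilinForm.apply_toDual_symm_apply (hB := hnd) (β x) y
  have hinj : ∀ a b : K, (∀ w, killingForm k K a w = killingForm k K b w) → a = b := by
    intro a b h
    apply e.injective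
    exact LinearMap.ext h
  have hinv : ∀ a b w : K, killingForm k K ⁅a, b⁆ w = killingForm k K a ⁅b, w⁆ :=
    fun a b w => LieModule.traceForm_apply_lie_apply k K K a b w
  let D : LieDerivation k K K :=
    { d with
      leibniz' := by
        intro x y
        apply hinj
        intro w
        change killingForm k K (d ⁅x, y⁆) w = killingForm k K (⁅x, d y⁆ - ⁅y, d x⁆) w
        rw [hd, map_sub, LinearMap.sub_apply, ← lie_skew x (d y), ← lie_skew y (d x), map_neg,
          map_neg, LinearMap.neg_apply, LinearMap.neg_apply, hinv, hinv, hd, hd]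
        have h1 := hcoc x y w
        have h2 : β y ⁅x, w⁆ = β ⁅w, x⁆ y := by
          rw [hskew, ← lie_skew x w, map_neg, LinearMap.neg_apply, neg_neg]
        have h3 : β x ⁅y, w⁆ = -β ⁅y, w⁆ x := hskew _ _
        rw [h2, h3]
        linear_combination h1 }
  obtain ⟨u, hu⟩ := LieDerivation.IsKilling.exists_eq_ad D
  refine ⟨u, fun x y => ?_⟩
  have h1 : d x = ⁅u, x⁆ := by
    have h2 : LieDerivation.ad k K u x = D x := by rw [hu]
    rw [LieDerivation.ad_apply_apply] at h2
    exact h2.symm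
  rw [← hd, h1, hinv]

end Pool.Agent.SkH
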