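import Pool.Agent.Lib.SkH.RSec
import Pool.Agent.Lib.SkH.H2

/-!
# Module CaseBn: `C(z)/H` with nondegenerate Killing form, `Z(χ) = 0`

`s, β` from `exists_sec`, `u` from `h2`: `β x y = κ u ⁅x, y⁆`.
(*) if `β x = 0` then `x = 0`: for `w ∈ C(z)`: `w - s (π w) ∈ H`, so `χ ⁅s x, w⁆ = β x (π w) + χ ⁅s x, h⁆ = 0` (`InR`).  `ex_T`: `⁅T, z⁆ = z`; every `w ∈ L` is `μ T + w'` with `w' ∈ C(z)` (`eig`).
 Put `c = χ ⁅s x, T⁆`, `x0 = s x + c z`: `χ ⁅x0, w'⁆ = 0` for `w' ∈ C(z)` and `χ ⁅x0, T⁆ = c - c = 0`.  `Nondeg`: `x0 = 0`, so `s x = -c z ∈ H`, `x = π (s x) = 0`.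
`β u y = κ u ⁅u, y⁆ = κ ⁅u, u⁆ y = 0`, so `u = 0` by (*), so `β = 0`, so every `x ∈ K` is `0` by (*), so `π w = 0`, i.e. `w ∈ H`, for all `w ∈ C(z)`.
-/

namespace Pool.Agent.SkH

open Module Pool.Agent.SkG
open Pool.Agent.SkS (Irr Nondeg rs fs InR NoTor AbOne RedData)

variable {k L K : Type} [Field k] [LieRing L] [LieAlgebra k L] [FiniteDimensional k L] [LieRing K]
  [LieAlgebra k K] [FiniteDimensional k K]

theorem caseB_nondeg {f : L → L} {χ : Dual k L} (hχ : Nondeg χ) {z : L} {H : LieIdeal k L}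
    (hc : Cfg f χ z H) (D : KQ z H K) (hK : LieAlgebra.IsKilling k K) (x : L)
    (hx : ⁅x, z⁆ = 0) : x ∈ H := by
  obtain ⟨s, β, h1, h2', h3, h4, h5, h6, h7⟩ := exists_sec hc D
  have star : ∀ x : K, (∀ y, β x y = 0) → x = 0 := by
    intro x hx
    obtain ⟨T, hT⟩ := hc.ex_T
    have h0 : (s x : L) + (χ ⁅(s x : L), T⁆) • z = 0 := by
      apply hχ
      intro w
      obtain ⟨μ, hμ⟩ := hc.eig w
      have hw' : ⁅w - μ • T, z⁆ = 0 := by rw [sub_lie, smul_lie, hμ, hT, sub_self]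
      have hzw : ⁅z, w⁆ = -(μ • z) := by rw [← lie_skew, hμ]
      have hH : (w - μ • T) - (s (D.π ⟨w - μ • T, hw'⟩) : L) ∈ H := by
        have h8 : D.π ((⟨w - μ • T, hw'⟩ : (cz z : LieSubalgebra k L)) -
            s (D.π ⟨w - μ • T, hw'⟩)) = 0 := by
          rw [map_sub, h1, sub_self]
        exact (D.ker _).1 h8
      have h9 : χ ⁅(s x : L), w - μ • T⁆ = 0 := by
        have h10 := (h2' x).2 _ hH
        rw [lie_sub, map_sub, ← h5, hx, sub_zero] at h10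
        exact h10
      rw [lie_sub, map_sub, lie_smul, map_smul, smul_eq_mul, sub_eq_zero] at h9
      rw [add_lie, map_add, smul_lie, hzw, h9, smul_neg, map_neg, map_smul, map_smul, hc.χz,
        smul_eq_mul, smul_eq_mul, mul_one]
      ring
    have h11 : (s x : L) ∈ H := by
      rw [eq_neg_of_add_eq_zero_left h0]
      exact H.neg_mem (H.smul_mem _ hc.z_mem)
    have h12 := (D.ker (s x)).2 h11
    rwa [h1] at h12
  obtain ⟨u, hu⟩ := h2 hK β h6 h7
  have hu0 : u = 0 := by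
    apply star
    intro y
    rw [hu, ← LieModule.traceForm_apply_lie_apply, lie_self, map_zero, LinearMap.zero_apply]
  have hall : ∀ w : K, w = 0 := by
    intro w
    apply star
    intro y
    rw [hu, hu0, map_zero, LinearMap.zero_apply]
  exact (D.ker ⟨x, hx⟩).1 (hall _)

end Pool.Agent.SkH
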