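import Mathlib

/-!
# Module Comb: the lattice lemma behind the effective Cartan criterion

Let `C ⊆ ℤ^I` be the set of vectors `c = e_i - e_j - e_k + e_l` with `μ i - μ j = μ k - μ l`; `c · c ≤ 6`, except for `i = l`, `j = k` where `c = 2 e_i - 2 e_j` and `2 (μ i - μ j) = 0`: `p > 2`
(if `I` is nonempty; the empty case is trivial), so `μ i = μ j`; leave these vectors out of `C`: they are multiples of `e_i - e_j`, which is in `C` (indices `i, j, j, j`).  (Coincidences: norms `2`, `4`, `6` or `0`.)
Let `W ⊆ K^I` be the `K`-span of the images of `C` and `W^⊥ = {f : f · c = 0 for c ∈ C}` = the functions `f` with the property in `h`.  `μ ∈ W^⊥`.  By `h`, `f · μ = 0` for all `f ∈ W^⊥`, so `μ ∈ (W^⊥)^⊥ = W`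
(`K^I` finite dimensional, dot product nondegenerate).  Claim: `W ⊓ W^⊥ = 0`.  Choose `c_1, ..., c_r ∈ C` whose images are a basis of `W` (`exists_linearIndependent` / `Submodule.exists_fun_fin_finrank_span_eq`,
`Basis` extraction from a spanning set).  Integer Gram matrix `G = (c_a · c_b)`.  If `w = Σ t_a c_a ∈ W^⊥` then `G t = 0` in `K`, and `det G ≠ 0` in `K` gives `t = 0` (`Matrix.eq_zero_of_mulVec_eq_zero`).
`det G` is nonzero mod `p`: it is an integer with `0 < det G ≤ 6^r ≤ 6^{card I} < p`:
 * the `c_a` are linearly independent over `ℚ` (or `ℝ`): a rational relation, made integral and primitive (divide by the gcd), gives a nontrivial relation mod `p`;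
 * so the real matrix `G = B Bᵀ` is positive definite (`Matrix.PosDef`), `det G > 0`;
 * `det G = ∏ eigenvalues ≤ (trace G / r)^r ≤ 6^r` (AM-GM, `Real.inner_le_nnorm_mul_nnorm`-free: `Real.geom_mean_le_arith_mean_weighted` or `inner_le...`; `Matrix.IsHermitian.det_eq_prod_eigenvalues`,
   `trace_eq_sum_eigenvalues`); or Hadamard's inequality if you find it.
-/

namespace Pool.Agent.SkH

open Matrix

/-- the Gram determinant of integer vectors that are independent mod `p` -/
private theorem gram_ne_zero {K : Type} [Field K] (p : ℕ) [Fact p.Prime] [CharP K p] {I κ : Type}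
    [Fintype I] [Fintype κ] [DecidableEq κ] (c : κ → I → ℤ)
    (hli : LinearIndependent K (fun a => fun i => ((c a i : ℤ) : K))) :
    (Matrix.of c * (Matrix.of c)ᵀ).det ≠ 0 := by
  intro hdet
  obtain ⟨t, ht0, ht⟩ := Matrix.exists_mulVec_eq_zero_iff.mpr hdet
  -- the relation
  have h1 : (Matrix.of c)ᵀ *ᵥ t = 0 := by
    have h2 : t ⬝ᵥ ((Matrix.of c * (Matrix.of c)ᵀ) *ᵥ t) = 0 := by
      rw [ht, dotProduct_zero]
    rw [← Matrix.mulVec_mulVec, Matrix.dotProduct_mulVec, ← Matrix.mulVec_transpose] at h2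
    exact dotProduct_self_eq_zero.mp h2
  have hrel : ∀ i, ∑ a, t a * c a i = 0 := by
    intro i
    have h2 := congrFun h1 i
    have h3 : ((Matrix.of c)ᵀ *ᵥ t) i = ∑ a, t a * c a i := by
      refine Finset.sum_congr rfl fun a _ => ?_
      exact mul_comm _ _
    rw [h3] at h2
    exact h2
  -- descent
  have hp : 1 < p := (Fact.out : p.Prime).one_lt
  have desc : ∀ (N : ℕ) (t : κ → ℤ), ∑ a, (t a).natAbs ≤ N → (∀ i, ∑ a, t a * c a i = 0) →
      t = 0 := by
    intro N
    induction N using Nat.strong_induction_on with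
    | _ N ih =>
      intro t hN ht
      by_contra hne
      have hdvd : ∀ a, (p : ℤ) ∣ t a := by
        have h2 : ∑ a, ((t a : ℤ) : K) • (fun i => ((c a i : ℤ) : K)) = 0 := by
          refine funext fun i => ?_
          rw [Finset.sum_apply]
          have h3 := congrArg (fun z : ℤ => (z : K)) (ht i)
          simp only [Int.cast_sum, Int.cast_mul, Int.cast_zero] at h3
          exact h3
        intro a
        have h4 := Fintype.linearIndependent_iff.mp hli (fun a => ((t a : ℤ) : K)) h2 a
        exact (CharP.intCast_eq_zero_iff K p (t a)).mp h4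
      choose s hs using hdvd
      have hs0 : s ≠ 0 := by
        rintro rfl
        apply hne
        refine funext fun a => ?_
        rw [hs a]
        exact mul_zero _
      have hrel' : ∀ i, ∑ a, s a * c a i = 0 := by
        intro i
        have h5 : (p : ℤ) * ∑ a, s a * c a i = 0 := by
          rw [Finset.mul_sum, ← ht i]
          refine Finset.sum_congr rfl fun a _ => ?_
          rw [hs a]
          ring
        rcases mul_eq_zero.mp h5 with h6 | h6
        · have : (p : ℤ) ≠ 0 := by exact_mod_cast (by omega : p ≠ 0)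
          exact absurd h6 this
        · exact h6
      have hsum : ∑ a, (t a).natAbs = p * ∑ a, (s a).natAbs := by
        rw [Finset.mul_sum]
        refine Finset.sum_congr rfl fun a _ => ?_
        rw [hs a, Int.natAbs_mul, Int.natAbs_natCast]
      have hpos : 0 < ∑ a, (s a).natAbs := by
        rw [Nat.pos_iff_ne_zero]
        intro h6
        apply hs0
        refine funext fun a => ?_
        have := (Finset.sum_eq_zero_iff.mp h6) a (Finset.mem_univ a)
        exact Int.natAbs_eq_zero.mp this
      have hlt : ∑ a, (s a).natAbs < N := by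
        have h7 : ∑ a, (s a).natAbs < p * ∑ a, (s a).natAbs := by nlinarith
        omega
      exact hs0 (ih _ hlt s le_rfl hrel')
  exact ht0 (desc _ t le_rfl hrel)

/-- the upper bound for the Gram determinant -/
private theorem gram_le {I κ : Type} [Fintype I] [Fintype κ] [DecidableEq κ] (c : κ → I → ℤ)
    (hc : ∀ a, c a ⬝ᵥ c a ≤ 6) :
    0 ≤ (Matrix.of c * (Matrix.of c)ᵀ).det ∧
      (Matrix.of c * (Matrix.of c)ᵀ).det ≤ 6 ^ Fintype.card κ := by
  let B : Matrix κ I ℝ := Matrix.of fun a i => ((c a i : ℤ) : ℝ)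
  have hB : (Int.castRingHom ℝ).mapMatrix (Matrix.of c * (Matrix.of c)ᵀ) = B * Bᴴ := by
    rw [RingHom.mapMatrix_apply, Matrix.map_mul]
    congr 1
  have hdet : (((Matrix.of c * (Matrix.of c)ᵀ).det : ℤ) : ℝ) = (B * Bᴴ).det := by
    have h1 := (Int.castRingHom ℝ).map_det (Matrix.of c * (Matrix.of c)ᵀ)
    rw [hB] at h1
    exact h1
  have hps : (B * Bᴴ).PosSemidef := Matrix.posSemidef_self_mul_conjTranspose B
  have h0 : 0 ≤ (B * Bᴴ).det := hps.det_nonneg
  have hprod : (B * Bᴴ).det = ∏ i, hps.1.eigenvalues i := by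
    have h1 := hps.1.det_eq_prod_eigenvalues
    rw [h1]
    rfl
  have htr : ∑ i, hps.1.eigenvalues i ≤ 6 * (Fintype.card κ : ℝ) := by
    have h1 : (B * Bᴴ).trace = ∑ i, hps.1.eigenvalues i := by
      have h2 := hps.1.trace_eq_sum_eigenvalues
      rw [h2]
      rfl
    rw [← h1, Matrix.trace]
    have h3 : ∀ a, Matrix.diag (B * Bᴴ) a ≤ 6 := by
      intro a
      have h4 : Matrix.diag (B * Bᴴ) a = ((c a ⬝ᵥ c a : ℤ) : ℝ) := by
        rw [Matrix.diag_apply, Matrix.mul_apply]
        simp only [dotProduct, Int.cast_sum, Int.cast_mul]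
        rfl
      rw [h4]
      exact_mod_cast hc a
    refine (Finset.sum_le_sum fun a _ => h3 a).trans ?_
    rw [Finset.sum_const, Finset.card_univ, nsmul_eq_mul, mul_comm]
  have hle : (B * Bᴴ).det ≤ 6 ^ Fintype.card κ := by
    rw [hprod]
    have h1 : ∀ i, hps.1.eigenvalues i ≤ 6 * Real.exp (hps.1.eigenvalues i / 6 - 1) := by
      intro i
      have := Real.add_one_le_exp (hps.1.eigenvalues i / 6 - 1)
      linarith
    calc ∏ i, hps.1.eigenvalues i ≤ ∏ i, (6 * Real.exp (hps.1.eigenvalues i / 6 - 1)) :=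
          Finset.prod_le_prod (fun i _ => hps.eigenvalues_nonneg i) fun i _ => h1 i
      _ = 6 ^ Fintype.card κ * Real.exp (∑ i, (hps.1.eigenvalues i / 6 - 1)) := by
          rw [Finset.prod_mul_distrib, Finset.prod_const, Finset.card_univ, Real.exp_sum]
      _ ≤ 6 ^ Fintype.card κ * 1 := by
          refine mul_le_mul_of_nonneg_left ?_ (by positivity)
          rw [Real.exp_le_one_iff, Finset.sum_sub_distrib, ← Finset.sum_div, Finset.sum_const,
            Finset.card_univ, nsmul_eq_mul, mul_one]
          have : (∑ i, hps.1.eigenvalues i) / 6 ≤ (Fintype.card κ : ℝ) := by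
            rw [div_le_iff₀ (by norm_num)]
            linarith
          linarith
      _ = 6 ^ Fintype.card κ := mul_one _
  rw [← hdet] at h0 hle
  exact ⟨by exact_mod_cast h0, by exact_mod_cast hle⟩

/-- the vector `e_i - e_j - e_l + e_m` -/
private def cv {I : Type} [DecidableEq I] (i j l m : I) : I → ℤ :=
  Pi.single i 1 - Pi.single j 1 - Pi.single l 1 + Pi.single m 1

private theorem cv_norm {I : Type} [Fintype I] [DecidableEq I] (i j l m : I)
    (h : ¬ (i = m ∧ j = l)) : cv i j l m ⬝ᵥ cv i j l m ≤ 6 := by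
  have e : ∀ a b : I, (Pi.single a (1 : ℤ) : I → ℤ) ⬝ᵥ Pi.single b 1 = if a = b then 1 else 0 := by
    intro a b
    rw [single_dotProduct, one_mul, Pi.single_apply]
  simp only [cv, add_dotProduct, sub_dotProduct, dotProduct_add, dotProduct_sub, e]
  by_cases h1 : i = m
  · have h2 : j ≠ l := fun h2 => h ⟨h1, h2⟩
    subst h1
    have h3 : l ≠ j := Ne.symm h2
    simp only [if_neg h2, if_neg h3, if_true]
    split_ifs <;> norm_num
  · have h3 : m ≠ i := Ne.symm h1
    simp only [if_neg h1, if_neg h3, if_true]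
    split_ifs <;> norm_num

private theorem cv_dot {K I : Type} [Field K] [Fintype I] [DecidableEq I] (f : I → K)
    (i j l m : I) : ∑ k, f k * ((cv i j l m k : ℤ) : K) = f i - f j - f l + f m := by
  have e : ∀ a : I, ∑ k, f k * (((Pi.single a (1 : ℤ) : I → ℤ) k : ℤ) : K) = f a := by
    intro a
    rw [Finset.sum_eq_single a]
    · rw [Pi.single_eq_same, Int.cast_one, mul_one]
    · intro k _ hk
      rw [Pi.single_eq_of_ne hk, Int.cast_zero, mul_zero]
    · intro h
      exact absurd (Finset.mem_univ a) h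
  simp only [cv, Pi.add_apply, Pi.sub_apply, Int.cast_add, Int.cast_sub, mul_add, mul_sub,
    Finset.sum_add_distrib, Finset.sum_sub_distrib, e]

theorem comb {K : Type} [Field K] (p : ℕ) [Fact p.Prime] [CharP K p] {I : Type} [Fintype I]
    (hp : 6 ^ Fintype.card I < p) (μ : I → K)
    (h : ∀ f : I → K, (∀ i j l m, μ i - μ j = μ l - μ m → f i - f j = f l - f m) →
      ∑ i, f i * μ i = 0) : μ = 0 := by
  classical
  rcases isEmpty_or_nonempty I with hI | hI
  · exact funext fun i => (IsEmpty.false i).elim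
  have hp2 : (2 : K) ≠ 0 := by
    intro h2
    have h3 : ((2 : ℕ) : K) = 0 := by exact_mod_cast h2
    have h4 := (CharP.cast_eq_zero_iff K p 2).mp h3
    have h5 := Nat.le_of_dvd (by norm_num) h4
    have h6 : 6 ^ 1 ≤ 6 ^ Fintype.card I := Nat.pow_le_pow_right (by norm_num) Fintype.card_pos
    omega
  let C : Set (I → ℤ) := {c | (∃ i j l m, μ i - μ j = μ l - μ m ∧ c = cv i j l m) ∧ c ⬝ᵥ c ≤ 6}
  let v : C → I → K := fun c i => ((c.1 i : ℤ) : K)
  obtain ⟨κ, a, ha, hspan, hli⟩ := exists_linearIndependent' K v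
  have hfin : Finite κ := hli.finite
  have := Fintype.ofFinite κ
  let c : κ → I → ℤ := fun x => (a x).1
  have hcc : ∀ x, c x ⬝ᵥ c x ≤ 6 := fun x => (a x).2.2
  have hcard : Fintype.card κ ≤ Fintype.card I := by
    have h1 := hli.fintype_card_le_finrank
    rwa [Module.finrank_fintype_fun_eq_card] at h1
  -- the determinant is nonzero in `K`
  have hdet : ((Matrix.of c * (Matrix.of c)ᵀ).det : K) ≠ 0 := by
    intro h0
    have h1 := (CharP.intCast_eq_zero_iff K p _).mp h0
    have h2 := gram_ne_zero (K := K) p c hli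
    obtain ⟨h3, h4⟩ := gram_le c hcc
    have h5 : 0 < (Matrix.of c * (Matrix.of c)ᵀ).det := lt_of_le_of_ne h3 (Ne.symm h2)
    have h6 := Int.le_of_dvd h5 h1
    have h7 : (6 : ℤ) ^ Fintype.card κ ≤ 6 ^ Fintype.card I :=
      pow_le_pow_right₀ (by norm_num) hcard
    have h8 : ((6 ^ Fintype.card I : ℕ) : ℤ) < (p : ℤ) := by exact_mod_cast hp
    rw [Nat.cast_pow] at h8
    push_cast at h8
    linarith
  -- `μ` is in the span
  have hmem : μ ∈ Submodule.span K (Set.range v) := by
    by_contra hne
    obtain ⟨φ, hφ, hφ'⟩ := Submodule.exists_dual_map_eq_bot_of_notMem hne inferInstance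
    have hrep : ∀ x : I → K, φ x = ∑ i, φ (Pi.single i 1) * x i := by
      intro x
      have h1 : x = ∑ i, x i • (Pi.single i (1 : K) : I → K) := by
        refine funext fun k => ?_
        rw [Finset.sum_apply]
        simp [Pi.single_apply]
      conv_lhs => rw [h1]
      rw [map_sum]
      refine Finset.sum_congr rfl fun i _ => ?_
      rw [map_smul, smul_eq_mul, mul_comm]
    have hC : ∀ x : C, φ (v x) = 0 := by
      intro x
      have h1 : φ (v x) ∈ (Submodule.span K (Set.range v)).map φ :=
        Submodule.mem_map_of_mem (Submodule.subset_span ⟨x, rfl⟩)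
      rw [hφ', Submodule.mem_bot] at h1
      exact h1
    have hcv : ∀ i j l m, μ i - μ j = μ l - μ m → ¬ (i = m ∧ j = l) →
        φ (Pi.single i 1) - φ (Pi.single j 1) - φ (Pi.single l 1) + φ (Pi.single m 1) = 0 := by
      intro i j l m h1 h2
      have h3 := hC ⟨cv i j l m, ⟨i, j, l, m, h1, rfl⟩, cv_norm i j l m h2⟩
      rw [hrep] at h3
      have h4 := cv_dot (fun k => φ (Pi.single k (1 : K))) i j l m
      rw [← h4]
      exact h3
    refine hφ ?_
    rw [hrep]
    refine h (fun i => φ (Pi.single i 1)) fun i j l m h1 => ?_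
    by_cases h2 : i = m ∧ j = l
    · obtain ⟨rfl, rfl⟩ := h2
      have h3 : μ i - μ j = 0 := by
        have h4 : (2 : K) * (μ i - μ j) = 0 := by linear_combination h1
        rcases mul_eq_zero.mp h4 with h5 | h5
        · exact absurd h5 hp2
        · exact h5
      by_cases h6 : i = j
      · subst h6
        rfl
      · have h4 := hcv i j j j (by rw [h3, sub_self]) (fun h5 => h6 h5.1)
        linear_combination 2 * h4
    · have h4 := hcv i j l m h1 h2
      linear_combination h4
  -- conclusion
  rw [← hspan] at hmem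
  obtain ⟨t, ht⟩ := (Submodule.mem_span_range_iff_exists_fun K).mp hmem
  have hGt : ((Matrix.of c * (Matrix.of c)ᵀ).map (Int.cast : ℤ → K)) *ᵥ t = 0 := by
    refine funext fun x => ?_
    have h1 : ∑ i, ((c x i : ℤ) : K) * μ i = 0 := by
      obtain ⟨⟨i, j, l, m, h2, h3⟩, -⟩ := (a x).2
      have h4 := cv_dot μ i j l m
      have h5 : ∑ k, ((c x k : ℤ) : K) * μ k = ∑ k, μ k * ((cv i j l m k : ℤ) : K) := by
        refine Finset.sum_congr rfl fun k _ => ?_
        have h6 : c x = cv i j l m := h3
        rw [h6, mul_comm]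
      rw [h5, h4]
      linear_combination h2
    rw [← ht] at h1
    rw [Pi.zero_apply, ← h1]
    simp only [Matrix.mulVec, dotProduct, Matrix.map_apply, Matrix.mul_apply, Matrix.of_apply,
      Matrix.transpose_apply, Int.cast_sum, Int.cast_mul, Finset.sum_apply, Pi.smul_apply,
      smul_eq_mul, Finset.mul_sum, Finset.sum_mul]
    rw [Finset.sum_comm]
    refine Finset.sum_congr rfl fun i _ => Finset.sum_congr rfl fun y _ => ?_
    change ((c x i : ℤ) : K) * ((c y i : ℤ) : K) * t y = ((c x i : ℤ) : K) * (t y * ((c y i : ℤ) : K))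
    ring
  have hdet' : ((Matrix.of c * (Matrix.of c)ᵀ).map (Int.cast : ℤ → K)).det ≠ 0 := by
    have h1 := (Int.castRingHom K).map_det (Matrix.of c * (Matrix.of c)ᵀ)
    intro h2
    apply hdet
    refine Eq.trans h1 ?_
    exact h2
  have ht0 := Matrix.eq_zero_of_mulVec_eq_zero hdet' hGt
  rw [← ht, ht0]
  simp

end Pool.Agent.SkH
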