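import Pool.Agent.Lib.SkH.EffTr

/-!
# Module EffSolv: ideals with vanishing Killing form are solvable (characteristic `p > 6^dim`)

Copy the proof of Mathlib's `LieIdeal.isSolvable_of_killingForm_apply_lie_eq_zero` (Mathlib/Algebra/Lie/CartanCriterion.lean), with `isNilpotent_of_traceForm` in place of
`isNilpotent_derivedSeries_of_traceForm_eq_zero` (for the `DI`-module `L`, `hp : 6 ^ finrank K L < p`).
-/

namespace Pool.Agent.SkH

open Module LieAlgebra

theorem isSolvable_of_killing {K : Type} [Field K] [IsAlgClosed K] (p : ℕ) [Fact p.Prime]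
    [CharP K p] {L : Type} [LieRing L] [LieAlgebra K L] [FiniteDimensional K L]
    (hp : 6 ^ finrank K L < p) (I : LieIdeal K L)
    (h : ∀ x ∈ I, ∀ y ∈ ⁅I, I⁆, killingForm K L x y = 0) : LieAlgebra.IsSolvable I := by
  set DI : LieIdeal K L := ⁅I, I⁆
  set DDI : LieIdeal K L := ⁅DI, DI⁆
  have tf_eq_zero : LieModule.traceForm K DI L = 0 := by
    ext ⟨x, hx⟩ ⟨y, hy⟩
    change killingForm K L x y = 0
    exact h x (LieSubmodule.lie_le_left I I hx) y hy
  have module_nilp : LieModule.IsNilpotent (derivedSeries K DI 1) L :=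
    isNilpotent_of_traceForm p hp tf_eq_zero
  have ring_nilp : LieRing.IsNilpotent DDI := by
    rw [LieAlgebra.isNilpotent_iff_forall (R := K)]
    rintro ⟨x, hx⟩
    apply LieSubalgebra.isNilpotent_ad_of_isNilpotent_ad (DDI : LieSubalgebra K L) (x := ⟨x, hx⟩)
    refine (LieModule.isNilpotent_iff_forall' (R := K)).mp module_nilp
      ⟨⟨x, LieSubmodule.lie_le_left DI DI hx⟩, ?_⟩
    rwa [LieIdeal.derivedSeries_eq_derivedSeriesOfIdeal_comap, LieIdeal.mem_comap]
  obtain ⟨k, hk⟩ := LieAlgebra.IsSolvable.solvable K DDI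
  rw [LieIdeal.derivedSeries_eq_bot_iff] at hk
  refine LieAlgebra.IsSolvable.mk (k := k + 2) ((LieIdeal.derivedSeries_eq_bot_iff I (k + 2)).mpr ?_)
  rwa [derivedSeriesOfIdeal_add, derivedSeriesOfIdeal_succ, derivedSeriesOfIdeal_succ,
    derivedSeriesOfIdeal_zero]

end Pool.Agent.SkH
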