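import Pool.Agent.Lib.SkH.Comb

/-!
# Module EffTr: the effective Cartan criterion for a representation (adaptation of Mathlib's proof)

Copy the proof of Mathlib's `LieModule.isNilpotent_derivedSeries_of_traceForm_eq_zero_aux` (Mathlib/Algebra/Lie/CartanCriterion.lean; private helper lemmas may have to be copied).  Change: replace the
`ℚ`-span `E` and `f : Dual ℚ E` by functions `f : I → K` with `(∀ i j l m, μ i - μ j = μ l - μ m → f i - f j = f l - f m)`, `fμ = f`:
 * polynomial `r` with `r.eval (μ i - μ j) = f i - f j`: `Polynomial.exists_eval_eq_iff` directly from the property of `f`;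
 * `q.eval (μ i) = f i`: `μ i = μ j` implies `f i = f j` (take the relation `μ i - μ j = μ j - μ j`);
 * conclusion `∑ i, f i * μ i = 0` for all such `f`; `Fintype.card I = finrank K M` (`v` is a basis), so `comb` gives `μ = 0`, hence all eigenvalues of the semisimple part `s` vanish, `s = 0`.
Everything else (Jordan-Chevalley, `ad_mem_adjoin_of_isSemisimple`, `trace_toEnd_mul_eq_zero_of_traceForm_eq_zero`) is characteristic free over a perfect field.
-/

namespace Pool.Agent.SkH

open Module LieModule Algebra Function LieAlgebra LinearMap Module.End Polynomial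

attribute [local instance 100] LieRing.ofAssociativeRing

theorem isNilpotent_of_traceForm {K : Type} [Field K] [IsAlgClosed K] (p : ℕ) [Fact p.Prime]
    [CharP K p] {L M : Type} [LieRing L] [LieAlgebra K L] [AddCommGroup M] [Module K M]
    [LieRingModule L M] [LieModule K L M] [FiniteDimensional K M] (hp : 6 ^ finrank K M < p)
    (h : LieModule.traceForm K L M = 0) :
    LieModule.IsNilpotent (LieAlgebra.derivedSeries K L 1) M := by
  set φ := toEnd K L M
  suffices ∀ x ∈ derivedSeries K L 1, _root_.IsNilpotent (φ x) from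
    isNilpotent_iff_forall'.mpr fun ⟨x, hx⟩ ↦ this x hx
  intro x hx
  obtain ⟨n, hn_adj, s, hns, hn_nil, hs_ss, hX_ns⟩ := (φ x).exists_isNilpotent_isSemisimple
  replace hns : Commute n s :=
    commute_of_mem_adjoin_singleton_of_commute hns (commute_of_mem_adjoin_self hn_adj).symm
  suffices s = 0 by aesop
  classical
  let eigenDecomp := DirectSum.isInternal_submodule_of_iSupIndep_of_iSup_eq_top
    s.eigenspaces_iSupIndep hs_ss.iSup_eigenspace_eq_top
  let I := (ν : K) × Fin (finrank K (s.eigenspace ν))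
  let v : Basis I K M := eigenDecomp.collectedBasis fun μ ↦ finBasis K (s.eigenspace μ)
  have : Fintype I := FiniteDimensional.fintypeBasisIndex v
  let μ : I → K := Sigma.fst
  have hsv (i : I) : s (v i) = μ i • v i :=
    mem_eigenspace_iff.mp (eigenDecomp.collectedBasis_mem _ i)
  have hcard : 6 ^ Fintype.card I < p := by
    rw [← Module.finrank_eq_card_basis v]
    exact hp
  suffices hμ0 : μ = 0 by
    suffices ∀ ν, s.HasEigenvalue ν → ν = 0 from hs_ss.eq_zero_iff_forall_eigenvalue.mpr this
    intro ν hν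
    have : Nontrivial (s.eigenspace ν) :=
      Submodule.nontrivial_iff_ne_bot.mpr (hasEigenvalue_iff.mp hν)
    exact congrFun hμ0 ⟨ν, ⟨0, finrank_pos⟩⟩
  refine comb p hcard μ fun fμ hf => ?_
  suffices ∃ y : End K M, trace K M (φ x * y) = 0 ∧ trace K M (φ x * y) = ∑ i, fμ i * μ i by grind
  let y : End K M := (Matrix.diagonal fμ).toLin v v
  have hyv (i : I) : y (v i) = fμ i • v i :=
    mem_eigenspace_iff.mp (hasEigenvector_toLin_diagonal fμ i v).1
  have hy_range (z : End K M) (hz : z ∈ LieHom.range φ) : ⁅y, z⁆ ∈ LieHom.range φ := by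
    obtain ⟨q, hq⟩ : ∃ q : K[X], q.aeval (ad K _ (φ x)) = ad K _ y := by
      obtain ⟨r, hr⟩ : ∃ r : K[X], r.aeval (ad K _ s) = ad K _ y := by
        have h₁ (i j : I) : ⁅s, v.end (i, j)⁆ = (μ i - μ j) • v.end (i, j) := by
          rw [instLieRingModule_eq, v.lie_end_of_apply_eq_smul μ s hsv]
        have h₂ (i j : I) : ⁅y, v.end (i, j)⁆ = (fμ i - fμ j) • v.end (i, j) := by
          rw [instLieRingModule_eq, v.lie_end_of_apply_eq_smul fμ y hyv]
        obtain ⟨r, hr⟩ : ∃ r : K[X], ∀ i j, r.eval (μ i - μ j) = fμ i - fμ j := by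
          obtain ⟨r, hr⟩ := (Polynomial.exists_eval_eq_iff
            (fun ij : I × I => μ ij.1 - μ ij.2) (fun ij => fμ ij.1 - fμ ij.2)).mpr
            (fun ij kl hij => hf ij.1 ij.2 kl.1 kl.2 hij)
          exact ⟨r, fun i j => hr (i, j)⟩
        refine ⟨r, v.end.ext fun ⟨i, j⟩ ↦ ?_⟩
        rw [ad_apply, ← instLieRingModule_eq, aeval_apply_of_mem_apply_eq_smul (h₁ i j), hr, h₂]
      obtain ⟨p, hp⟩ : ∃ p : K[X], p.aeval (ad K _ (φ x)) = ad K _ s :=
        adjoin_mem_exists_aeval K _ <| by
          simpa only [← hX_ns] using! ad_mem_adjoin_of_isSemisimple hns hn_nil hs_ss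
      exact ⟨r.comp p, by rw [aeval_comp, hp, hr]⟩
    rw [instLieRingModule_eq, ← ad_apply K, ← hq]
    apply q.aeval_apply_smul_mem_of_le_comap hz _ ?_
    rintro - ⟨w, rfl⟩
    exact ⟨⁅x, w⁆, LieHom.map_lie φ x w⟩
  have hny_comm : Commute n y := by
    suffices y ∈ K[s] from commute_of_mem_adjoin_singleton_of_commute this hns
    rw [adjoin_singleton_eq_range_aeval]
    obtain ⟨q, hq⟩ : ∃ q : K[X], ∀ i, q.eval (μ i) = fμ i := by
      refine (Polynomial.exists_eval_eq_iff μ fμ).mpr fun i j hij => ?_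
      have h1 := hf i j j j (by rw [hij])
      rw [sub_self] at h1
      exact sub_eq_zero.mp h1
    refine ⟨q, v.ext fun i ↦ ?_⟩
    rw [AlgHom.toRingHom_eq_coe, RingHom.coe_coe, aeval_apply_of_mem_apply_eq_smul (hsv i), hq, hyv]
  suffices trace K M (φ x * y) = ∑ i, fμ i * μ i from
    ⟨y, trace_toEnd_mul_eq_zero_of_traceForm_eq_zero h y hy_range x hx, this⟩
  have htr_n : trace K M (n * y) = 0 :=
    (isNilpotent_trace_of_isNilpotent (hny_comm.isNilpotent_mul_right hn_nil)).eq_zero
  have htr_s : trace K M (s * y) = ∑ i, fμ i * μ i := by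
    rw [trace_eq_matrix_trace _ v, Matrix.trace]
    exact Finset.sum_congr rfl <| by simp [toMatrix_apply, hyv, hsv]
  rw [hX_ns, add_mul, map_add, htr_n, htr_s, zero_add]

end Pool.Agent.SkH
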