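import Pool.Agent.Lib.SkH.Defs

/-!
# Module Sol: solvable ideals inside `N`

If `B ≠ ⊥`, let `i` be maximal with `derivedSeriesOfIdeal k P i B ≠ ⊥` (`LieAlgebra.derivedSeriesOfIdeal`; solvable: some term is `⊥`; `derivedSeries_eq_bot_iff`, see
`Pool.Agent.SkG.Small` or Mathlib `LieAlgebra.derivedAbelianOfIdeal`, `abelian_derivedAbelianOfIdeal`, `derivedAbelianOfIdeal ... le`); it is an abelian ideal contained in `B ≤ N`.
-/

namespace Pool.Agent.SkH

open Module

variable {k P : Type} [Field k] [LieRing P] [LieAlgebra k P]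

theorem noAb_solvable {N : LieIdeal k P} (hN : NoAb k N) (B : LieIdeal k P)
    (hB : LieAlgebra.IsSolvable B) (hBN : B ≤ N) : B = ⊥ := by
  rw [← LieAlgebra.abelian_of_solvable_ideal_eq_bot_iff B]
  have hle : LieAlgebra.derivedAbelianOfIdeal B ≤ B := by
    dsimp only [LieAlgebra.derivedAbelianOfIdeal]
    split
    · exact bot_le
    · exact LieAlgebra.derivedSeriesOfIdeal_le_self B _
  refine hN _ (hle.trans hBN) ?_
  intro x hx y hy
  have h := LieAlgebra.abelian_derivedAbelianOfIdeal (R := k) (L := P) B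
  have h1 := h.trivial (⟨x, hx⟩ : LieAlgebra.derivedAbelianOfIdeal B) ⟨y, hy⟩
  have h2 := congrArg Subtype.val h1
  simpa using h2

end Pool.Agent.SkH
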