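import Pool.Agent.Lib.SkH.KA
import Pool.Agent.Lib.SkH.Sol

/-!
# Module HRHG: `HR` implies `HG` (`p ≠ 2`)

Given `M`, `π : M ↠ P`, `N ≤ P` with `NoAb k N`.  `HR` gives `q : M ↠ Q` with solvable kernel and `Q` Killing.  `B = π(q.ker)` is an ideal of `P` (`π` surjective, `LieIdeal.map` or by hand), solvable (image of a solvable
algebra: `Function.Surjective.lieAlgebra_isSolvable`).  `B ⊓ N` is a solvable ideal contained in `N`, so `⊥` (`noAb_solvable`; a sub-ideal of a solvable ideal is solvable: injective map).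
`P ⧸ B` is a quotient of `Q` (`q.ker ≤ ker (M → P ⧸ B)`, factor through `q`), so Killing by `killing_quot`; the image `N'` of `N` in `P ⧸ B` is an ideal, Killing by `killing_ideal`, and `N → N'` is an isomorphism
(injective because `B ⊓ N = ⊥`), so `N` is Killing (`LieAlgebra.isKilling_of_equiv`).
-/

namespace Pool.Agent.SkH

open Module

/-- factor a homomorphism through a surjection -/
private lemma factor {k M Q R : Type} [Field k] [LieRing M] [LieAlgebra k M] [LieRing Q]
    [LieAlgebra k Q] [LieRing R] [LieAlgebra k R] (q : M →ₗ⁅k⁆ Q) (hq : Function.Surjective q)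
    (r : M →ₗ⁅k⁆ R) (hker : ∀ x, q x = 0 → r x = 0) : ∃ g : Q →ₗ⁅k⁆ R, ∀ x, g (q x) = r x := by
  have key : ∀ a b, q a = q b → r a = r b := by
    intro a b hab
    rw [← sub_eq_zero, ← map_sub]
    apply hker
    rw [map_sub, hab, sub_self]
  have hs : ∀ y, q (Function.surjInv hq y) = y := Function.surjInv_eq hq
  refine ⟨{ toFun := fun y => r (Function.surjInv hq y)
            map_add' := ?_
            map_smul' := ?_
            map_lie' := ?_ }, ?_⟩
  · intro x y
    rw [← map_add]
    apply key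
    rw [map_add, hs, hs, hs]
  · intro c x
    rw [RingHom.id_apply, ← map_smul]
    apply key
    rw [map_smul, hs, hs]
  · intro x y
    change r (Function.surjInv hq ⁅x, y⁆) = ⁅r (Function.surjInv hq x), r (Function.surjInv hq y)⁆
    rw [← LieHom.map_lie]
    apply key
    rw [LieHom.map_lie, hs, hs, hs]
  · intro x
    change r (Function.surjInv hq (q x)) = r x
    apply key
    rw [hs]

/-- the image of an ideal under a surjection -/
private lemma mem_map_iff {k M P : Type} [Field k] [LieRing M] [LieAlgebra k M] [LieRing P]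
    [LieAlgebra k P] (f : M →ₗ⁅k⁆ P) (hf : Function.Surjective f) (I : LieIdeal k M) (y : P) :
    y ∈ LieIdeal.map f I ↔ ∃ x ∈ I, f x = y := by
  rw [← LieSubmodule.mem_toSubmodule, LieIdeal.coe_map_of_surjective hf, Submodule.mem_map]
  rfl

/-- the homomorphism from an ideal onto its image -/
private def toMap {k M P : Type} [Field k] [LieRing M] [LieAlgebra k M] [LieRing P]
    [LieAlgebra k P] (f : M →ₗ⁅k⁆ P) (I : LieIdeal k M) :
    I →ₗ⁅k⁆ (LieIdeal.map f I : LieIdeal k P) where
  toFun x := ⟨f x, LieIdeal.mem_map x.2⟩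
  map_add' x y := Subtype.ext (map_add f (x : M) (y : M))
  map_smul' c x := Subtype.ext (map_smul f c (x : M))
  map_lie' := by
    intro x y
    exact Subtype.ext (LieHom.map_lie f (x : M) (y : M))

private lemma toMap_surj {k M P : Type} [Field k] [LieRing M] [LieAlgebra k M] [LieRing P]
    [LieAlgebra k P] (f : M →ₗ⁅k⁆ P) (hf : Function.Surjective f) (I : LieIdeal k M) :
    Function.Surjective (toMap f I) := by
  intro y
  obtain ⟨x, hx, hxy⟩ := (mem_map_iff f hf I y).1 y.2
  exact ⟨⟨x, hx⟩, Subtype.ext hxy⟩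

variable {k L : Type} [Field k] [LieRing L] [LieAlgebra k L] [FiniteDimensional k L]

theorem hg_of_hr {p : ℕ} (hp2 : p ≠ 2) (h : HR k L) : HG p k L := by
  intro M P _ _ π hπ N hN
  obtain ⟨Q, _, _, q, hq, hsol, hfd, hK⟩ := h M
  refine Or.inr (Or.inr ⟨hp2, ?_⟩)
  set B : LieIdeal k P := LieIdeal.map π q.ker with hB
  have hBs : LieAlgebra.IsSolvable B := (toMap_surj π hπ q.ker).lieAlgebra_isSolvable
  have hBNs : LieAlgebra.IsSolvable (B ⊓ N : LieIdeal k P) :=
    (LieIdeal.inclusion_injective (inf_le_left : B ⊓ N ≤ B)).lieAlgebra_isSolvable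
  have hBN : B ⊓ N = ⊥ := noAb_solvable hN (B ⊓ N) hBNs inf_le_right
  -- the quotient
  let mk : P →ₗ⁅k⁆ (P ⧸ B) :=
    { toFun := fun x => LieSubmodule.Quotient.mk' B x
      map_add' := fun x y => map_add _ x y
      map_smul' := fun c x => map_smul _ c x
      map_lie' := fun {_ _} => rfl }
  have hmk : Function.Surjective mk := LieSubmodule.Quotient.surjective_mk' B
  have hmk0 : ∀ x, mk x = 0 ↔ x ∈ B := fun x => LieSubmodule.Quotient.mk_eq_zero B
  obtain ⟨g, hg⟩ := factor q hq (mk.comp π) (by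
    intro x hx
    rw [LieHom.comp_apply, hmk0]
    exact LieIdeal.mem_map (q.mem_ker.2 hx))
  have hgs : Function.Surjective g := by
    intro y
    obtain ⟨x, rfl⟩ := hmk y
    obtain ⟨m, rfl⟩ := hπ x
    exact ⟨q m, hg m⟩
  have hKq : LieAlgebra.IsKilling k (P ⧸ B) := killing_quot hK g hgs
  have hfq : FiniteDimensional k (P ⧸ B) :=
    Module.Finite.of_surjective (g : Q →ₗ[k] (P ⧸ B)) hgs
  have hKN : LieAlgebra.IsKilling k (LieIdeal.map mk N : LieIdeal k (P ⧸ B)) :=
    killing_ideal hKq _
  have hinj : Function.Injective (toMap mk N) := by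
    rw [injective_iff_map_eq_zero]
    intro x hx
    have h1 : mk (x : P) = 0 := congrArg Subtype.val hx
    rw [hmk0] at h1
    have h2 : (x : P) ∈ B ⊓ N := ⟨h1, x.2⟩
    rw [hBN] at h2
    exact Subtype.ext ((LieSubmodule.mem_bot _).1 h2)
  let e := LieEquiv.ofBijective (toMap mk N) ⟨hinj, toMap_surj mk hmk N⟩
  exact LieAlgebra.isKilling_of_equiv e.symm

end Pool.Agent.SkH
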