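import Pool.Agent.Lib.SkH.Defs

/-!
# Module KA: Lie algebras with nondegenerate Killing form (any field)

`killing_ideal`: `LieIdeal.isCompl_killingCompl` (Mathlib): `I ⊓ I^⊥ = ⊥`; `LieIdeal.killingForm_eq`: the Killing form of `I` is the restriction.  So `x ∈ I` orthogonal to `I` is in `I ⊓ I^⊥ = ⊥`.
`killing_quot`: `I = g.ker`, `Q = I ⊕ I^⊥`; `g` restricts to an isomorphism `I^⊥ ≃ Q'` of Lie algebras (injective as `I ⊓ I^⊥ = ⊥`, surjective as `I ⊔ I^⊥ = ⊤`); `killing_ideal` for `I^⊥` and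
 `LieAlgebra.isKilling_of_equiv`.
`killing_ext`: `A = g.ker`, an ideal of `X` with nondegenerate Killing form.  Let `x ∈ X` with `κ_X x = 0`.  `ad x|_A` is a derivation of `A`, so `= ad a` (`LieDerivation.IsKilling.exists_eq_ad`),
 `c = x - a` centralises `A`.  For `a' ∈ A`: `ad c ∘ ad a' = 0` on `X` (`⁅a', y⁆ ∈ A`), so `κ_X c a' = 0`, so `κ_X a a' = 0`, `κ_A a a' = 0` (`LieIdeal.killingForm_eq`), `a = 0`.  So `x = c`.
 For `y ∈ X` the operator `ad c ∘ ad y` maps `A` to `0` (`⁅y, a'⁆ ∈ A`), and induces `ad (g c) ∘ ad (g y)` on `X / A ≃ Q`, so `κ_Q (g c) (g y) = κ_X c y = 0`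
 (trace of an operator preserving `A`: `LinearMap.trace_eq_...` or choose a linear section `s` of `g`: `κ_Q(g c)(g y) = tr (g ∘ T ∘ s) = tr (T ∘ s ∘ g)` and `T = T ∘ s ∘ g` because `T = ad c ∘ ad y` kills `ker g`;
 `LinearMap.trace_comp_comm'`).  So `g c = 0`, `c ∈ A`, `c` is in the centre of `A`, `c = 0` (`κ_A c = 0`).
`killing_subdirect`: `A = g1.ker`; `g2` restricted to `A` is injective with range an ideal of `Q2` (`g2` surjective), Killing by `killing_ideal`, so `A` is Killing by the isomorphism; `killing_ext` for `g1`.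
-/

namespace Pool.Agent.SkH

open Module

variable {k Q Q' X Q1 Q2 : Type} [Field k] [LieRing Q] [LieAlgebra k Q] [LieRing Q']
  [LieAlgebra k Q'] [LieRing X] [LieAlgebra k X] [LieRing Q1] [LieAlgebra k Q1] [LieRing Q2]
  [LieAlgebra k Q2]

private theorem ka_mk (h : ∀ x : Q, (∀ y, killingForm k Q x y = 0) → x = 0) :
    LieAlgebra.IsKilling k Q := by
  constructor
  rw [eq_bot_iff]
  intro x hx
  rw [LieIdeal.mem_killingCompl] at hx
  rw [LieSubmodule.mem_bot]
  apply h
  intro y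
  rw [LieModule.traceForm_comm]
  exact hx y (LieSubmodule.mem_top y)

private theorem ka_zero (hQ : LieAlgebra.IsKilling k Q) (x : Q)
    (h : ∀ y, killingForm k Q x y = 0) : x = 0 := by
  have := hQ
  have h1 := LieAlgebra.IsKilling.ker_killingForm_eq_bot k Q
  have h2 : x ∈ LinearMap.ker (killingForm k Q) := by
    rw [LinearMap.mem_ker]
    ext y
    simpa using h y
  rw [h1] at h2
  simpa using h2

theorem killing_ideal [FiniteDimensional k Q] (hQ : LieAlgebra.IsKilling k Q) (I : LieIdeal k Q) :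
    LieAlgebra.IsKilling k I := by
  have := hQ
  have hc := (LieIdeal.isCompl_killingCompl I).disjoint
  apply ka_mk
  intro x hx
  have h1 : (x : Q) ∈ I ⊓ I.killingCompl := by
    refine (LieSubmodule.mem_inf ..).2 ⟨x.2, ?_⟩
    rw [LieIdeal.mem_killingCompl]
    intro y hy
    have h2 := hx ⟨y, hy⟩
    rw [LieIdeal.killingForm_eq] at h2
    rw [LieModule.traceForm_comm]
    exact h2
  rw [disjoint_iff.1 hc] at h1
  have h3 : (x : Q) = 0 := by simpa using h1
  exact Subtype.ext h3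

theorem killing_quot [FiniteDimensional k Q] (hQ : LieAlgebra.IsKilling k Q) (g : Q →ₗ⁅k⁆ Q')
    (hg : Function.Surjective g) : LieAlgebra.IsKilling k Q' := by
  have := hQ
  have hc := LieIdeal.isCompl_killingCompl (K := k) g.ker
  have hI : LieAlgebra.IsKilling k (LieIdeal.killingCompl k Q g.ker) := killing_ideal hQ _
  let f : (LieIdeal.killingCompl k Q g.ker) →ₗ⁅k⁆ Q' :=
    g.comp (LieIdeal.incl (LieIdeal.killingCompl k Q g.ker))
  have hf : ∀ x, f x = g (x : Q) := fun x => rfl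
  have hinj : Function.Injective f := by
    rw [injective_iff_map_eq_zero f]
    intro x hx
    rw [hf] at hx
    have h1 : (x : Q) ∈ g.ker ⊓ LieIdeal.killingCompl k Q g.ker :=
      (LieSubmodule.mem_inf ..).2 ⟨(LieHom.mem_ker ..).2 hx, x.2⟩
    rw [disjoint_iff.1 hc.disjoint] at h1
    have h3 : (x : Q) = 0 := by simpa using h1
    exact Subtype.ext h3
  have hsurj : Function.Surjective f := by
    intro q
    obtain ⟨x, rfl⟩ := hg q
    have h1 : x ∈ g.ker ⊔ LieIdeal.killingCompl k Q g.ker := by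
      rw [codisjoint_iff.1 hc.codisjoint]
      exact LieSubmodule.mem_top x
    obtain ⟨a, ha, b, hb, hab⟩ := (LieSubmodule.mem_sup ..).1 h1
    refine ⟨⟨b, hb⟩, ?_⟩
    rw [hf, ← hab, map_add, (LieHom.mem_ker ..).1 ha, zero_add]
  exact LieAlgebra.isKilling_of_equiv (LieEquiv.ofBijective f ⟨hinj, hsurj⟩)

/-- the derivation of `g.ker` induced by `ad x` -/
private noncomputable def kaD (A : LieIdeal k X) (x : X) : LieDerivation k A A where
  toFun a := ⟨⁅x, (a : X)⁆, A.lie_mem a.2⟩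
  map_add' a b := by
    apply Subtype.ext
    change ⁅x, ((a : X) + (b : X))⁆ = ⁅x, (a : X)⁆ + ⁅x, (b : X)⁆
    rw [lie_add]
  map_smul' c a := by
    apply Subtype.ext
    change ⁅x, (c • (a : X))⁆ = c • ⁅x, (a : X)⁆
    rw [lie_smul]
  leibniz' a b := by
    apply Subtype.ext
    change ⁅x, ⁅(a : X), (b : X)⁆⁆ = ⁅(a : X), ⁅x, (b : X)⁆⁆ - ⁅(b : X), ⁅x, (a : X)⁆⁆
    rw [leibniz_lie x (a : X) (b : X), ← lie_skew (b : X) ⁅x, (a : X)⁆]
    abel

theorem killing_ext [FiniteDimensional k X] (g : X →ₗ⁅k⁆ Q) (hg : Function.Surjective g)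
    (hQ : LieAlgebra.IsKilling k Q) (hA : LieAlgebra.IsKilling k g.ker) :
    LieAlgebra.IsKilling k X := by
  have := hQ
  have := hA
  have hfd : FiniteDimensional k Q :=
    Module.Finite.of_surjective (g : X →ₗ[k] Q) hg
  apply ka_mk
  intro x hx
  obtain ⟨a, ha⟩ := LieDerivation.IsKilling.exists_eq_ad (kaD g.ker x)
  have hc : ∀ b ∈ g.ker, ⁅x, b⁆ = ⁅(a : X), b⁆ := by
    intro b hb
    have h1 := congrArg (fun D : LieDerivation k g.ker g.ker => ((D ⟨b, hb⟩ : g.ker) : X)) ha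
    have h2 : ((LieDerivation.ad k g.ker a ⟨b, hb⟩ : g.ker) : X) = ⁅(a : X), b⁆ := by
      simp
    have h3 : ((kaD g.ker x ⟨b, hb⟩ : g.ker) : X) = ⁅x, b⁆ := rfl
    rw [← h3, ← h2]
    exact h1.symm
  -- `a = 0`
  have ha0 : a = 0 := by
    apply ka_zero hA
    intro b
    rw [LieIdeal.killingForm_eq]
    change killingForm k X (a : X) (b : X) = 0
    have h1 : killingForm k X (x - (a : X)) (b : X) = 0 := by
      rw [killingForm_apply_apply]
      have h2 : (LieAlgebra.ad k X (x - (a : X))) ∘ₗ (LieAlgebra.ad k X (b : X)) = 0 := by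
        ext y
        simp only [LinearMap.comp_apply, LieAlgebra.ad_apply, LinearMap.zero_apply]
        have h3 : ⁅(b : X), y⁆ ∈ g.ker := by
          rw [← lie_skew]
          exact neg_mem (g.ker.lie_mem b.2)
        rw [sub_lie, hc _ h3, sub_self]
      rw [h2, map_zero]
    rw [map_sub, LinearMap.sub_apply, hx (b : X)] at h1
    have h4 : (0 : k) - killingForm k X (a : X) (b : X) = 0 := h1
    rw [zero_sub, neg_eq_zero] at h4
    exact h4
  have hc0 : ∀ b ∈ g.ker, ⁅x, b⁆ = 0 := by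
    intro b hb
    rw [hc b hb, ha0]
    simp
  -- the image of `x` is orthogonal to `Q`
  have hgx : g x = 0 := by
    apply ka_zero hQ
    intro q
    obtain ⟨y, rfl⟩ := hg q
    obtain ⟨s, hs⟩ := (g : X →ₗ[k] Q).exists_rightInverse_of_surjective
      (LinearMap.range_eq_top.2 hg)
    have hs' : ∀ q, g (s q) = q := fun q => LinearMap.congr_fun hs q
    have h0 := hx y
    rw [killingForm_apply_apply] at h0 ⊢
    set T : X →ₗ[k] X := (LieAlgebra.ad k X x) ∘ₗ (LieAlgebra.ad k X y) with hT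
    have hTk : ∀ b ∈ g.ker, T b = 0 := by
      intro b hb
      change ⁅x, ⁅y, b⁆⁆ = 0
      exact hc0 _ (g.ker.lie_mem hb)
    have e1 : (LieAlgebra.ad k Q (g x)) ∘ₗ (LieAlgebra.ad k Q (g y)) =
        (g : X →ₗ[k] Q) ∘ₗ (T ∘ₗ s) := by
      ext q
      change ⁅g x, ⁅g y, q⁆⁆ = g (⁅x, ⁅y, s q⁆⁆)
      rw [LieHom.map_lie, LieHom.map_lie, hs' q]
    have e2 : (T ∘ₗ s) ∘ₗ (g : X →ₗ[k] Q) = T := by
      ext b
      have h5 : s (g b) - b ∈ g.ker := by
        rw [LieHom.mem_ker, map_sub, hs' (g b), sub_self]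
      have h6 := hTk _ h5
      rw [map_sub, sub_eq_zero] at h6
      exact h6
    rw [e1, LinearMap.trace_comp_comm', e2]
    exact h0
  have hxk : x ∈ g.ker := (LieHom.mem_ker ..).2 hgx
  have h7 : (⟨x, hxk⟩ : g.ker) = 0 := by
    apply ka_zero hA
    intro b
    rw [killingForm_apply_apply]
    have h8 : LieAlgebra.ad k g.ker ⟨x, hxk⟩ = 0 := by
      ext b
      change ⁅x, (b : X)⁆ = 0
      exact hc0 _ b.2
    rw [h8, LinearMap.zero_comp, map_zero]
  exact congrArg Subtype.val h7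

theorem killing_subdirect [FiniteDimensional k X] (g1 : X →ₗ⁅k⁆ Q1) (g2 : X →ₗ⁅k⁆ Q2)
    (h1 : Function.Surjective g1) (h2 : Function.Surjective g2)
    (hQ1 : LieAlgebra.IsKilling k Q1) (hQ2 : LieAlgebra.IsKilling k Q2)
    (hker : ∀ x, g1 x = 0 → g2 x = 0 → x = 0) : LieAlgebra.IsKilling k X := by
  have hfd : FiniteDimensional k Q2 :=
    Module.Finite.of_surjective (g2 : X →ₗ[k] Q2) h2
  refine killing_ext g1 h1 hQ1 ?_
  let I2 : LieIdeal k Q2 :=
    { carrier := {q | ∃ a ∈ g1.ker, g2 a = q}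
      add_mem' := by
        rintro _ _ ⟨a, ha, rfl⟩ ⟨b, hb, rfl⟩
        exact ⟨a + b, add_mem ha hb, map_add g2 a b⟩
      zero_mem' := ⟨0, zero_mem _, map_zero g2⟩
      smul_mem' := by
        rintro c _ ⟨a, ha, rfl⟩
        exact ⟨c • a, g1.ker.smul_mem c ha, map_smul g2 c a⟩
      lie_mem := by
        rintro q _ ⟨a, ha, rfl⟩
        obtain ⟨x, rfl⟩ := h2 q
        exact ⟨⁅x, a⁆, g1.ker.lie_mem ha, LieHom.map_lie g2 x a⟩ }
  have hI2 : LieAlgebra.IsKilling k I2 := killing_ideal hQ2 I2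
  let e : g1.ker →ₗ⁅k⁆ I2 :=
    { toFun := fun a => ⟨g2 (a : X), ⟨a, a.2, rfl⟩⟩
      map_add' := by
        intro a b
        apply Subtype.ext
        change g2 ((a : X) + (b : X)) = g2 (a : X) + g2 (b : X)
        rw [map_add]
      map_smul' := by
        intro c a
        apply Subtype.ext
        change g2 (c • (a : X)) = c • g2 (a : X)
        rw [map_smul]
      map_lie' := by
        intro a b
        apply Subtype.ext
        change g2 ⁅(a : X), (b : X)⁆ = ⁅g2 (a : X), g2 (b : X)⁆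
        rw [LieHom.map_lie] }
  have hinj : Function.Injective e := by
    rw [injective_iff_map_eq_zero e]
    intro a ha
    have h3 : g2 (a : X) = 0 := congrArg Subtype.val ha
    exact Subtype.ext (hker _ ((LieHom.mem_ker ..).1 a.2) h3)
  have hsurj : Function.Surjective e := by
    rintro ⟨q, a, ha, rfl⟩
    exact ⟨⟨a, ha⟩, rfl⟩
  exact LieAlgebra.isKilling_of_equiv (LieEquiv.ofBijective e ⟨hinj, hsurj⟩).symm

end Pool.Agent.SkH
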