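import Pool.Agent.Lib.SkH.RadQ
import Pool.Agent.Lib.SkH.KA

/-!
# Module HRcl: the class with small factors has property `HR`

Given a subalgebra `M` of `L`, let `φ_i' = φ_i ∘ M.incl : M → S_i`, `(Q_i, π_i, n_i)` from `radQ`.  By induction on `m` (or on a finset of indices) there is a surjection `π : M → Q` with `Q` Killing, finite dimensional and
`π.ker = ⨅ π_i.ker`: start with `Q = PUnit`-like zero algebra (`M ⧸ ⊤`), step: `X = M ⧸ (J ⊓ J')`, `g1 : X → M ⧸ J`, `g2 : X → M ⧸ J'`, `killing_subdirect`.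
`π.ker` is solvable: `n = max n_i`: `D^n (π.ker) ≤ D^{n_i} (π_i.ker) ≤ φ_i'.ker` for all `i` (`derivedSeriesOfIdeal` is monotone in the ideal and antitone in `n`), so `D^n (π.ker) ≤ I ⊓ M`, which is solvable, so
`D^{n+n'} (π.ker) = ⊥` (`derivedSeriesOfIdeal_add`; `derivedSeries_eq_bot_iff`).
-/

namespace Pool.Agent.SkH

open Module

variable {k L : Type} [Field k] [IsAlgClosed k] {p : ℕ} [Fact p.Prime] [CharP k p] [LieRing L]
  [LieAlgebra k L] [FiniteDimensional k L]

section aux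

variable {M : Type} [LieRing M] [LieAlgebra k M]

omit [IsAlgClosed k] in
/-- a Killing quotient datum with prescribed kernel condition -/
theorem killing_inf_two {Q1 Q2 : Type} [LieRing Q1] [LieAlgebra k Q1] [LieRing Q2]
    [LieAlgebra k Q2] [FiniteDimensional k Q1] [FiniteDimensional k Q2]
    (hQ1 : LieAlgebra.IsKilling k Q1) (hQ2 : LieAlgebra.IsKilling k Q2)
    (π1 : M →ₗ⁅k⁆ Q1) (π2 : M →ₗ⁅k⁆ Q2) (h1 : Function.Surjective π1)
    (h2 : Function.Surjective π2) :
    ∃ (Q : Type) (_ : LieRing Q) (_ : LieAlgebra k Q) (π : M →ₗ⁅k⁆ Q),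
      Function.Surjective π ∧ FiniteDimensional k Q ∧ LieAlgebra.IsKilling k Q ∧
      ∀ x, π x = 0 ↔ (π1 x = 0 ∧ π2 x = 0) := by
  let Φ : M →ₗ⁅k⁆ Q1 × Q2 := π1.prod π2
  have hΦ : ∀ x, Φ x = (π1 x, π2 x) := fun x => rfl
  let X : LieSubalgebra k (Q1 × Q2) := Φ.range
  have hXfd : FiniteDimensional k X :=
    inferInstanceAs (FiniteDimensional k (X.toSubmodule))
  let g1 : X →ₗ⁅k⁆ Q1 := (LieHom.fst k Q1 Q2).comp X.incl
  let g2 : X →ₗ⁅k⁆ Q2 := (LieHom.snd k Q1 Q2).comp X.incl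
  refine ⟨X, inferInstance, inferInstance, Φ.rangeRestrict, Φ.surjective_rangeRestrict, hXfd,
    ?_, ?_⟩
  · refine killing_subdirect g1 g2 ?_ ?_ hQ1 hQ2 ?_
    · intro y
      obtain ⟨x, rfl⟩ := h1 y
      exact ⟨Φ.rangeRestrict x, rfl⟩
    · intro y
      obtain ⟨x, rfl⟩ := h2 y
      exact ⟨Φ.rangeRestrict x, rfl⟩
    · intro x hx1 hx2
      apply Subtype.ext
      exact Prod.ext hx1 hx2
  · intro x
    constructor
    · intro h
      have h' : Φ x = 0 := congrArg Subtype.val h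
      rw [hΦ] at h'
      exact ⟨congrArg Prod.fst h', congrArg Prod.snd h'⟩
    · rintro ⟨ha, hb⟩
      apply Subtype.ext
      exact Prod.ext ha hb

omit [IsAlgClosed k] in
theorem killing_inf_list (M : Type) [LieRing M] [LieAlgebra k M] (n : ℕ) (Q : Fin n → Type)
    (i1 : ∀ i, LieRing (Q i))
    (i2 : ∀ i, LieAlgebra k (Q i)) (π : ∀ i, M →ₗ⁅k⁆ Q i)
    (hs : ∀ i, Function.Surjective (π i)) (hf : ∀ i, FiniteDimensional k (Q i))
    (hK : ∀ i, LieAlgebra.IsKilling k (Q i)) :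
    ∃ (P : Type) (_ : LieRing P) (_ : LieAlgebra k P) (ρ : M →ₗ⁅k⁆ P),
      Function.Surjective ρ ∧ FiniteDimensional k P ∧ LieAlgebra.IsKilling k P ∧
      ∀ x, ρ x = 0 ↔ ∀ i, π i x = 0 := by
  induction n with
  | zero =>
    let X := M ⧸ (⊤ : LieIdeal k M)
    have hsub : Subsingleton X := by
      refine ⟨fun a b => ?_⟩
      obtain ⟨a, rfl⟩ := LieSubmodule.Quotient.surjective_mk' (⊤ : LieIdeal k M) a
      obtain ⟨b, rfl⟩ := LieSubmodule.Quotient.surjective_mk' (⊤ : LieIdeal k M) b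
      rw [← sub_eq_zero, ← map_sub, LieSubmodule.Quotient.mk_eq_zero]
      trivial
    have hfd : FiniteDimensional k X := inferInstance
    let ρ : M →ₗ⁅k⁆ X :=
      { toLinearMap := (LieSubmodule.Quotient.mk' (⊤ : LieIdeal k M) : M →ₗ[k] X)
        map_lie' := fun {x y} => Subsingleton.elim _ _ }
    refine ⟨X, inferInstance, inferInstance, ρ, ?_, hfd, ?_, ?_⟩
    · intro y
      exact ⟨0, Subsingleton.elim _ _⟩
    · refine ⟨?_⟩
      rw [eq_bot_iff]
      intro x _
      rw [Subsingleton.elim x 0]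
      exact Submodule.zero_mem _
    · intro x
      refine ⟨fun _ i => i.elim0, fun _ => Subsingleton.elim _ _⟩
  | succ n ih =>
    obtain ⟨P, j1, j2, ρ, hρ, hPf, hPK, hρk⟩ := ih (fun i => Q i.castSucc) (fun i => i1 _)
      (fun i => i2 _) (fun i => π i.castSucc) (fun i => hs _) (fun i => hf _) (fun i => hK _)
    letI := i1 (Fin.last n)
    letI := i2 (Fin.last n)
    have hfl := hf (Fin.last n)
    obtain ⟨P', j1', j2', ρ', hρ', hPf', hPK', hρk'⟩ :=
      killing_inf_two (k := k) hPK (hK (Fin.last n)) ρ (π (Fin.last n)) hρ (hs (Fin.last n))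
    refine ⟨P', j1', j2', ρ', hρ', hPf', hPK', fun x => ?_⟩
    rw [hρk', hρk, Fin.forall_fin_succ']

end aux

theorem hr_of_small (m : ℕ) (S : Fin m → Type) [∀ i, LieRing (S i)] [∀ i, LieAlgebra k (S i)]
    (hS : ∀ i, SmallAlg p k (S i)) (φ : ∀ i, L →ₗ⁅k⁆ S i) (I : LieIdeal k L)
    (hI : LieAlgebra.IsSolvable I) (hker : ∀ x : L, (∀ i, φ i x = 0) → x ∈ I) : HR k L := by
  intro M
  have hMfd : FiniteDimensional k M := inferInstanceAs (FiniteDimensional k M.toSubmodule)
  choose Q i1 i2 π hs hf hK n hn using fun i =>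
    radQ (k := k) (p := p) (M := M) (hS i) ((φ i).comp M.incl)
  obtain ⟨P, j1, j2, ρ, hρ, hPf, hPK, hρk⟩ :=
    killing_inf_list (k := k) M m Q i1 i2 π hs hf hK
  refine ⟨P, j1, j2, ρ, hρ, ?_, hPf, hPK⟩
  -- the solvable ideal `I ⊓ M`
  let I' : LieIdeal k M := I.comap M.incl
  have hI' : LieAlgebra.IsSolvable I' := by
    let f : I' →ₗ⁅k⁆ I :=
      { toFun := fun x => ⟨((x : M) : L), x.2⟩
        map_add' := fun x y => rfl
        map_smul' := fun c x => rfl
        map_lie' := fun {x y} => rfl }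
    have hf : Function.Injective f := by
      intro x y hxy
      apply Subtype.ext
      apply Subtype.ext
      have h : ((f x : I) : L) = ((f y : I) : L) := by rw [hxy]
      exact h
    exact hf.lieAlgebra_isSolvable
  obtain ⟨n', hn'⟩ := (LieAlgebra.isSolvable_iff k I').1 hI'
  rw [LieIdeal.derivedSeries_eq_bot_iff] at hn'
  -- a common bound
  let N : ℕ := ∑ i, n i
  have hN : LieAlgebra.derivedSeriesOfIdeal k M N ρ.ker ≤ I' := by
    intro x hx
    change (x : L) ∈ I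
    apply hker
    intro i
    have h1 : ρ.ker ≤ (π i).ker := by
      intro y hy
      rw [LieHom.mem_ker] at hy ⊢
      exact (hρk y).1 hy i
    have h2 : n i ≤ N := Finset.single_le_sum (f := n) (fun _ _ => Nat.zero_le _)
      (Finset.mem_univ i)
    have h3 : x ∈ LieAlgebra.derivedSeriesOfIdeal k M (n i) (π i).ker :=
      LieAlgebra.derivedSeriesOfIdeal_le h1 h2 hx
    have h4 := hn i h3
    rw [LieHom.mem_ker] at h4
    exact h4
  apply LieAlgebra.IsSolvable.mk (R := k) (k := n' + N)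
  rw [LieIdeal.derivedSeries_eq_bot_iff, LieAlgebra.derivedSeriesOfIdeal_add, eq_bot_iff, ← hn']
  exact LieAlgebra.derivedSeriesOfIdeal_mono hN n'

end Pool.Agent.SkH
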