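import Pool.Agent.Lib.SkH.Sol

/-!
# Module Kill3: dimension at most three, characteristic `≠ 2`

`Q` has no nonzero abelian ideal (`NoAb k ⊤`), so no nonzero solvable ideal (`noAb_solvable`).  `finrank Q = 0`: trivial.
(a) a Lie algebra of dimension `≤ 2` is solvable (all brackets are multiples of one vector), so `finrank Q = 3` and every ideal of dimension `1` or `2` would be solvable: impossible.  So `⁅⊤, ⊤⁆ = ⊤`
   (otherwise `⁅⊤,⊤⁆` is a solvable ideal, so `⊥`, so `⊤` is abelian) and the radical of the Killing form (an ideal, `LieIdeal.killingCompl k Q ⊤`) is `⊥` or `⊤`.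
(b) suppose it is `⊤`: `tr (ad x ∘ ad y) = 0` for all `x, y`.  `tr (ad x) = 0` (`Q` perfect: `tr (ad ⁅a,b⁆) = 0`), `det (ad x) = 0` (`ad x x = 0`; if `x = 0` trivial).  Cayley-Hamilton in dimension three:
   `A^3 - tr(A) A^2 + (1/2)(tr(A)^2 - tr(A^2)) A - det A = 0`, so `(ad x)^3 = 0` for all `x` and `Q` is nilpotent by Engel (`LieAlgebra.isNilpotent_iff_forall`), hence solvable: contradiction.
-/

namespace Pool.Agent.SkH

open Module

section

variable {k L' : Type} [Field k] [LieRing L'] [LieAlgebra k L']

/-- if every element is a combination of two, the algebra is solvable -/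
theorem solv_of_two (u v : L') (h : ∀ x : L', ∃ a b : k, x = a • u + b • v) :
    LieAlgebra.IsSolvable L' := by
  have hw : ∀ x y : L', ∃ c : k, ⁅x, y⁆ = c • ⁅u, v⁆ := by
    intro x y
    obtain ⟨a, b, rfl⟩ := h x
    obtain ⟨c, d, rfl⟩ := h y
    refine ⟨a * d - b * c, ?_⟩
    have hvu : ⁅v, u⁆ = -⁅u, v⁆ := (lie_skew v u).symm
    simp only [add_lie, lie_add, smul_lie, lie_smul, lie_self, smul_zero, zero_add, add_zero, hvu]
    module
  have h1 : ∀ x ∈ LieAlgebra.derivedSeries k L' 1, ∃ c : k, x = c • ⁅u, v⁆ := by
    intro x hx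
    have hx' : x ∈ (LieAlgebra.derivedSeries k L' 1 : Submodule k L') := hx
    rw [LieAlgebra.coe_derivedSeries_one_eq] at hx'
    refine Submodule.span_induction ?_ ?_ ?_ ?_ hx'
    · rintro z ⟨a, b, rfl⟩
      exact hw a b
    · exact ⟨0, by simp⟩
    · rintro a b _ _ ⟨c, hc⟩ ⟨d, hd⟩
      exact ⟨c + d, by rw [hc, hd, add_smul]⟩
    · rintro t a _ ⟨c, hc⟩
      exact ⟨t * c, by rw [hc, mul_smul]⟩
  have h2 : LieAlgebra.derivedSeries k L' 2 = ⊥ := by
    have hs : LieAlgebra.derivedSeries k L' 2
        = ⁅LieAlgebra.derivedSeries k L' 1, LieAlgebra.derivedSeries k L' 1⁆ :=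
      LieAlgebra.derivedSeriesOfIdeal_succ k L' ⊤ 1
    rw [hs, LieSubmodule.lie_eq_bot_iff]
    intro x hx m hm
    obtain ⟨c, rfl⟩ := h1 x hx
    obtain ⟨d, rfl⟩ := h1 m hm
    rw [smul_lie, lie_smul, lie_self, smul_zero, smul_zero]
  exact LieAlgebra.IsSolvable.mk h2

/-- dimension at most two implies solvable -/
theorem solv_two [FiniteDimensional k L'] (h : finrank k L' ≤ 2) : LieAlgebra.IsSolvable L' := by
  rcases Nat.lt_or_ge (finrank k L') 1 with h0 | h0
  · have h00 : finrank k L' = 0 := by omega
    have : Subsingleton L' := finrank_zero_iff.mp h00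
    exact solv_of_two (k := k) (0 : L') 0 fun x => ⟨0, 0, Subsingleton.elim _ _⟩
  rcases Nat.lt_or_ge (finrank k L') 2 with h1 | h1
  · have h11 : finrank k L' = 1 := by omega
    let b := Module.finBasisOfFinrankEq k L' h11
    refine solv_of_two (k := k) (b 0) 0 fun x => ⟨b.repr x 0, 0, ?_⟩
    have := b.sum_repr x
    rw [Fin.sum_univ_one] at this
    simpa using this.symm
  · have h22 : finrank k L' = 2 := by omega
    let b := Module.finBasisOfFinrankEq k L' h22
    refine solv_of_two (k := k) (b 0) (b 1) fun x => ⟨b.repr x 0, b.repr x 1, ?_⟩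
    have := b.sum_repr x
    rw [Fin.sum_univ_two] at this
    exact this.symm

end

/-- Cayley-Hamilton in dimension three for a nilpotent looking matrix -/
theorem cube_zero {k : Type} [Field k] (h2 : (2 : k) ≠ 0) (A : Matrix (Fin 3) (Fin 3) k)
    (ht : A.trace = 0) (hs : (A * A).trace = 0) (hd : A.det = 0) : A * A * A = 0 := by
  rw [Matrix.trace_fin_three] at ht
  rw [Matrix.det_fin_three] at hd
  simp only [Matrix.trace_fin_three, Matrix.mul_apply, Fin.sum_univ_three] at hs
  set a := A 0 0
  set b := A 0 1
  set c := A 0 2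
  set d := A 1 0
  set e := A 1 1
  set f := A 1 2
  set g := A 2 0
  set h := A 2 1
  set i := A 2 2
  have he2 : a * e + a * i + e * i - b * d - c * g - f * h = 0 := by
    have h3 : 2 * (a * e + a * i + e * i - b * d - c * g - f * h) = 0 := by
      linear_combination (a + e + i) * ht - hs
    exact (mul_eq_zero.mp h3).resolve_left h2
  ext x y
  fin_cases x <;> fin_cases y <;>
    simp only [Matrix.mul_apply, Fin.sum_univ_three, Matrix.zero_apply, Fin.zero_eta, Fin.mk_one,
      Fin.reduceFinMk, Fin.isValue]
  · change (a * a + b * d + c * g) * a + (a * b + b * e + c * h) * d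
      + (a * c + b * f + c * i) * g = 0
    linear_combination (a * a + b * d + c * g) * ht - a * he2 + hd
  · change (a * a + b * d + c * g) * b + (a * b + b * e + c * h) * e
      + (a * c + b * f + c * i) * h = 0
    linear_combination (a * b + b * e + c * h) * ht - b * he2
  · change (a * a + b * d + c * g) * c + (a * b + b * e + c * h) * f
      + (a * c + b * f + c * i) * i = 0
    linear_combination (a * c + b * f + c * i) * ht - c * he2
  · change (d * a + e * d + f * g) * a + (d * b + e * e + f * h) * d
      + (d * c + e * f + f * i) * g = 0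
    linear_combination (d * a + e * d + f * g) * ht - d * he2
  · change (d * a + e * d + f * g) * b + (d * b + e * e + f * h) * e
      + (d * c + e * f + f * i) * h = 0
    linear_combination (d * b + e * e + f * h) * ht - e * he2 + hd
  · change (d * a + e * d + f * g) * c + (d * b + e * e + f * h) * f
      + (d * c + e * f + f * i) * i = 0
    linear_combination (d * c + e * f + f * i) * ht - f * he2
  · change (g * a + h * d + i * g) * a + (g * b + h * e + i * h) * d
      + (g * c + h * f + i * i) * g = 0
    linear_combination (g * a + h * d + i * g) * ht - g * he2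
  · change (g * a + h * d + i * g) * b + (g * b + h * e + i * h) * e
      + (g * c + h * f + i * i) * h = 0
    linear_combination (g * b + h * e + i * h) * ht - h * he2
  · change (g * a + h * d + i * g) * c + (g * b + h * e + i * h) * f
      + (g * c + h * f + i * i) * i = 0
    linear_combination (g * c + h * f + i * i) * ht - i * he2 + hd

variable {k Q : Type} [Field k] [LieRing Q] [LieAlgebra k Q] [FiniteDimensional k Q]

theorem kill3 (h2 : (2 : k) ≠ 0) (hQ : NoAb k (⊤ : LieIdeal k Q)) (h3 : finrank k Q ≤ 3) :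
    LieAlgebra.IsKilling k Q := by
  have hsol : ∀ B : LieIdeal k Q, LieAlgebra.IsSolvable B → B = ⊥ := fun B hB =>
    noAb_solvable hQ B hB le_top
  have hsmall : ∀ B : LieIdeal k Q, finrank k B ≤ 2 → B = ⊥ := fun B hB =>
    hsol B (solv_two (k := k) hB)
  refine ⟨?_⟩
  set R : LieIdeal k Q := LieIdeal.killingCompl k Q ⊤ with hR
  by_contra hne
  have hfr : ¬ finrank k R ≤ 2 := fun h => hne (hsmall R h)
  have hle : finrank k R ≤ finrank k Q := Submodule.finrank_le R.toSubmodule
  have hQ3 : finrank k Q = 3 := by omega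
  have hR3 : finrank k R = finrank k Q := by omega
  have hRtop : R.toSubmodule = ⊤ := Submodule.eq_top_of_finrank_eq hR3
  have hkill : ∀ x y : Q, killingForm k Q x y = 0 := by
    intro x y
    have hy : y ∈ R.toSubmodule := by rw [hRtop]; trivial
    have hy' : y ∈ R := hy
    rw [hR, LieIdeal.mem_killingCompl] at hy'
    exact hy' x (by trivial)
  -- `Q` is perfect
  have hperf : LieAlgebra.derivedSeries k Q 1 = ⊤ := by
    set D := LieAlgebra.derivedSeries k Q 1 with hD
    by_contra hDt
    have hDlt : finrank k D.toSubmodule < finrank k Q := by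
      apply Submodule.finrank_lt
      intro hh
      exact hDt ((LieSubmodule.toSubmodule_eq_top D).mp hh)
    have hDb : D = ⊥ := hsmall D (by
      have : finrank k D = finrank k D.toSubmodule := rfl
      omega)
    have hsQ : LieAlgebra.IsSolvable Q := LieAlgebra.IsSolvable.mk hDb
    have htop := hsol ⊤ inferInstance
    have h30 : finrank k (⊤ : Submodule k Q) = 0 := by
      have h5 : ((⊤ : LieIdeal k Q) : Submodule k Q) = ⊥ := by rw [htop]; rfl
      have h6 : ((⊤ : LieIdeal k Q) : Submodule k Q) = ⊤ := rfl
      rw [← h6, h5, finrank_bot]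
    rw [finrank_top] at h30
    omega
  have htr : ∀ x : Q, LinearMap.trace k Q (LieAlgebra.ad k Q x) = 0 := by
    intro x
    have hx : x ∈ (LieAlgebra.derivedSeries k Q 1 : Submodule k Q) := by
      rw [hperf]; trivial
    rw [LieAlgebra.coe_derivedSeries_one_eq] at hx
    refine Submodule.span_induction ?_ ?_ ?_ ?_ hx
    · rintro z ⟨a, b, rfl⟩
      have h7 : LieAlgebra.ad k Q ⁅a, b⁆
          = LieAlgebra.ad k Q a * LieAlgebra.ad k Q b
            - LieAlgebra.ad k Q b * LieAlgebra.ad k Q a := by
        apply LinearMap.ext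
        intro y
        simp only [LieAlgebra.ad_apply, LinearMap.sub_apply, Module.End.mul_apply, lie_lie]
      rw [h7, map_sub, LinearMap.trace_mul_comm, sub_self]
    · simp
    · intro a b _ _ ha hb
      rw [map_add, map_add, ha, hb, add_zero]
    · intro t a _ ha
      rw [map_smul, map_smul, ha, smul_zero]
  have hcube : ∀ x : Q, (LieAlgebra.ad k Q x) * (LieAlgebra.ad k Q x) * (LieAlgebra.ad k Q x) = 0 := by
    intro x
    by_cases hx0 : x = 0
    · rw [hx0]; simp
    let b := Module.finBasisOfFinrankEq k Q hQ3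
    set A := LinearMap.toMatrix b b (LieAlgebra.ad k Q x) with hA
    have h1 : A.trace = 0 := by
      rw [hA, ← LinearMap.trace_eq_matrix_trace k b]
      exact htr x
    have h4 : (A * A).trace = 0 := by
      rw [hA, ← LinearMap.toMatrix_mul, ← LinearMap.trace_eq_matrix_trace k b]
      have := hkill x x
      rwa [killingForm_apply_apply] at this
    have h5 : A.det = 0 := by
      rw [hA, LinearMap.det_toMatrix]
      by_contra hdet
      have hu := LinearMap.isUnit_iff_isUnit_det _ |>.mpr (isUnit_iff_ne_zero.mpr hdet)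
      have hinj : Function.Injective (LieAlgebra.ad k Q x) :=
        ((Module.End.isUnit_iff _).mp hu).injective
      apply hx0
      apply hinj
      rw [LieAlgebra.ad_apply, lie_self, map_zero]
    have h6 := cube_zero h2 A h1 h4 h5
    rw [hA, ← LinearMap.toMatrix_mul, ← LinearMap.toMatrix_mul] at h6
    exact (LinearMap.toMatrix b b).map_eq_zero_iff.mp h6
  have hnil : LieRing.IsNilpotent Q := by
    rw [LieAlgebra.isNilpotent_iff_forall (R := k)]
    intro x
    exact ⟨3, by rw [pow_three', hcube x]⟩
  have hsQ : LieAlgebra.IsSolvable Q := by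
    have := hnil
    infer_instance
  have htop := hsol ⊤ inferInstance
  have h30 : finrank k (⊤ : Submodule k Q) = 0 := by
    have h5 : ((⊤ : LieIdeal k Q) : Submodule k Q) = ⊥ := by rw [htop]; rfl
    have h6 : ((⊤ : LieIdeal k Q) : Submodule k Q) = ⊤ := rfl
    rw [← h6, h5, finrank_bot]
  rw [finrank_top] at h30
  omega

end Pool.Agent.SkH
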