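import Pool.Agent.Lib.SkH.Defs

/-!
# Module Sec: the condition `HG` passes to the reduction

Given `M' ≤ L'`, `π' : M' ↠ P`: let `M = {x ∈ L : x ∈ L1 and π x ∈ M'}` (`x : L`, `∃ h : x ∈ L1, π ⟨x, h⟩ ∈ M'`), a Lie subalgebra of `L`, and `M → M' → P` surjective.
-/

namespace Pool.Agent.SkH

open Module

variable {k L L' : Type} [Field k] [LieRing L] [LieAlgebra k L] [LieRing L'] [LieAlgebra k L']

/-- the preimage in `L` of a subalgebra of `L'` -/
private def preM (L1 : LieSubalgebra k L) (π : L1 →ₗ⁅k⁆ L') (M' : LieSubalgebra k L') :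
    LieSubalgebra k L where
  carrier := {x | ∃ h : x ∈ L1, π ⟨x, h⟩ ∈ M'}
  add_mem' := by
    rintro a b ⟨ha, ha'⟩ ⟨hb, hb'⟩
    refine ⟨L1.add_mem ha hb, ?_⟩
    have h1 := M'.add_mem ha' hb'
    rw [← map_add] at h1
    exact h1
  zero_mem' := by
    refine ⟨L1.zero_mem, ?_⟩
    have h1 : π ⟨0, L1.zero_mem⟩ = 0 := map_zero π
    rw [h1]
    exact M'.zero_mem
  smul_mem' := by
    rintro c a ⟨ha, ha'⟩
    refine ⟨L1.smul_mem c ha, ?_⟩
    have h1 := M'.smul_mem c ha'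
    rw [← map_smul] at h1
    exact h1
  lie_mem' := by
    rintro a b ⟨ha, ha'⟩ ⟨hb, hb'⟩
    refine ⟨L1.lie_mem ha hb, ?_⟩
    have h1 := M'.lie_mem ha' hb'
    rw [← LieHom.map_lie] at h1
    exact h1

/-- the homomorphism from the preimage -/
private def preHom (L1 : LieSubalgebra k L) (π : L1 →ₗ⁅k⁆ L') (M' : LieSubalgebra k L') :
    preM L1 π M' →ₗ⁅k⁆ M' where
  toFun x := ⟨π ⟨x, x.2.choose⟩, x.2.choose_spec⟩
  map_add' x y := Subtype.ext (map_add π ⟨x, x.2.choose⟩ ⟨y, y.2.choose⟩)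
  map_smul' c x := Subtype.ext (map_smul π c ⟨x, x.2.choose⟩)
  map_lie' := by
    intro x y
    exact Subtype.ext (LieHom.map_lie π ⟨x, x.2.choose⟩ ⟨y, y.2.choose⟩)

theorem hg_sec {p : ℕ} (h : HG p k L) (L1 : LieSubalgebra k L) (π : L1 →ₗ⁅k⁆ L')
    (hπ : Function.Surjective π) : HG p k L' := by
  intro M' P _ _ π' hπ' N hN
  refine h (preM L1 π M') P (π'.comp (preHom L1 π M')) ?_ N hN
  intro y
  obtain ⟨m, rfl⟩ := hπ' y
  obtain ⟨x, hx⟩ := hπ (m : L')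
  refine ⟨⟨x, x.2, ?_⟩, ?_⟩
  · have h1 : π ⟨(x : L), x.2⟩ = (m : L') := hx
    rw [h1]
    exact m.2
  · rw [LieHom.comp_apply]
    congr 1
    exact Subtype.ext hx

end Pool.Agent.SkH
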