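import Pool.Agent.Lib.SkH.Defs
import Pool.Agent.Lib.SkG.Even

/-!
# Module StrH: applying the condition `HG` to `L` and to `C(z)/H`

`hg_top`: `HG` for `M = ⊤`, `P = L`, `π = ⊤.incl` (or the inverse of `LieSubalgebra.topEquiv`), `N = ⊤`: `NoAb` from `hno`.  `N = ⊥` gives `finrank L = 0`, `Odd (finrank ⊤)` gives `Odd (finrank L)`, Killing: transport along
`LieIdeal.topEquiv`-type isomorphism `(⊤ : LieIdeal k L) ≃ₗ⁅k⁆ L` (`LieAlgebra.isKilling_of_equiv`).
`hg_cz`: `M = ⊤`, `P = L ⧸ H`, `π` the quotient map, `N` = the image of `C(z)` (an ideal: `⁅y, z⁆ = c z` and `⁅x, z⁆ = 0` give `⁅⁅y,x⁆, z⁆ = 0`).  `NoAb k N`: an abelian ideal `A ≤ N` of `P`; its preimage `A'` in `L`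
is an ideal, `⁅a, z⁆ = 0` for `a ∈ A'` (as `A' ≤ C(z) + H = C(z)`), `⁅A', A'⁆ ≤ H`, so `A' ≤ H` by `hcore`, so `A = ⊥`.  `N = ⊥`: `C(z) ≤ H`.
`Odd (finrank N)`: `finrank N = finrank C(z) - finrank H`, `finrank L = finrank C(z) + 1` (the map `y ↦ χ ⁅y, z⁆` is onto `k` with kernel `C(z)`, by `eig`, `ex_T`, `χz`; see SkH/Zsp `finrank_cz`), `odd_H`: so `finrank L` is odd:
excluded by `heven`.  Killing: `K = N`, `KQ`: `π : cz z → N`, `x ↦ ⟨mk x, _⟩`.
-/

namespace Pool.Agent.SkH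

open Module Pool.Agent.SkG
open Pool.Agent.SkS (Irr Nondeg rs fs InR NoTor AbOne RedData)

variable {k L : Type} [Field k] [LieRing L] [LieAlgebra k L] [FiniteDimensional k L]

theorem hg_top {p : ℕ} (h : HG p k L) (heven : Even (finrank k L))
    (hno : ∀ M : LieIdeal k L, (∀ x ∈ M, ∀ y ∈ M, ⁅x, y⁆ = 0) → ∀ x ∈ M, x = 0) :
    finrank k L = 0 ∨ (p ≠ 2 ∧ LieAlgebra.IsKilling k L) := by
  have hfin : finrank k (⊤ : LieIdeal k L) = finrank k L :=
    (LieIdeal.topEquiv (R := k) (L := L)).toLinearEquiv.finrank_eq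
  rcases h ⊤ L (LieSubalgebra.topEquiv (R := k) (L := L)).toLieHom
    (LieSubalgebra.topEquiv (R := k) (L := L)).surjective ⊤ (fun A _ hA => by
      rw [LieSubmodule.eq_bot_iff]
      exact hno A hA) with h1 | h1 | ⟨h1, h2⟩
  · left
    have h3 : finrank k (⊥ : LieIdeal k L) = 0 := finrank_zero_of_subsingleton
    rw [← hfin, h1, h3]
  · exfalso
    rw [hfin] at h1
    exact (Nat.not_odd_iff_even.mpr heven) h1
  · right
    exact ⟨h1, @LieAlgebra.isKilling_of_equiv k _ _ _ _ _ _ _ h2 LieIdeal.topEquiv⟩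

private theorem finrank_cz' {f : L → L} {χ : Dual k L} {z : L} {H : LieIdeal k L}
    (hc : Cfg f χ z H) : finrank k (cz z : LieSubalgebra k L) + 1 = finrank k L := by
  let μ : L →ₗ[k] k :=
    { toFun := fun y => χ ⁅y, z⁆
      map_add' := by intro x y; rw [add_lie, map_add]
      map_smul' := by intro c x; rw [smul_lie, map_smul, RingHom.id_apply] }
  have hker : LinearMap.ker μ = (cz z : LieSubalgebra k L).toSubmodule := by
    ext y
    rw [LinearMap.mem_ker]
    change χ ⁅y, z⁆ = 0 ↔ ⁅y, z⁆ = 0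
    constructor
    · intro h
      obtain ⟨c, hcz⟩ := hc.eig y
      rw [hcz, map_smul, hc.χz, smul_eq_mul, mul_one] at h
      rw [hcz, h, zero_smul]
    · intro h
      rw [h, map_zero]
  have hrange : LinearMap.range μ = ⊤ := by
    rw [LinearMap.range_eq_top]
    obtain ⟨T, hT⟩ := hc.ex_T
    intro c
    refine ⟨c • T, ?_⟩
    change χ ⁅c • T, z⁆ = c
    rw [smul_lie, hT, map_smul, hc.χz, smul_eq_mul, mul_one]
  have h1 := LinearMap.finrank_range_add_finrank_ker μ
  rw [hrange, finrank_top, finrank_self, hker] at h1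
  have h2 : finrank k (cz z : LieSubalgebra k L).toSubmodule =
    finrank k (cz z : LieSubalgebra k L) := rfl
  omega

/-- the quotient map as a Lie algebra morphism -/
private noncomputable def qm (H : LieIdeal k L) : L →ₗ⁅k⁆ (L ⧸ H) where
  toFun x := LieSubmodule.Quotient.mk x
  map_add' _ _ := rfl
  map_smul' _ _ := rfl
  map_lie' {x y} := LieSubmodule.Quotient.mk_bracket H x y

omit [FiniteDimensional k L] in
private lemma qm_surj (H : LieIdeal k L) : Function.Surjective (qm H) := by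
  intro y
  obtain ⟨x, hx⟩ := LieSubmodule.Quotient.surjective_mk' H y
  exact ⟨x, hx⟩

omit [FiniteDimensional k L] in
private lemma qm_zero (H : LieIdeal k L) (x : L) : qm H x = 0 ↔ x ∈ H :=
  LieSubmodule.Quotient.mk_eq_zero'

/-- the image of the centraliser of `z` in `L ⧸ H` -/
private noncomputable def NN (z : L) (H : LieIdeal k L) (heig : ∀ y : L, ∃ c : k, ⁅y, z⁆ = c • z) :
    LieIdeal k (L ⧸ H) where
  carrier := {y | ∃ x : L, ⁅x, z⁆ = 0 ∧ qm H x = y}
  add_mem' := by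
    rintro _ _ ⟨x, hx, rfl⟩ ⟨y, hy, rfl⟩
    exact ⟨x + y, by rw [add_lie, hx, hy, add_zero], map_add _ _ _⟩
  zero_mem' := ⟨0, zero_lie z, map_zero _⟩
  smul_mem' := by
    rintro c _ ⟨x, hx, rfl⟩
    exact ⟨c • x, by rw [smul_lie, hx, smul_zero], map_smul _ _ _⟩
  lie_mem := by
    rintro y _ ⟨x, hx, rfl⟩
    obtain ⟨y', rfl⟩ := qm_surj H y
    refine ⟨⁅y', x⁆, ?_, LieHom.map_lie _ _ _⟩
    obtain ⟨c, hc⟩ := heig y'
    rw [lie_lie, hx, lie_zero, zero_sub, hc, lie_smul, hx, smul_zero, neg_zero]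

omit [FiniteDimensional k L] in
private lemma mem_NN (z : L) (H : LieIdeal k L) (heig : ∀ y : L, ∃ c : k, ⁅y, z⁆ = c • z)
    (y : L ⧸ H) : y ∈ NN z H heig ↔ ∃ x : L, ⁅x, z⁆ = 0 ∧ qm H x = y := Iff.rfl

/-- the map `C(z) → C(z)/H` -/
private noncomputable def ψ (z : L) (H : LieIdeal k L) (heig : ∀ y : L, ∃ c : k, ⁅y, z⁆ = c • z) :
    (cz z : LieSubalgebra k L) →ₗ⁅k⁆ NN z H heig where
  toFun x := ⟨qm H (x : L), x, x.2, rfl⟩
  map_add' _ _ := rfl
  map_smul' _ _ := rfl
  map_lie' {x y} := by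
    apply Subtype.ext
    exact LieHom.map_lie (qm H) (x : L) (y : L)

omit [FiniteDimensional k L] in
private lemma ψ_surj (z : L) (H : LieIdeal k L) (heig : ∀ y : L, ∃ c : k, ⁅y, z⁆ = c • z) :
    Function.Surjective (ψ z H heig) := by
  rintro ⟨_, x, hx, rfl⟩
  exact ⟨⟨x, hx⟩, rfl⟩

omit [FiniteDimensional k L] in
private lemma ψ_zero (z : L) (H : LieIdeal k L) (heig : ∀ y : L, ∃ c : k, ⁅y, z⁆ = c • z)
    (x : (cz z : LieSubalgebra k L)) : ψ z H heig x = 0 ↔ (x : L) ∈ H := by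
  rw [← qm_zero H (x : L)]
  exact ⟨fun h => congrArg Subtype.val h, fun h => Subtype.ext h⟩

theorem hg_cz {p : ℕ} (h : HG p k L) (heven : Even (finrank k L)) {f : L → L} {χ : Dual k L}
    {z : L} {H : LieIdeal k L} (hc : Cfg f χ z H)
    (hcore : ∀ A : LieIdeal k L, (∀ a ∈ A, ⁅a, z⁆ = 0) → (∀ a ∈ A, ∀ b ∈ A, ⁅a, b⁆ ∈ H) → A ≤ H) :
    (∀ x : L, ⁅x, z⁆ = 0 → x ∈ H) ∨ (p ≠ 2 ∧ ∃ (K : Type) (_ : LieRing K) (_ : LieAlgebra k K)
      (_ : KQ z H K), FiniteDimensional k K ∧ LieAlgebra.IsKilling k K) := by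
  have hab : NoAb k (NN z H hc.eig) := by
    intro A hA hAA
    let A' : LieIdeal k L :=
      { carrier := {x | qm H x ∈ A}
        add_mem' := by
          intro a b ha hb
          change qm H (a + b) ∈ A
          rw [map_add]
          exact A.add_mem ha hb
        zero_mem' := by
          change qm H 0 ∈ A
          rw [map_zero]
          exact A.zero_mem
        smul_mem' := by
          intro c a ha
          change qm H (c • a) ∈ A
          rw [map_smul]
          exact A.smul_mem c ha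
        lie_mem := by
          intro x m hm
          change qm H ⁅x, m⁆ ∈ A
          rw [LieHom.map_lie]
          exact lie_mem_right k (L ⧸ H) A _ _ hm }
    have hA' : ∀ x, x ∈ A' ↔ qm H x ∈ A := fun x => Iff.rfl
    have hle : A' ≤ H := by
      apply hcore
      · intro a ha
        obtain ⟨x, hx, hxa⟩ := (mem_NN z H hc.eig _).mp (hA ((hA' a).mp ha))
        have h1 : a - x ∈ H := by
          rw [← qm_zero, map_sub, hxa, sub_self]
        have h2 := hc.H_cent _ h1
        rw [sub_lie, hx, sub_zero] at h2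
        exact h2
      · intro a ha b hb
        rw [← qm_zero, LieHom.map_lie]
        exact hAA _ ((hA' a).mp ha) _ ((hA' b).mp hb)
    rw [LieSubmodule.eq_bot_iff]
    intro y hy
    obtain ⟨x, rfl⟩ := qm_surj H y
    exact (qm_zero H x).mpr (hle ((hA' x).mpr hy))
  rcases h ⊤ (L ⧸ H) ((qm H).comp (LieSubalgebra.topEquiv (R := k) (L := L)).toLieHom)
    ((qm_surj H).comp (LieSubalgebra.topEquiv (R := k) (L := L)).surjective) (NN z H hc.eig) hab
    with h1 | h1 | ⟨h1, h2⟩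
  · left
    intro x hx
    have h2 : qm H x ∈ NN z H hc.eig := ⟨x, hx, rfl⟩
    rw [h1, LieSubmodule.mem_bot] at h2
    exact (qm_zero H x).mp h2
  · exfalso
    have h3 := finrank_cz' hc
    have h4 := odd_H hc
    let Ψ : (cz z : LieSubalgebra k L) →ₗ[k] NN z H hc.eig := (ψ z H hc.eig).toLinearMap
    have h5 := LinearMap.finrank_range_add_finrank_ker Ψ
    have h6 : LinearMap.range Ψ = ⊤ := LinearMap.range_eq_top.mpr (ψ_surj z H hc.eig)
    rw [h6, finrank_top] at h5
    have h7 : finrank k (LinearMap.ker Ψ) = finrank k H := by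
      let e : (LinearMap.ker Ψ) →ₗ[k] H :=
        { toFun := fun x => ⟨((x : (cz z : LieSubalgebra k L)) : L),
            (ψ_zero z H hc.eig x).mp (LinearMap.mem_ker.mp x.2)⟩
          map_add' := fun _ _ => rfl
          map_smul' := fun _ _ => rfl }
      apply LinearEquiv.finrank_eq
      refine LinearEquiv.ofBijective e ⟨?_, ?_⟩
      · intro x y hxy
        have h8 : ((x : (cz z : LieSubalgebra k L)) : L) = ((y : (cz z : LieSubalgebra k L)) : L) :=
          congrArg (fun w : H => (w : L)) hxy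
        exact Subtype.ext (Subtype.ext h8)
      · rintro ⟨x, hx⟩
        exact ⟨⟨⟨x, hc.H_cent x hx⟩, (ψ_zero z H hc.eig _).mpr hx⟩, rfl⟩
    rw [h7] at h5
    obtain ⟨a, ha⟩ := h1
    obtain ⟨b, hb⟩ := h4
    obtain ⟨c, hcc⟩ := heven
    omega
  · right
    refine ⟨h1, NN z H hc.eig, inferInstance, inferInstance,
      { π := ψ z H hc.eig
        surj := ψ_surj z H hc.eig
        ker := ψ_zero z H hc.eig }, inferInstance, h2⟩

end Pool.Agent.SkH
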