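import Pool.Agent.Lib.SkG.Main
import Pool.Agent.Lib.SkH.CaseA
import Pool.Agent.Lib.SkH.CaseBn
import Pool.Agent.Lib.SkH.CaseBi
import Pool.Agent.Lib.SkH.StrH
import Pool.Agent.Lib.SkH.Sec
import Pool.Agent.Lib.SkH.HRcl
import Pool.Agent.Lib.SkH.HRHG

/-!
# Main (part 3): the two inductions and the final theorem
-/

namespace Pool.Agent.SkH

open Module Pool.Agent.SkG
open Pool.Agent.SkS (Irr Nondeg rs fs InR NoTor AbOne RedData)

section

variable {k L : Type} [Field k] {p : ℕ} [Fact p.Prime] [CharP k p] [LieRing L] [LieAlgebra k L]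
  [FiniteDimensional k L]

/-- the structure theorem -/
lemma structure_two [IsAlgClosed k] (h3 : HG p k L) {f : L → L} (hf : Rst p k f) (hab : AbOne k L)
    (hcen : ∀ c : L, (∀ y : L, ⁅c, y⁆ = 0) → c = 0) (χ : Dual k L)
    (hnd : ∀ M : LieIdeal k L, (∀ x ∈ M, ∀ y ∈ M, ⁅x, y⁆ = 0) →
      ∀ m ∈ M, (∀ y : L, χ ⁅y, m⁆ = 0) → m = 0)
    (hT : ∀ (z : L) (H : LieIdeal k L), Cfg f χ z H → NoTor f χ z H)
    (hKA : p ≠ 2 → LieAlgebra.IsKilling k L → finrank k L = 0)
    (hKB : ∀ (z : L) (H : LieIdeal k L), Cfg f χ z H → p ≠ 2 → ∀ (K : Type) [LieRing K]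
      [LieAlgebra k K] [FiniteDimensional k K] (_ : KQ z H K), LieAlgebra.IsKilling k K →
      ∀ x : L, ⁅x, z⁆ = 0 → x ∈ H)
    (heven : Even (finrank k L)) :
    finrank k L = 0 ∨ ∃ z T : L, χ z = 1 ∧ f z = 0 ∧ ⁅T, z⁆ = z ∧
      ∀ x : L, ∃ a b : k, x = a • T + b • z := by
  by_cases hno : ∀ M : LieIdeal k L, (∀ x ∈ M, ∀ y ∈ M, ⁅x, y⁆ = 0) → ∀ x ∈ M, x = 0
  · rcases hg_top h3 heven hno with h | ⟨hp2, h⟩
    · exact Or.inl h
    · exact Or.inl (hKA hp2 h)
  · push Not at hno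
    obtain ⟨M, hM, z1, hz1, hz10⟩ := hno
    obtain ⟨z, H, hc⟩ := exists_cfg hf hab hcen χ hnd M hM z1 hz1 hz10
    have h0 : ∀ x : L, ⁅x, z⁆ = 0 → x ∈ H := by
      rcases hg_cz h3 heven hc (fun A hAz hAA => core hf hab hc (hT z H hc) A hAz hAA) with
        h | ⟨hp2, K, _, _, D, _, hK⟩
      · exact h
      · exact hKB z H hc hp2 K D hK
    obtain ⟨T, hTz, hs⟩ := two_dim hab hc h0
    exact Or.inr ⟨z, T, hc.χz, hc.fz, hTz, hs⟩

theorem big_of_nondeg [IsAlgClosed k] : ∀ (n : ℕ) (L : Type) [LieRing L] [LieAlgebra k L]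
    [FiniteDimensional k L] (_ : HG p k L) (f : L → L) (χ : Dual k L),
    finrank k L = n → Frz p k f → Nondeg χ → Big p f χ := by
  intro n
  induction n using Nat.strong_induction_on with
  | _ n ih =>
  intro L _ _ _ h3 f χ hn hfz hχ
  have hf := rst_of_frz hfz
  have hcen : ∀ c : L, (∀ y : L, ⁅c, y⁆ = 0) → c = 0 := by
    intro c hc
    apply hχ
    intro y
    rw [hc, map_zero]
  have hnd : ∀ m : L, (∀ y : L, χ ⁅y, m⁆ = 0) → m = 0 := by
    intro m hm
    apply hχ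
    intro y
    rw [← lie_skew, map_neg, hm, neg_zero]
  by_cases hab : AbOne k L
  · rcases structure_two h3 hf hab hcen χ (fun M _ m _ hy => hnd m hy)
      (fun z H hc => noTor_of_nondeg hf hχ hc) (fun _ hK => caseA_nondeg hK hχ)
      (fun z H hc _ K _ _ _ D hK => caseB_nondeg hχ hc D hK) (even_of_nondeg hχ) with h0 | ⟨z, T, hχz, hfz0, hTz, hs⟩
    · intro V _ _ _ ρ _ hirr
      rw [h0, pow_zero]
      have := hirr.1
      have : 0 < finrank k V := finrank_pos
      nlinarith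
    · exact base_big hχz hfz0 hTz hs
  · unfold AbOne at hab
    push Not at hab
    obtain ⟨M, hM, hM2⟩ := hab
    have hnd' : ∀ m ∈ M, (∀ y : L, χ ⁅y, m⁆ = 0) → m = 0 := fun m _ => hnd m
    obtain ⟨hfM, ⟨z0, hz0, hχ0⟩, K, hK, hK1⟩ := ideal_data hf χ hcen M hM hM2 hnd'
    obtain ⟨L', _, _, f', χ', D, hf', hfin', hdim, -, hN, -⟩ :=
      red0 hfz χ M hM hfM hnd' K hK
    have hsol' : HG p k L' := hg_sec h3 D.L1 D.π D.surj
    intro V _ _ _ ρ hρ hirr
    have hlt : finrank k L' < n := by omega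
    have hbig := ih _ hlt L' hsol' f' χ' rfl hf' (hN hχ)
    obtain ⟨W, ρ', hW0, hWK, hρ', hirr', -⟩ := redRep ρ hρ hirr.1 K
      (fun x hx y hy => hM x ((hK x).1 hx).1 y ((hK y).1 hy).1)
      (fun m hm => hfM m ((hK m).1 hm).1) (fun m hm => ((hK m).1 hm).2) D
    have h1 := hbig W ρ' hρ' hirr'
    let V0 : Submodule k V :=
      { carrier := {v | ∀ m ∈ K, ρ m v = 0}
        add_mem' := by
          intro a b ha hb m hm
          rw [map_add, ha m hm, hb m hm, add_zero]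
        zero_mem' := by
          intro m _
          rw [map_zero]
        smul_mem' := by
          intro c a ha m hm
          rw [map_smul, ha m hm, smul_zero] }
    have h2 := low ρ hρ M hM hfM z0 hz0 hχ0 hnd' K hK V0 (fun v => Iff.rfl)
    have h3' : finrank k W ≤ finrank k V0 := Submodule.finrank_mono hWK
    have h4 : p ^ finrank k K * finrank k W ≤ finrank k V :=
      (Nat.mul_le_mul_left _ h3').trans h2
    calc p ^ finrank k L = (p ^ finrank k K) ^ 2 * p ^ finrank k L' := by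
          rw [← hdim, pow_add, ← pow_mul, mul_comm 2 (finrank k K), mul_comm]
      _ ≤ (p ^ finrank k K) ^ 2 * finrank k W ^ 2 := Nat.mul_le_mul_left _ h1
      _ = (p ^ finrank k K * finrank k W) ^ 2 := by rw [mul_pow]
      _ ≤ finrank k V ^ 2 := Nat.pow_le_pow_left h4 2

theorem nondeg_of_irr [IsAlgClosed k] : ∀ (n : ℕ) (L : Type) [LieRing L] [LieAlgebra k L]
    [FiniteDimensional k L] (_ : HG p k L) (f : L → L) (χ : Dual k L)
    (V : Type) [AddCommGroup V] [Module k V] [FiniteDimensional k V] (ρ : L →ₗ[k] End k V),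
    finrank k L = n → Frz p k f → Rep p f χ ρ → Irr ρ → p ^ finrank k L ≤ finrank k V ^ 2 →
    Nondeg χ := by
  intro n
  induction n using Nat.strong_induction_on with
  | _ n ih =>
  intro L _ _ _ h3 f χ V _ _ _ ρ hn hfz hρ hirr hd
  have hf := rst_of_frz hfz
  have hcen : ∀ c : L, (∀ y : L, ⁅c, y⁆ = 0) → c = 0 := center_zero ρ hρ hirr hd
  have hnd : ∀ M : LieIdeal k L, (∀ x ∈ M, ∀ y ∈ M, ⁅x, y⁆ = 0) →
      ∀ m ∈ M, (∀ y : L, χ ⁅y, m⁆ = 0) → m = 0 := fun M hM m hm hy => G2 hf ρ hρ hirr hd M hM m hm hy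
  by_cases hab : AbOne k L
  · rcases structure_two h3 hf hab hcen χ hnd
      (fun z H hc => noTor_of_irr hf ρ hρ hirr hd hc) (fun hp2 hK => caseA_irr hp2 hK ρ hρ hirr hd)
      (fun z H hc hp2 K _ _ _ D hK => caseB_irr hp2 hf ρ hρ hirr hd hc D hK)
      (even_of_irr ρ hρ hirr hd) with
      h0 | ⟨z, T, hχz, hfz0, hTz, hs⟩
    · intro x _
      have := finrank_zero_iff.mp h0
      exact Subsingleton.elim _ _
    · exact base_nondeg hχz hTz hs
  · unfold AbOne at hab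
    push Not at hab
    obtain ⟨M, hM, hM2⟩ := hab
    have hnd' := hnd M hM
    obtain ⟨hfM, ⟨z0, hz0, hχ0⟩, K, hK, hK1⟩ := ideal_data hf χ hcen M hM hM2 hnd'
    obtain ⟨L', _, _, f', χ', D, hf', hfin', hdim, hdim1, -, hN⟩ :=
      red0 hfz χ M hM hfM hnd' K hK
    have hsol' : HG p k L' := hg_sec h3 D.L1 D.π D.surj
    apply hN
    have hlt : finrank k L' < n := by omega
    obtain ⟨W, ρ', hW0, hWK, hρ', hirr', hact⟩ := redRep ρ hρ hirr.1 K
      (fun x hx y hy => hM x ((hK x).1 hx).1 y ((hK y).1 hy).1)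
      (fun m hm => hfM m ((hK m).1 hm).1) (fun m hm => ((hK m).1 hm).2) D
    have hst : ∀ x ∈ D.L1.toSubmodule, ∀ w ∈ W, ρ x w ∈ W := by
      intro x hx w hw
      have := hact ⟨x, hx⟩ ⟨w, hw⟩
      rw [← this]
      exact Subtype.property _
    have h1 := gen_irr ρ hρ hirr D.L1.toSubmodule W hW0 hst
    have h2 : finrank k L - finrank k D.L1.toSubmodule = finrank k K := by
      have : finrank k D.L1.toSubmodule = finrank k D.L1 := rfl
      omega
    rw [h2] at h1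
    refine ih _ hlt L' hsol' f' χ' W ρ' rfl hf' hρ' hirr' ?_
    have h3 : p ^ finrank k L ≤ (p ^ finrank k K * finrank k W) ^ 2 :=
      hd.trans (Nat.pow_le_pow_left h1 2)
    rw [← hdim, pow_add, mul_pow, ← pow_mul, mul_comm (finrank k K) 2, mul_comm] at h3
    have hp : 0 < p := (Fact.out : p.Prime).pos
    exact Nat.le_of_mul_le_mul_left h3 (by positivity)

end

/-- Skryabin's equivalence under the condition on sections -/
theorem main_hg (k : Type) [Field k] [IsAlgClosed k] (p : ℕ) [Fact p.Prime] [CharP k p] (L : Type)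
    [LieRing L] [LieAlgebra k L] [FiniteDimensional k L] (h3 : HG p k L) (f : L → L)
    (h : Frz p k f) (χ : Dual k L) : IsSimpleRing (UU p f χ) ↔ Nondeg χ := by
  constructor
  · intro hs
    obtain ⟨V, _, _, _, ρ, hρ, hirr, hd⟩ := good_of_simple h χ hs
    exact nondeg_of_irr _ L h3 f χ V ρ rfl h hρ hirr hd
  · intro hχ
    exact simple_of_big h χ (big_of_nondeg _ L h3 f χ rfl h hχ)

/-- Skryabin's equivalence for the class with small factors, `p ≠ 2` -/
theorem main_small (k : Type) [Field k] [IsAlgClosed k] (p : ℕ) [Fact p.Prime] [CharP k p]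
    (hp2 : p ≠ 2) (L : Type) [LieRing L] [LieAlgebra k L] [FiniteDimensional k L] (m : ℕ)
    (S : Fin m → Type) [∀ i, LieRing (S i)] [∀ i, LieAlgebra k (S i)]
    (hS : ∀ i, SmallAlg p k (S i)) (φ : ∀ i, L →ₗ⁅k⁆ S i) (I : LieIdeal k L)
    (hI : LieAlgebra.IsSolvable I) (hker : ∀ x : L, (∀ i, φ i x = 0) → x ∈ I) (f : L → L)
    (h : Frz p k f) (χ : Dual k L) : IsSimpleRing (UU p f χ) ↔ Nondeg χ :=
  main_hg k p L (hg_of_hr hp2 (hr_of_small m S hS φ I hI hker)) f h χ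

end Pool.Agent.SkH
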