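import Pool.Agent.Lib.SkH.Defs

/-!
# Module Quad: the quadratic elements (Weil representation), characteristic `≠ 2`

Basis `e_i` of `Hs` and dual basis `e'_i` with `ω (e_i) (e'_j) = δ_ij` (`ω` nondegenerate: `LinearMap.BilinForm.dualBasis` or by hand); for all `h`:
 `h = Σ_i ω h (e'_i) • e_i` and `h = Σ_i ω (e_i) h • e'_i`.   `q τ = -(1/2) Σ_i r (τ e_i) * r (e'_i)`, linear in `τ`.
(1) `[q τ, r h] = -(1/2) Σ (r (τ e_i) ω(e'_i, h) + ω(τ e_i, h) r (e'_i))`; `Σ ω(e'_i, h) e_i = -h`; `ω(τ e_i, h) = -ω(e_i, τ h)` and `Σ ω(e_i, τ h) e'_i = τ h`: total `r (τ h)`.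
(2) `Σ_i e_i ⊗ τ' e'_i = - Σ_i τ' e_i ⊗ e'_i`: as bilinear expressions, for all linear `F, G : Hs → End`: `Σ_i F e_i * G (τ' e'_i) = - Σ_i F (τ' e_i) * G e'_i`
   (expand `τ' e'_i = Σ_j ω(e_j, τ' e'_i) e'_j = - Σ_j ω(τ' e_j, e'_i) e'_j` and `Σ_i ω(τ' e_j, e'_i) e_i = τ' e_j`).
   `X (r(τ e_i) r(e'_i)) - (r(τ e_i) r(e'_i)) X = r(τ' τ e_i) r(e'_i) + r(τ e_i) r(τ' e'_i)`; sum and use (2) with `F = r ∘ τ`, `G = r`.
-/

set_option autoImplicit false

namespace Pool.Agent.SkH

open Module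

variable {k V Hs : Type} [Field k] [AddCommGroup V] [Module k V] [AddCommGroup Hs] [Module k Hs]
  [FiniteDimensional k Hs]

private theorem quad_basis (ω : Hs →ₗ[k] Hs →ₗ[k] k)
    (halt : ∀ a : Hs, ω a a = 0) (hnd : ∀ a : Hs, (∀ b : Hs, ω a b = 0) → a = 0) :
    ∃ (n : ℕ) (e d : Fin n → Hs), (∀ h, h = ∑ i, ω h (d i) • e i) ∧
      (∀ h, h = ∑ i, ω (e i) h • d i) := by
  classical
  have hsk : ∀ a b, ω a b = - ω b a := by
    intro a b
    have h1 := halt (a + b)
    simp only [map_add, LinearMap.add_apply, halt, zero_add, add_zero] at h1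
    exact eq_neg_of_add_eq_zero_right h1
  have hB : LinearMap.BilinForm.Nondegenerate ω := by
    refine ⟨fun a h => hnd a h, fun a h => hnd a (fun b => ?_)⟩
    rw [hsk, h b, neg_zero]
  let b := Module.finBasis k Hs
  let c := LinearMap.BilinForm.dualBasis ω hB b
  have hc : ∀ i j, ω (c i) (b j) = if j = i then 1 else 0 :=
    fun i j => LinearMap.BilinForm.apply_dualBasis_left hB b i j
  refine ⟨_, b, fun i => - c i, fun h => ?_, fun h => ?_⟩
  · have h1 : ∀ j, ω h (- c j) = b.repr h j := by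
      intro j
      rw [map_neg, hsk, neg_neg]
      conv_lhs => rw [← b.sum_repr h]
      rw [map_sum]
      simp only [map_smul, smul_eq_mul, hc]
      simp
    conv_lhs => rw [← b.sum_repr h]
    exact Finset.sum_congr rfl (fun i _ => by rw [h1])
  · have h1 : ∀ j, c.repr h j = ω h (b j) :=
      fun j => LinearMap.BilinForm.dualBasis_repr_apply hB b h j
    conv_lhs => rw [← c.sum_repr h]
    refine Finset.sum_congr rfl (fun i _ => ?_)
    rw [h1, hsk, smul_neg, neg_smul]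

theorem exists_q (h2 : (2 : k) ≠ 0) (r : Hs →ₗ[k] End k V) (ω : Hs →ₗ[k] Hs →ₗ[k] k)
    (hω : ∀ a b : Hs, r a * r b - r b * r a = algebraMap k (End k V) (ω a b))
    (halt : ∀ a : Hs, ω a a = 0) (hnd : ∀ a : Hs, (∀ b : Hs, ω a b = 0) → a = 0) :
    ∃ q : (Hs →ₗ[k] Hs) →ₗ[k] End k V, (∀ τ, q τ ∈ Algebra.adjoin k (Set.range r)) ∧
      (∀ τ : Hs →ₗ[k] Hs, (∀ a b, ω (τ a) b + ω a (τ b) = 0) →
        ∀ h, q τ * r h - r h * q τ = r (τ h)) ∧
      (∀ (τ τ' : Hs →ₗ[k] Hs) (X : End k V), (∀ a b, ω (τ' a) b + ω a (τ' b) = 0) →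
        (∀ h, X * r h - r h * X = r (τ' h)) →
        X * q τ - q τ * X = q (τ' ∘ₗ τ - τ ∘ₗ τ')) := by
  classical
  obtain ⟨n, e, d, he, hd⟩ := quad_basis ω halt hnd
  have hsk : ∀ a b, ω a b = - ω b a := by
    intro a b
    have h1 := halt (a + b)
    simp only [map_add, LinearMap.add_apply, halt, zero_add, add_zero] at h1
    exact eq_neg_of_add_eq_zero_right h1
  let q : (Hs →ₗ[k] Hs) →ₗ[k] End k V :=
    (-(2 : k)⁻¹) • ∑ i, (LinearMap.mulRight k (r (d i))) ∘ₗ r ∘ₗ (LinearMap.applyₗ (e i))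
  have hq : ∀ τ, q τ = (-(2 : k)⁻¹) • ∑ i, r (τ (e i)) * r (d i) := by
    intro τ
    simp [q]
  refine ⟨q, fun τ => ?_, fun τ hτ h => ?_, fun τ τ' X hτ' hX => ?_⟩
  · rw [hq]
    refine Subalgebra.smul_mem _ (Subalgebra.sum_mem _ (fun i _ => ?_)) _
    exact Subalgebra.mul_mem _ (Algebra.subset_adjoin ⟨_, rfl⟩) (Algebra.subset_adjoin ⟨_, rfl⟩)
  · rw [hq, smul_mul_assoc, mul_smul_comm, ← smul_sub, Finset.sum_mul, Finset.mul_sum,
      ← Finset.sum_sub_distrib]
    have h1 : ∀ i, r (τ (e i)) * r (d i) * r h - r h * (r (τ (e i)) * r (d i))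
        = ω (d i) h • r (τ (e i)) + ω (τ (e i)) h • r (d i) := by
      intro i
      have a1 := hω (d i) h
      have a2 := hω (τ (e i)) h
      rw [Algebra.algebraMap_eq_smul_one] at a1 a2
      have a3 : r (d i) * r h = r h * r (d i) + ω (d i) h • 1 := by rw [← a1]; abel
      have a4 : r (τ (e i)) * r h = r h * r (τ (e i)) + ω (τ (e i)) h • 1 := by rw [← a2]; abel
      rw [mul_assoc, a3, mul_add, ← mul_assoc, a4, add_mul, mul_smul_comm, mul_one,
        smul_mul_assoc, one_mul, mul_assoc]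
      abel
    rw [Finset.sum_congr rfl (fun i _ => h1 i), Finset.sum_add_distrib]
    have h3 : ∑ i, ω (d i) h • r (τ (e i)) = - r (τ h) := by
      conv_rhs => rw [he h]
      simp only [map_sum, map_smul]
      rw [← Finset.sum_neg_distrib]
      refine Finset.sum_congr rfl (fun i _ => ?_)
      rw [hsk, neg_smul]
    have h4 : ∑ i, ω (τ (e i)) h • r (d i) = - r (τ h) := by
      conv_rhs => rw [hd (τ h)]
      simp only [map_sum, map_smul]
      rw [← Finset.sum_neg_distrib]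
      refine Finset.sum_congr rfl (fun i _ => ?_)
      rw [eq_neg_of_add_eq_zero_left (hτ (e i) h), neg_smul]
    rw [h3, h4, ← two_smul k, smul_smul, smul_neg]
    have h5 : -(2 : k)⁻¹ * 2 = -1 := by
      rw [neg_mul, inv_mul_cancel₀ h2]
    rw [h5, neg_smul, one_smul, neg_neg]
  · have hswap : ∀ F G : Hs →ₗ[k] End k V,
        ∑ i, F (e i) * G (τ' (d i)) = - ∑ i, F (τ' (e i)) * G (d i) := by
      intro F G
      have s1 : ∀ i, F (e i) * G (τ' (d i))
          = ∑ j, (ω (e j) (τ' (d i))) • (F (e i) * G (d j)) := by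
        intro i
        conv_lhs => rw [hd (τ' (d i))]
        rw [map_sum, Finset.mul_sum]
        exact Finset.sum_congr rfl (fun j _ => by rw [map_smul, mul_smul_comm])
      have s2 : ∀ j, F (τ' (e j)) * G (d j)
          = ∑ i, (ω (τ' (e j)) (d i)) • (F (e i) * G (d j)) := by
        intro j
        conv_lhs => rw [he (τ' (e j))]
        rw [map_sum, Finset.sum_mul]
        exact Finset.sum_congr rfl (fun i _ => by rw [map_smul, smul_mul_assoc])
      rw [Finset.sum_congr rfl (fun i _ => s1 i), Finset.sum_congr rfl (fun i _ => s2 i),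
        Finset.sum_comm, ← Finset.sum_neg_distrib]
      refine Finset.sum_congr rfl (fun j _ => ?_)
      rw [← Finset.sum_neg_distrib]
      refine Finset.sum_congr rfl (fun i _ => ?_)
      rw [eq_neg_of_add_eq_zero_right (hτ' (e j) (d i)), neg_smul]
    rw [hq, hq, smul_mul_assoc, mul_smul_comm, ← smul_sub, Finset.sum_mul, Finset.mul_sum,
      ← Finset.sum_sub_distrib]
    congr 1
    have h1 : ∀ i, X * (r (τ (e i)) * r (d i)) - r (τ (e i)) * r (d i) * X
        = r (τ (e i)) * r (τ' (d i)) + r (τ' (τ (e i))) * r (d i) := by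
      intro i
      have a3 : X * r (τ (e i)) = r (τ (e i)) * X + r (τ' (τ (e i))) := by
        rw [← hX]; abel
      have a4 : X * r (d i) = r (d i) * X + r (τ' (d i)) := by
        rw [← hX]; abel
      rw [← mul_assoc, a3, add_mul, mul_assoc, a4, mul_add, mul_assoc]
      abel
    rw [Finset.sum_congr rfl (fun i _ => h1 i), Finset.sum_add_distrib]
    have h3 := hswap (r ∘ₗ τ) r
    simp only [LinearMap.comp_apply] at h3
    rw [h3, ← Finset.sum_neg_distrib, ← Finset.sum_add_distrib]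
    refine Finset.sum_congr rfl (fun i _ => ?_)
    rw [LinearMap.sub_apply, LinearMap.comp_apply, LinearMap.comp_apply, map_sub, sub_mul]
    abel

end Pool.Agent.SkH
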