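import Pool.Agent.Lib.SkH.RSec
import Pool.Agent.Lib.SkH.H2
import Pool.Agent.Lib.SkH.Quad

/-!
# Module Psi: the Lie homomorphism `ψ : K → End W` commuting with `σ H`

`H1 = {h ∈ H : χ h = 0}`, `r : H1 → End W` (`σ` restricted), `ω a b = χ ⁅a, b⁆` (nondegenerate on `H1`: as in `Pool.Agent.SkG.TorII`, `exists_tprime`, where all these verifications are written;
`σ ⁅a, b⁆ = ω a b • 1` as `⁅a, b⁆ ∈ k z` and `σ z = 1`).  `q` from `exists_q`.  For `x` with `InR x`: `τ_x : H1 → H1`, `h ↦ ⁅x, h⁆` (`χ ⁅x, h⁆ = 0`), linear in `x`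
and `ω (τ_x a) b + ω a (τ_x b) = χ ⁅x, ⁅a, b⁆⁆ = 0` (`⁅a,b⁆ ∈ k z`, `⁅x,z⁆ = 0`); `[σ x, r h] = r (τ_x h)`.
`s0, β` from `exists_sec`; `ψ0 x = σ (s0 x) - q (τ_{s0 x})`.
(a) `ψ0 x` commutes with `r H1` and with `σ z = 1`, so with `σ w`, `w ∈ H` (`H = H1 + k z`), so with the algebra generated by `σ H` (which contains all `q τ`).
(b) `[ψ0 x, ψ0 y] = [ψ0 x, σ (s0 y)]` (by (a)) `= [σ s0x, σ s0y] - [q τ_x, σ s0y] = σ (s0 ⁅x,y⁆) + β x y • 1 + [σ s0y, q τ_x]` and `[σ s0y, q τ_x] = q (τ_y τ_x - τ_x τ_y)`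
   (third property of `q`), `τ_x τ_y - τ_y τ_x = τ_{s0 ⁅x,y⁆}` (Jacobi, `⁅s0x,s0y⁆ = s0⁅x,y⁆ + β z`, `⁅z, H⁆ = 0`).  So `[ψ0 x, ψ0 y] = ψ0 ⁅x,y⁆ + β x y • 1`.
(c) `β x y = κ u ⁅x,y⁆` (`h2`); `ψ x = ψ0 x + κ u x • 1` satisfies `[ψ x, ψ y] = ψ ⁅x, y⁆`.  So `s = s0`, `a x = - q τ_{s0 x} + κ u x • 1`.
-/

namespace Pool.Agent.SkH

open Module Pool.Agent.SkG
open Pool.Agent.SkS (Irr Nondeg rs fs InR NoTor AbOne RedData)

variable {k L K W : Type} [Field k] [LieRing L] [LieAlgebra k L] [FiniteDimensional k L] [LieRing K]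
  [LieAlgebra k K] [FiniteDimensional k K] [AddCommGroup W] [Module k W]

theorem exists_psi (h2 : (2 : k) ≠ 0) {f : L → L} {χ : Dual k L} {z : L} {H : LieIdeal k L}
    (hc : Cfg f χ z H) (D : KQ z H K) (hK : LieAlgebra.IsKilling k K)
    (σ : (cz z : LieSubalgebra k L) →ₗ[k] End k W)
    (hσ : ∀ x y, σ ⁅x, y⁆ = σ x * σ y - σ y * σ x)
    (hσz : ∀ x : (cz z : LieSubalgebra k L), (x : L) = z → σ x = 1) :
    ∃ (s : K →ₗ[k] (cz z : LieSubalgebra k L)) (a : K →ₗ[k] End k W),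
      (∀ x, D.π (s x) = x) ∧
      (∀ x, a x ∈ Algebra.adjoin k (σ '' {w : (cz z : LieSubalgebra k L) | (w : L) ∈ H})) ∧
      (∀ x y, σ (s ⁅x, y⁆) + a ⁅x, y⁆ =
        (σ (s x) + a x) * (σ (s y) + a y) - (σ (s y) + a y) * (σ (s x) + a x)) ∧
      (∀ x, ∀ w : (cz z : LieSubalgebra k L), (w : L) ∈ H →
        (σ (s x) + a x) * σ w = σ w * (σ (s x) + a x)) := by
  classical
  have hcz : ∀ a ∈ H, a ∈ (cz z : LieSubalgebra k L) := fun a ha => hc.H_cent a ha
  -- the space `H1`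
  let H1 : Submodule k L :=
    { carrier := {h | h ∈ H ∧ χ h = 0}
      add_mem' := by
        rintro a b ⟨ha, ha'⟩ ⟨hb, hb'⟩
        exact ⟨H.add_mem ha hb, by rw [map_add, ha', hb', add_zero]⟩
      zero_mem' := ⟨H.zero_mem, map_zero χ⟩
      smul_mem' := by
        rintro c a ⟨ha, ha'⟩
        exact ⟨H.smul_mem c ha, by rw [map_smul, ha', smul_zero]⟩ }
  have hH1 : ∀ a ∈ H1, a ∈ H ∧ χ a = 0 := fun a ha => ha
  let ι1 : H1 →ₗ[k] (cz z : LieSubalgebra k L) :=
    { toFun := fun a => ⟨a, hcz a (hH1 a a.2).1⟩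
      map_add' := by intro a b; rfl
      map_smul' := by intro c a; rfl }
  let r : H1 →ₗ[k] End k W := σ.comp ι1
  let ω : H1 →ₗ[k] H1 →ₗ[k] k := LinearMap.mk₂ k (fun a b => χ ⁅(a : L), (b : L)⁆)
    (by intro a a' b; simp) (by intro c a b; simp) (by intro a b b'; simp) (by intro c a b; simp)
  have hω1 : ∀ a b : H1, ω a b = χ ⁅(a : L), (b : L)⁆ := fun a b => rfl
  have hcz_z : z ∈ (cz z : LieSubalgebra k L) := hcz z hc.z_mem
  have hzz : σ (⟨z, hcz_z⟩ : (cz z : LieSubalgebra k L)) = 1 := hσz _ rfl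
  -- scalar action of multiples of z
  have hmulz : ∀ (x : (cz z : LieSubalgebra k L)) (c : k), (x : L) = c • z →
      σ x = algebraMap k (End k W) c := by
    intro x c hx
    have h1 : x = c • (⟨z, hcz_z⟩ : (cz z : LieSubalgebra k L)) := by
      apply Subtype.ext
      rw [hx]
      rfl
    rw [h1, map_smul, hzz, Algebra.algebraMap_eq_smul_one]
  have hbr : ∀ (a b : (cz z : LieSubalgebra k L)), (a : L) ∈ H → (b : L) ∈ H →
      σ a * σ b - σ b * σ a = algebraMap k (End k W) (χ ⁅(a : L), (b : L)⁆) := by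
    intro a b ha hb
    obtain ⟨c, hcc⟩ := hc.H_comm a ha b hb
    rw [← hσ, hmulz _ c hcc, hcc, map_smul, hc.χz, smul_eq_mul, mul_one]
  obtain ⟨q, hq1, hq2, hq3⟩ := exists_q h2 r ω
    (by
      intro a b
      exact hbr (ι1 a) (ι1 b) (hH1 a a.2).1 (hH1 b b.2).1)
    (by intro a; rw [hω1, lie_self, map_zero])
    (by
      intro a ha
      have hall : ∀ h' ∈ H, ⁅(a : L), h'⁆ = 0 := by
        intro h' hh'
        have e1 : h' - χ h' • z ∈ H1 :=
          ⟨H.sub_mem hh' (H.smul_mem _ hc.z_mem), by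
            rw [map_sub, map_smul, hc.χz, smul_eq_mul, mul_one, sub_self]⟩
        have e2 : χ ⁅(a : L), h' - χ h' • z⁆ = 0 := ha ⟨_, e1⟩
        rw [lie_sub, lie_smul, hc.H_cent a (hH1 a a.2).1, smul_zero, sub_zero] at e2
        obtain ⟨c, hcc⟩ := hc.H_comm a (hH1 a a.2).1 h' hh'
        rw [hcc, map_smul, hc.χz, smul_eq_mul, mul_one] at e2
        rw [hcc, e2, zero_smul]
      obtain ⟨c, hcc⟩ := hc.H_nd a (hH1 a a.2).1 hall
      have h2 := (hH1 a a.2).2
      rw [hcc, map_smul, hc.χz, smul_eq_mul, mul_one] at h2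
      apply Subtype.ext
      rw [hcc, h2, zero_smul]
      rfl)
  obtain ⟨s, β, hs1, hs2, hs3, hs4, hs5, hs6, hs7⟩ := exists_sec hc D
  obtain ⟨u, hu⟩ := Pool.Agent.SkH.h2 hK β hs6 hs7
  -- the action of `K` on `H1`
  let T : K →ₗ[k] (H1 →ₗ[k] H1) := LinearMap.mk₂ k
    (fun x a => (⟨⁅(s x : L), (a : L)⁆, lie_mem_right k L H (s x : L) a (hH1 a a.2).1,
      (hs2 x).2 a (hH1 a a.2).1⟩ : H1))
    (by
      intro x y a
      apply Subtype.ext
      change ⁅((s (x + y) : (cz z : LieSubalgebra k L)) : L), (a : L)⁆ = _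
      rw [map_add]
      exact add_lie _ _ _)
    (by
      intro c x a
      apply Subtype.ext
      change ⁅((s (c • x) : (cz z : LieSubalgebra k L)) : L), (a : L)⁆ = _
      rw [map_smul]
      exact smul_lie _ _ _)
    (by
      intro x a b
      apply Subtype.ext
      exact lie_add _ _ _)
    (by
      intro c x a
      apply Subtype.ext
      exact lie_smul _ _ _)
  have hT : ∀ (x : K) (a : H1), ((T x a : H1) : L) = ⁅(s x : L), (a : L)⁆ := fun x a => rfl
  have hTskew : ∀ (x : K) (a b : H1), ω (T x a) b + ω a (T x b) = 0 := by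
    intro x a b
    rw [hω1, hω1, hT, hT, ← map_add, ← leibniz_lie]
    obtain ⟨c, hcc⟩ := hc.H_comm a (hH1 a a.2).1 b (hH1 b b.2).1
    rw [hcc, lie_smul, (hs2 x).1, smul_zero, map_zero]
  have hP0 : ∀ (x : K) (h : H1), σ (s x) * r h - r h * σ (s x) = r (T x h) := by
    intro x h
    change σ (s x) * σ (ι1 h) - σ (ι1 h) * σ (s x) = σ (ι1 (T x h))
    rw [← hσ]
    rfl
  have hP2 : ∀ x y : K, σ (s y) * q (T x) - q (T x) * σ (s y) = q (T y ∘ₗ T x - T x ∘ₗ T y) :=
    fun x y => hq3 (T x) (T y) (σ (s y)) (hTskew y) (hP0 y)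
  have hP3 : ∀ x y : K, T ⁅x, y⁆ = T x ∘ₗ T y - T y ∘ₗ T x := by
    intro x y
    ext h
    change ⁅(s ⁅x, y⁆ : L), (h : L)⁆ =
      ⁅(s x : L), ⁅(s y : L), (h : L)⁆⁆ - ⁅(s y : L), ⁅(s x : L), (h : L)⁆⁆
    have h4 := hs4 x y
    rw [← lie_lie, h4, add_lie, smul_lie]
    have h5 : ⁅z, (h : L)⁆ = 0 := by
      rw [← lie_skew, hc.H_cent h (hH1 h h.2).1, neg_zero]
    rw [h5, smul_zero, add_zero]
  -- the operators `ψ0`
  have hA1 : ∀ (x : K) (h : H1), (σ (s x) - q (T x)) * r h = r h * (σ (s x) - q (T x)) := by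
    intro x h
    have e1 := hP0 x h
    have e2 := hq2 (T x) (hTskew x) h
    rw [← e2] at e1
    rw [sub_mul, mul_sub]
    rw [sub_eq_sub_iff_add_eq_add] at e1 ⊢
    rw [add_comm (σ (s x) * r h), add_comm (r h * σ (s x))]
    rw [add_comm (q (T x) * r h)] at e1
    rw [add_comm] at e1
    rw [e1, add_comm]
  have hA2 : ∀ (x : K), ∀ b ∈ Algebra.adjoin k (Set.range r),
      (σ (s x) - q (T x)) * b = b * (σ (s x) - q (T x)) := by
    intro x b hb
    induction hb using Algebra.adjoin_induction with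
    | mem b hb =>
      obtain ⟨h, rfl⟩ := hb
      exact hA1 x h
    | algebraMap c => exact (Algebra.commutes c _).symm
    | add a b _ _ ha hb => rw [add_mul, mul_add, ha, hb]
    | mul a b _ _ ha hb => rw [mul_assoc, ← hb, ← mul_assoc, ha, mul_assoc]
  have hA3 : ∀ (x : K) (w : (cz z : LieSubalgebra k L)), (w : L) ∈ H →
      (σ (s x) - q (T x)) * σ w = σ w * (σ (s x) - q (T x)) := by
    intro x w hw
    have e1 : (w : L) - χ w • z ∈ H1 :=
      ⟨H.sub_mem hw (H.smul_mem _ hc.z_mem), by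
        rw [map_sub, map_smul, hc.χz, smul_eq_mul, mul_one, sub_self]⟩
    have e2 : r ⟨_, e1⟩ = σ w - algebraMap k (End k W) (χ w) := by
      have : ι1 ⟨_, e1⟩ = w - χ w • (⟨z, hcz_z⟩ : (cz z : LieSubalgebra k L)) := rfl
      change σ (ι1 ⟨_, e1⟩) = _
      rw [this, map_sub, map_smul, hzz, Algebra.algebraMap_eq_smul_one]
    have e3 := hA1 x ⟨_, e1⟩
    rw [e2] at e3
    have e4 : ∀ (A B C : End k W), C * A = A * C → A * (B - C) = (B - C) * A → A * B = B * A := by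
      intro A B C h1 h2
      rw [mul_sub, sub_mul, h1] at h2
      exact sub_left_injective h2
    exact e4 _ _ _ (Algebra.commutes _ _) e3
  have hbrψ : ∀ x y : K, (σ (s x) - q (T x)) * (σ (s y) - q (T y)) -
      (σ (s y) - q (T y)) * (σ (s x) - q (T x)) =
      (σ (s ⁅x, y⁆) - q (T ⁅x, y⁆)) + algebraMap k (End k W) (β x y) := by
    intro x y
    have e1 := hA2 x (q (T y)) (hq1 (T y))
    have e2 := hP2 x y
    have e3 : σ (s x) * σ (s y) - σ (s y) * σ (s x) =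
        σ (s ⁅x, y⁆) + algebraMap k (End k W) (β x y) := by
      rw [← hσ]
      have : (⁅s x, s y⁆ : (cz z : LieSubalgebra k L)) = s ⁅x, y⁆ + β x y • ⟨z, hcz_z⟩ := by
        apply Subtype.ext
        exact hs4 x y
      rw [this, map_add, map_smul, hzz, Algebra.algebraMap_eq_smul_one]
    have e4 : q (T y ∘ₗ T x - T x ∘ₗ T y) = - q (T ⁅x, y⁆) := by
      rw [hP3, ← map_neg, neg_sub]
    rw [e4] at e2
    have e5 : (σ (s x) - q (T x)) * (σ (s y) - q (T y)) -
      (σ (s y) - q (T y)) * (σ (s x) - q (T x)) =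
      (σ (s x) * σ (s y) - σ (s y) * σ (s x)) + (σ (s y) * q (T x) - q (T x) * σ (s y))
        - ((σ (s x) - q (T x)) * q (T y) - q (T y) * (σ (s x) - q (T x))) := by
      noncomm_ring
    rw [e5, e1, sub_self, sub_zero, e2, e3]
    abel
  have hrle : Algebra.adjoin k (Set.range r) ≤
      Algebra.adjoin k (σ '' {w : (cz z : LieSubalgebra k L) | (w : L) ∈ H}) := by
    apply Algebra.adjoin_mono
    rintro _ ⟨a, rfl⟩
    exact ⟨ι1 a, (hH1 a a.2).1, rfl⟩
  refine ⟨s, (killingForm k K u).smulRight (1 : End k W) - q ∘ₗ T, hs1, ?_, ?_, ?_⟩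
  · intro x
    change killingForm k K u x • (1 : End k W) - q (T x) ∈ _
    exact Subalgebra.sub_mem _ (Subalgebra.smul_mem _ (Subalgebra.one_mem _) _) (hrle (hq1 _))
  · intro x y
    have e0 : ∀ w : K, σ (s w) + ((killingForm k K u).smulRight (1 : End k W) - q ∘ₗ T) w =
        (σ (s w) - q (T w)) + algebraMap k (End k W) (killingForm k K u w) := by
      intro w
      change σ (s w) + (killingForm k K u w • (1 : End k W) - q (T w)) = _
      rw [Algebra.algebraMap_eq_smul_one]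
      abel
    rw [e0, e0, e0]
    have e1 := hbrψ x y
    have e2 : ∀ (A B : End k W) (c d : k), (A + algebraMap k (End k W) c) *
        (B + algebraMap k (End k W) d) - (B + algebraMap k (End k W) d) *
        (A + algebraMap k (End k W) c) = A * B - B * A := by
      intro A B c d
      simp only [add_mul, mul_add]
      rw [Algebra.commutes c B, Algebra.commutes d A, Algebra.commutes c (algebraMap k (End k W) d)]
      abel
    rw [e2, e1, hu]
  · intro x w hw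
    have e0 : σ (s x) + ((killingForm k K u).smulRight (1 : End k W) - q ∘ₗ T) x =
        (σ (s x) - q (T x)) + algebraMap k (End k W) (killingForm k K u x) := by
      change σ (s x) + (killingForm k K u x • (1 : End k W) - q (T x)) = _
      rw [Algebra.algebraMap_eq_smul_one]
      abel
    rw [e0, add_mul, mul_add, hA3 x w hw, Algebra.commutes]

end Pool.Agent.SkH
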