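import Pool.Agent.Lib.SkG.Dec
import Pool.Agent.Lib.SkH.Defs

/-!
# Module RSec: the section `K = C(z)/H → R` and its cocycle

`R = {x : InR χ z H x}` is a subspace (`inR_add`, `inR_smul`), contains `z`, `R ∩ H = k z` (`inR_H`), `C(z) = R + H` (`decomp`).  `R0 = {x ∈ R : χ x = 0}`; the map `R0 → K`, `x ↦ π x`, is bijective:
surjective: `x = D.π w`, `w - h0 ∈ R`, subtract `χ(w - h0) z`; injective: `π x = 0` gives `x ∈ H ∩ R`, `x = c z`, `c = χ x = 0`.  Let `s` be the inverse.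
`⁅s x, s y⁆ ∈ R` (`inR_lie`) is mapped to `⁅x, y⁆`, so `⁅s x, s y⁆ - s ⁅x, y⁆ ∈ R ∩ H = k z`; applying `χ` gives the coefficient `β x y = χ ⁅s x, s y⁆`.
The cocycle identity: `⁅⁅s x, s y⁆, s w⁆ = ⁅s ⁅x,y⁆, s w⁆` (`z` is central in `R`), apply `χ` and the Jacobi identity.
-/

namespace Pool.Agent.SkH

open Module Pool.Agent.SkG
open Pool.Agent.SkS (Irr Nondeg rs fs InR NoTor AbOne RedData)

variable {k L K : Type} [Field k] [LieRing L] [LieAlgebra k L] [FiniteDimensional k L] [LieRing K]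
  [LieAlgebra k K]

omit [FiniteDimensional k L] in
private lemma inR_z {f : L → L} {χ : Dual k L} {z : L} {H : LieIdeal k L} (hc : Cfg f χ z H) :
    InR χ z H z := by
  refine ⟨lie_self z, fun h hh => ?_⟩
  rw [← lie_skew, hc.H_cent h hh, neg_zero, map_zero]

/-- elements of `R` in the kernel of `χ`, inside the centraliser of `z` -/
private def R0 {f : L → L} {χ : Dual k L} {z : L} {H : LieIdeal k L} (hc : Cfg f χ z H) :
    Submodule k (cz z : LieSubalgebra k L) where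
  carrier := {x | InR χ z H (x : L) ∧ χ (x : L) = 0}
  add_mem' := by
    rintro a b ⟨ha, ha'⟩ ⟨hb, hb'⟩
    refine ⟨inR_add ha hb, ?_⟩
    change χ ((a : L) + (b : L)) = 0
    rw [map_add, ha', hb', add_zero]
  zero_mem' := by
    have h1 := inR_smul (0 : k) (inR_z hc)
    rw [zero_smul] at h1
    exact ⟨h1, map_zero χ⟩
  smul_mem' := by
    rintro c a ⟨ha, ha'⟩
    refine ⟨inR_smul c ha, ?_⟩
    change χ (c • (a : L)) = 0
    rw [map_smul, ha', smul_zero]

private lemma bij {f : L → L} {χ : Dual k L} {z : L} {H : LieIdeal k L} (hc : Cfg f χ z H)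
    (D : KQ z H K) :
    Function.Bijective ((D.π : (cz z : LieSubalgebra k L) →ₗ[k] K).comp (R0 hc).subtype) := by
  constructor
  · rw [injective_iff_map_eq_zero]
    intro x hx
    have h1 : D.π (x : (cz z : LieSubalgebra k L)) = 0 := hx
    rw [D.ker] at h1
    obtain ⟨c, hcc⟩ := inR_H hc x.2.1 h1
    have h2 : χ ((x : (cz z : LieSubalgebra k L)) : L) = 0 := x.2.2
    rw [hcc, map_smul, hc.χz, smul_eq_mul, mul_one] at h2
    rw [h2, zero_smul] at hcc
    exact Subtype.ext (Subtype.ext hcc)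
  · intro y
    obtain ⟨w, rfl⟩ := D.surj y
    obtain ⟨h0, hh0, hR⟩ := decomp hc (w : L) w.2
    have hzc : z ∈ (cz z : LieSubalgebra k L) := lie_self z
    have hh0c : h0 ∈ (cz z : LieSubalgebra k L) := hc.H_cent h0 hh0
    set c := χ ((w : L) - h0) with hcdef
    let v : (cz z : LieSubalgebra k L) := ⟨h0, hh0c⟩ + c • ⟨z, hzc⟩
    have hv : (v : L) ∈ H := H.add_mem hh0 (H.smul_mem c hc.z_mem)
    have hwv : ((w - v : (cz z : LieSubalgebra k L)) : L) = ((w : L) - h0) + (-c) • z := by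
      change (w : L) - (h0 + c • z) = _
      rw [neg_smul]
      abel
    have hmem : w - v ∈ R0 hc := by
      refine ⟨?_, ?_⟩
      · rw [hwv]
        exact inR_add hR (inR_smul (-c) (inR_z hc))
      · rw [hwv, map_add, map_smul, hc.χz, smul_eq_mul, mul_one, ← hcdef, add_neg_cancel]
    refine ⟨⟨w - v, hmem⟩, ?_⟩
    change D.π (w - v) = D.π w
    rw [map_sub, (D.ker v).2 hv, sub_zero]

theorem exists_sec {f : L → L} {χ : Dual k L} {z : L} {H : LieIdeal k L} (hc : Cfg f χ z H)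
    (D : KQ z H K) :
    ∃ (s : K →ₗ[k] (cz z : LieSubalgebra k L)) (β : K →ₗ[k] K →ₗ[k] k),
      (∀ x, D.π (s x) = x) ∧ (∀ x, InR χ z H (s x : L)) ∧ (∀ x, χ (s x : L) = 0) ∧
      (∀ x y, ⁅(s x : L), (s y : L)⁆ = (s ⁅x, y⁆ : L) + β x y • z) ∧
      (∀ x y, β x y = χ ⁅(s x : L), (s y : L)⁆) ∧ (∀ x, β x x = 0) ∧
      (∀ x y w : K, β ⁅x, y⁆ w + β ⁅y, w⁆ x + β ⁅w, x⁆ y = 0) := by
  let e := LinearEquiv.ofBijective _ (bij hc D)
  let s : K →ₗ[k] (cz z : LieSubalgebra k L) := (R0 hc).subtype.comp (e.symm : K →ₗ[k] R0 hc)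
  have hs1 : ∀ x, D.π (s x) = x := fun x => e.apply_symm_apply x
  have hs2 : ∀ x, InR χ z H (s x : L) := fun x => (e.symm x).2.1
  have hs3 : ∀ x, χ (s x : L) = 0 := fun x => (e.symm x).2.2
  let β : K →ₗ[k] K →ₗ[k] k := LinearMap.mk₂ k (fun x y => χ ⁅(s x : L), (s y : L)⁆)
    (by
      intro a b y
      rw [map_add]
      change χ ⁅(s a : L) + (s b : L), (s y : L)⁆ = _
      rw [add_lie, map_add])
    (by
      intro c a y
      rw [map_smul]
      change χ ⁅c • (s a : L), (s y : L)⁆ = _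
      rw [smul_lie, map_smul])
    (by
      intro a x y
      rw [map_add]
      change χ ⁅(s a : L), (s x : L) + (s y : L)⁆ = _
      rw [lie_add, map_add])
    (by
      intro c a y
      rw [map_smul]
      change χ ⁅(s a : L), c • (s y : L)⁆ = _
      rw [lie_smul, map_smul])
  have hβ : ∀ x y, β x y = χ ⁅(s x : L), (s y : L)⁆ := fun x y => rfl
  have hlie : ∀ x y, ⁅(s x : L), (s y : L)⁆ = (s ⁅x, y⁆ : L) + β x y • z := by
    intro x y
    have hR : InR χ z H (⁅(s x : L), (s y : L)⁆ + (-1 : k) • (s ⁅x, y⁆ : L)) :=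
      inR_add (inR_lie hc (hs2 x) (hs2 y)) (inR_smul (-1) (hs2 ⁅x, y⁆))
    rw [neg_one_smul, ← sub_eq_add_neg] at hR
    have hH : ⁅(s x : L), (s y : L)⁆ - (s ⁅x, y⁆ : L) ∈ H := by
      have h1 : D.π (⁅s x, s y⁆ - s ⁅x, y⁆) = 0 := by
        rw [map_sub, LieHom.map_lie, hs1, hs1, hs1, sub_self]
      exact (D.ker _).1 h1
    obtain ⟨c, hcc⟩ := inR_H hc hR hH
    have h2 : χ (⁅(s x : L), (s y : L)⁆ - (s ⁅x, y⁆ : L)) = c := by
      rw [hcc, map_smul, hc.χz, smul_eq_mul, mul_one]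
    rw [map_sub, hs3, sub_zero, ← hβ] at h2
    rw [← h2] at hcc
    rw [← hcc]
    abel
  refine ⟨s, β, hs1, hs2, hs3, hlie, hβ, ?_, ?_⟩
  · intro x
    rw [hβ, lie_self, map_zero]
  · intro x y w
    have key : ∀ a b c : K, β ⁅a, b⁆ c = χ ⁅⁅(s a : L), (s b : L)⁆, (s c : L)⁆ := by
      intro a b c
      have h1 : ⁅z, (s c : L)⁆ = 0 := by rw [← lie_skew, (hs2 c).1, neg_zero]
      rw [hlie a b, add_lie, smul_lie, h1, smul_zero, add_zero, hβ]
    rw [key, key, key, ← map_add, ← map_add]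
    have h2 := lie_jacobi (s x : L) (s y : L) (s w : L)
    have h3 : ⁅⁅(s x : L), (s y : L)⁆, (s w : L)⁆ + ⁅⁅(s y : L), (s w : L)⁆, (s x : L)⁆ +
        ⁅⁅(s w : L), (s x : L)⁆, (s y : L)⁆ = 0 := by
      rw [← lie_skew ⁅(s x : L), (s y : L)⁆ (s w : L), ← lie_skew ⁅(s y : L), (s w : L)⁆ (s x : L),
        ← lie_skew ⁅(s w : L), (s x : L)⁆ (s y : L), ← neg_add, ← neg_add, neg_eq_zero]
      rw [← h2]
      abel
    rw [h3, map_zero]

end Pool.Agent.SkH
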