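import Pool.Agent.Lib.SkH.SmallK

/-!
# Module RadQ: the Killing quotient of a subalgebra attached to one small homomorphism

`S1 = (φ.range)` is a Lie subalgebra of `S` (dimension `≤ finrank S`), `R = LieAlgebra.radical k S1` its solvable radical, `Q = S1 ⧸ R`, `π = mk ∘ φ.rangeRestrict` (surjective).  `Q` has no nonzero abelian ideal:
the preimage in `S1` of an abelian ideal of `Q` is solvable (extension of solvable by solvable, see `LieAlgebra.isSolvable_...`/`LieHom.isSolvable`; `Mathlib: LieAlgebra.HasTrivialRadical` of `L ⧸ radical` may be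
available), so contained in `R`.  `smallK` applies (`finrank Q ≤ finrank S1 ≤ finrank S`).  Kernel: if `π x = 0` then `φ x ∈ R`; `n` with `D^n R = 0` (derived series).
The last statement: for elements of the ideal `π.ker` of `M` the `n`-th derived ideal is mapped by `φ` to the `n`-th derived ideal of (a solvable ideal), so to `0`.
-/

namespace Pool.Agent.SkH

open Module

/-- the quotient map as a homomorphism of Lie algebras -/
private def qmk {k S : Type} [Field k] [LieRing S] [LieAlgebra k S] (R : LieIdeal k S) :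
    S →ₗ⁅k⁆ S ⧸ R :=
  { (LieSubmodule.Quotient.mk' R : S →ₗ[k] S ⧸ R) with
    map_lie' := by
      intro x y
      exact LieSubmodule.Quotient.mk_bracket R x y }

private theorem qmk_eq_zero {k S : Type} [Field k] [LieRing S] [LieAlgebra k S] (R : LieIdeal k S)
    (x : S) : qmk R x = 0 ↔ x ∈ R :=
  LieSubmodule.Quotient.mk_eq_zero R

private theorem qmk_surj {k S : Type} [Field k] [LieRing S] [LieAlgebra k S] (R : LieIdeal k S) :
    Function.Surjective (qmk R) :=
  LieSubmodule.Quotient.surjective_mk' R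

private theorem solvable_iff_exists {k S : Type} [Field k] [LieRing S] [LieAlgebra k S]
    (I : LieIdeal k S) :
    LieAlgebra.IsSolvable I ↔ ∃ n, LieAlgebra.derivedSeriesOfIdeal k S n I = ⊥ := by
  constructor
  · intro h
    obtain ⟨n, hn⟩ := h.solvable k I
    exact ⟨n, (LieIdeal.derivedSeries_eq_bot_iff I n).1 hn⟩
  · rintro ⟨n, hn⟩
    exact LieAlgebra.IsSolvable.mk (R := k) ((LieIdeal.derivedSeries_eq_bot_iff I n).2 hn)

private theorem noAb_quot {k S : Type} [Field k] [LieRing S] [LieAlgebra k S]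
    [FiniteDimensional k S] :
    NoAb k (⊤ : LieIdeal k (S ⧸ LieAlgebra.radical k S)) := by
  intro A _ hA
  let R := LieAlgebra.radical k S
  let J : LieIdeal k S := LieIdeal.comap (qmk R) A
  have hmem : ∀ x, x ∈ J ↔ qmk R x ∈ A := fun x => LieIdeal.mem_comap
  have h1 : ⁅J, J⁆ ≤ R := by
    rw [LieSubmodule.lie_le_iff]
    intro x hx y hy
    rw [← qmk_eq_zero, LieHom.map_lie]
    exact hA _ ((hmem x).1 hx) _ ((hmem y).1 hy)
  obtain ⟨n, hn⟩ := (solvable_iff_exists R).1 (LieAlgebra.radicalIsSolvable k S)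
  have hJ : LieAlgebra.IsSolvable J := by
    rw [solvable_iff_exists]
    refine ⟨n + 1, ?_⟩
    rw [LieAlgebra.derivedSeriesOfIdeal_add, eq_bot_iff, ← hn]
    refine LieAlgebra.derivedSeriesOfIdeal_mono ?_ n
    rw [LieAlgebra.derivedSeriesOfIdeal_succ, LieAlgebra.derivedSeriesOfIdeal_zero]
    exact h1
  have hJR : J ≤ R := (LieAlgebra.LieIdeal.solvable_iff_le_radical k S J).1 hJ
  rw [eq_bot_iff]
  intro a ha
  obtain ⟨x, rfl⟩ := qmk_surj R a
  have hx : x ∈ J := (hmem x).2 ha
  rw [LieSubmodule.mem_bot]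
  exact (qmk_eq_zero R x).2 (hJR hx)

variable {k M S : Type} [Field k] [IsAlgClosed k] {p : ℕ} [Fact p.Prime] [CharP k p] [LieRing M]
  [LieAlgebra k M] [FiniteDimensional k M] [LieRing S] [LieAlgebra k S]

theorem radQ (hS : SmallAlg p k S) (φ : M →ₗ⁅k⁆ S) :
    ∃ (Q : Type) (_ : LieRing Q) (_ : LieAlgebra k Q) (π : M →ₗ⁅k⁆ Q),
      Function.Surjective π ∧ FiniteDimensional k Q ∧ LieAlgebra.IsKilling k Q ∧
      ∃ n : ℕ, LieAlgebra.derivedSeriesOfIdeal k M n π.ker ≤ φ.ker := by
  obtain ⟨hfd, hsm⟩ := hS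
  have : FiniteDimensional k φ.range :=
    inferInstanceAs (FiniteDimensional k φ.range.toSubmodule)
  let R := LieAlgebra.radical k φ.range
  have hQfd : FiniteDimensional k (φ.range ⧸ R) :=
    Module.Finite.of_surjective (qmk R : φ.range →ₗ[k] φ.range ⧸ R) (qmk_surj R)
  have hle : finrank k (φ.range ⧸ R) ≤ finrank k S := by
    refine le_trans (LinearMap.finrank_le_finrank_of_surjective
      (f := (qmk R : φ.range →ₗ[k] φ.range ⧸ R)) (qmk_surj R)) ?_
    exact Submodule.finrank_le φ.range.toSubmodule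
  have hK : LieAlgebra.IsKilling k (φ.range ⧸ R) := by
    refine smallK (p := p) noAb_quot ?_
    rcases hsm with ⟨h1, h2⟩ | h
    · exact Or.inl ⟨h1, hle.trans h2⟩
    · exact Or.inr (lt_of_le_of_lt (Nat.pow_le_pow_right (by norm_num) hle) h)
  obtain ⟨n, hn⟩ := (solvable_iff_exists R).1 (LieAlgebra.radicalIsSolvable k φ.range)
  refine ⟨φ.range ⧸ R, inferInstance, inferInstance, (qmk R).comp φ.rangeRestrict, ?_, hQfd, hK,
    n, ?_⟩
  · exact (qmk_surj R).comp φ.surjective_rangeRestrict
  · have key : ∀ i : ℕ, LieAlgebra.derivedSeriesOfIdeal k M i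
        ((qmk R).comp φ.rangeRestrict).ker ≤
        LieIdeal.comap φ.rangeRestrict (LieAlgebra.derivedSeriesOfIdeal k φ.range i R) := by
      intro i
      induction i with
      | zero =>
        intro x hx
        rw [LieAlgebra.derivedSeriesOfIdeal_zero] at hx
        rw [LieAlgebra.derivedSeriesOfIdeal_zero, LieIdeal.mem_comap]
        rw [LieHom.mem_ker] at hx
        exact (qmk_eq_zero R _).1 hx
      | succ i ih =>
        rw [LieAlgebra.derivedSeriesOfIdeal_succ, LieSubmodule.lie_le_iff]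
        intro x hx y hy
        rw [LieIdeal.mem_comap, LieHom.map_lie, LieAlgebra.derivedSeriesOfIdeal_succ]
        exact LieSubmodule.lie_mem_lie (LieIdeal.mem_comap.1 (ih hx)) (LieIdeal.mem_comap.1 (ih hy))
    intro x hx
    have h := key n hx
    rw [hn, LieIdeal.mem_comap, LieSubmodule.mem_bot] at h
    rw [LieHom.mem_ker]
    exact congrArg Subtype.val h

end Pool.Agent.SkH
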