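import Pool.Agent.Lib.SkH.EffSolv
import Pool.Agent.Lib.SkH.Kill3

/-!
# Module SmallK: small Lie algebras without abelian ideals are Killing

First case: `kill3` (`(2 : k) ≠ 0` from `p ≠ 2`).  Second case: `I = LieIdeal.killingCompl k Q ⊤` is solvable by `isSolvable_of_killing` (`killingForm x y = 0` for `x ∈ I`), so `I = ⊥` by `noAb_solvable`
(`N = ⊤`); this is `IsKilling.killingCompl_top_eq_bot`.
-/

namespace Pool.Agent.SkH

open Module

variable {k Q : Type} [Field k] [IsAlgClosed k] {p : ℕ} [Fact p.Prime] [CharP k p] [LieRing Q]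
  [LieAlgebra k Q] [FiniteDimensional k Q]

theorem smallK (hQ : NoAb k (⊤ : LieIdeal k Q))
    (h : (p ≠ 2 ∧ finrank k Q ≤ 3) ∨ 6 ^ finrank k Q < p) : LieAlgebra.IsKilling k Q := by
  rcases h with ⟨hp, h3⟩ | h
  · refine kill3 ?_ hQ h3
    intro h2
    have h2' : ((2 : ℕ) : k) = 0 := by exact_mod_cast h2
    rw [CharP.cast_eq_zero_iff k p] at h2'
    exact hp ((Nat.prime_dvd_prime_iff_eq (Fact.out : p.Prime) Nat.prime_two).1 h2')
  · constructor
    refine noAb_solvable hQ _ ?_ le_top
    refine isSolvable_of_killing p h _ ?_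
    intro x hx y _
    rw [LieIdeal.mem_killingCompl] at hx
    have := hx y trivial
    rw [LieModule.traceForm_comm]
    exact this

end Pool.Agent.SkH
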